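import Pool.Agent.PisotNormal.Double

/-!
The main construction.
-/

set_option autoImplicit false

namespace Pool.Agent.PisotNormal

open Filter Topology MeasureTheory

lemma ceil_two_mul_tendsto {lam S₀ : ℝ} (hlam : 0 < lam) (hS₀ : 0 < S₀) :
    Tendsto (fun j : ℕ => ⌈S₀ * 2 ^ j / lam⌉₊) atTop atTop := by
  apply tendsto_nat_ceil_atTop.comp
  have h1 : Tendsto (fun j : ℕ => (2:ℝ) ^ j) atTop atTop :=
    tendsto_pow_atTop_atTop_of_one_lt (by norm_num)
  have h2 : Tendsto (fun j : ℕ => (S₀ / lam) * (2:ℝ) ^ j) atTop atTop :=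
    h1.const_mul_atTop (by positivity)
  refine h2.congr (fun j => ?_)
  ring

/-- If increments over dyadic windows are `o(S_j)` then `E N = o(N)`. -/
lemma avg_tendsto_zero (E : ℕ → ℂ) {lam S₀ : ℝ} (hlam : 0 < lam) (hS₀ : 0 < S₀) (ρ : ℕ → ℝ)
    (hρ : Tendsto ρ atTop (𝓝 0))
    (hE : ∀ᶠ j : ℕ in atTop, ∀ m' ∈ Finset.Icc ⌈S₀ * 2 ^ j / lam⌉₊ ⌈S₀ * 2 ^ (j + 1) / lam⌉₊,
      ‖E m' - E ⌈S₀ * 2 ^ j / lam⌉₊‖ ≤ ρ j * (S₀ * 2 ^ j)) :
    Tendsto (fun N : ℕ => E N / (N : ℂ)) atTop (𝓝 0) := by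
  rw [Metric.tendsto_nhds]
  intro ε' hε'
  set ε := ε' / (4 * lam) with hε
  have hε0 : 0 < ε := by positivity
  obtain ⟨J, hJ⟩ := Filter.eventually_atTop.mp
    (hE.and (hρ.eventually (gt_mem_nhds hε0)))
  set C := ‖E ⌈S₀ * 2 ^ J / lam⌉₊‖ with hC
  have key : ∀ j, J ≤ j → (‖E ⌈S₀ * 2 ^ j / lam⌉₊‖ ≤ C + ε * (S₀ * 2 ^ j)) ∧
      ∀ N ∈ Finset.Icc ⌈S₀ * 2 ^ J / lam⌉₊ ⌈S₀ * 2 ^ j / lam⌉₊, ‖E N‖ ≤ C + 2 * ε * lam * N := by
    intro j hj
    induction j, hj using Nat.le_induction with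
    | base =>
      refine ⟨?_, ?_⟩
      · have : 0 ≤ ε * (S₀ * 2 ^ J) := by positivity
        linarith
      · intro N hN
        rw [Finset.mem_Icc] at hN
        have : N = ⌈S₀ * 2 ^ J / lam⌉₊ := le_antisymm hN.2 hN.1
        rw [this]
        have : 0 ≤ 2 * ε * lam * (⌈S₀ * 2 ^ J / lam⌉₊ : ℝ) := by positivity
        linarith
    | succ j hj ih =>
      obtain ⟨h1, h2⟩ := hJ j hj
      have hmono : ⌈S₀ * 2 ^ j / lam⌉₊ ≤ ⌈S₀ * 2 ^ (j + 1) / lam⌉₊ := by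
        apply Nat.ceil_le_ceil
        gcongr
        · norm_num
        · omega
      have hρj : ρ j * (S₀ * 2 ^ j) ≤ ε * (S₀ * 2 ^ j) := by gcongr
      have hwin : ∀ m' ∈ Finset.Icc ⌈S₀ * 2 ^ j / lam⌉₊ ⌈S₀ * 2 ^ (j + 1) / lam⌉₊,
          ‖E m'‖ ≤ C + 2 * (ε * (S₀ * 2 ^ j)) := by
        intro m' hm'
        have h3 := h1 m' hm'
        have h4 := norm_add_le (E m' - E ⌈S₀ * 2 ^ j / lam⌉₊) (E ⌈S₀ * 2 ^ j / lam⌉₊)
        rw [sub_add_cancel] at h4
        linarith [ih.1]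
      refine ⟨?_, ?_⟩
      · have := hwin _ (Finset.mem_Icc.mpr ⟨hmono, le_refl _⟩)
        have e : ε * (S₀ * 2 ^ (j + 1)) = 2 * (ε * (S₀ * 2 ^ j)) := by ring
        rw [e]; exact this
      · intro N hN
        rw [Finset.mem_Icc] at hN
        by_cases hc : N ≤ ⌈S₀ * 2 ^ j / lam⌉₊
        · exact ih.2 N (Finset.mem_Icc.mpr ⟨hN.1, hc⟩)
        · push Not at hc
          have h5 := hwin N (Finset.mem_Icc.mpr ⟨hc.le, hN.2⟩)
          have h6 : S₀ * 2 ^ j / lam ≤ N := (Nat.le_ceil _).trans (by exact_mod_cast hc.le)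
          rw [div_le_iff₀ hlam] at h6
          have h7 : ε * (S₀ * 2 ^ j) ≤ ε * (N * lam) := by gcongr
          linarith
  filter_upwards [eventually_ge_atTop ⌈S₀ * 2 ^ J / lam⌉₊, eventually_gt_atTop 0,
    eventually_gt_atTop ⌈C / (ε' / 2)⌉₊] with N hN1 hN2 hN3
  have hN2' : (0:ℝ) < N := by exact_mod_cast hN2
  obtain ⟨j, hj1, hj2⟩ := (((ceil_two_mul_tendsto hlam hS₀).eventually
    (eventually_ge_atTop N)).and (eventually_ge_atTop J)).exists
  have h8 := (key j hj2).2 N (Finset.mem_Icc.mpr ⟨hN1, hj1⟩)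
  rw [dist_zero_right, norm_div, Complex.norm_natCast, div_lt_iff₀ hN2']
  have h9 : 2 * ε * lam * N = ε' / 2 * N := by
    rw [hε]; field_simp; norm_num
  have h10 : C < ε' / 2 * N := by
    have h11 : C / (ε' / 2) ≤ ⌈C / (ε' / 2)⌉₊ := Nat.le_ceil _
    have h12 : (⌈C / (ε' / 2)⌉₊ : ℝ) < N := by exact_mod_cast hN3
    have h13 := h11.trans_lt h12
    rw [div_lt_iff₀ (by positivity)] at h13
    linarith
  rw [h9] at h8
  linarith

/-- A slowly growing surjection. -/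
lemma exists_slow (W : ℕ → ℕ) : ∃ (j₀ : ℕ) (σ : ℕ → ℕ), (∀ j, W (σ j) ≤ j + j₀) ∧
    Tendsto σ atTop atTop ∧ Function.Surjective σ := by
  set V : ℕ → ℕ := fun s => s + ∑ i ∈ Finset.range (s + 1), W i with hV
  have hVmono : StrictMono V := by
    refine strictMono_nat_of_lt_succ (fun s => ?_)
    simp only [hV]
    rw [Finset.sum_range_succ _ (s + 1)]
    omega
  have hWV : ∀ s, W s ≤ V s := by
    intro s
    simp only [hV]
    have h1 : s ∈ Finset.range (s + 1) := Finset.mem_range.mpr (Nat.lt_succ_self s)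
    have := Finset.single_le_sum (f := W) (fun _ _ => Nat.zero_le _) h1
    omega
  have hsV : ∀ s, s ≤ V s := fun s => by simp only [hV]; omega
  set τ : ℕ → ℕ := fun w => Nat.findGreatest (fun s => V s ≤ w) w with hτ
  have hτge : ∀ s w, V s ≤ w → s ≤ τ w := by
    intro s w h
    exact Nat.le_findGreatest ((hsV s).trans h) h
  have hτspec : ∀ w, V 0 ≤ w → V (τ w) ≤ w := by
    intro w h
    exact Nat.findGreatest_spec (P := fun s => V s ≤ w) (Nat.zero_le _) h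
  have hτV : ∀ s, τ (V s) = s := by
    intro s
    have h1 := hτge s (V s) (le_refl _)
    have h2 := hτspec (V s) (hVmono.monotone (Nat.zero_le _))
    have h3 := hVmono.le_iff_le.mp h2
    omega
  refine ⟨V 0, fun j => τ (j + V 0), ?_, ?_, ?_⟩
  · intro j
    exact (hWV _).trans (hτspec _ (by omega))
  · rw [tendsto_atTop]
    intro b
    filter_upwards [eventually_ge_atTop (V b)] with j hj
    exact hτge b _ (by omega)
  · intro s
    refine ⟨V s - V 0, ?_⟩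
    have h1 : V 0 ≤ V s := hVmono.monotone (Nat.zero_le _)
    simp only
    rw [Nat.sub_add_cancel h1, hτV]

/-- Exhaustion of a countable set by finite sets. -/
lemma exists_finset_exhaustion {β : Type*} {P : Set β} (hP : P.Countable) :
    ∃ F : ℕ → Finset β, (∀ s, ∀ p ∈ F s, p ∈ P) ∧ ∀ p ∈ P, ∀ᶠ s in atTop, p ∈ F s := by
  classical
  by_cases hne : P.Nonempty
  · obtain ⟨f, hf⟩ := hP.exists_eq_range hne
    refine ⟨fun s => (Finset.range s).image f, ?_, ?_⟩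
    · intro s p hp
      rw [Finset.mem_image] at hp
      obtain ⟨i, _, rfl⟩ := hp
      rw [hf]; exact Set.mem_range_self i
    · intro p hp
      rw [hf] at hp
      obtain ⟨i, rfl⟩ := hp
      filter_upwards [eventually_gt_atTop i] with s hs
      exact Finset.mem_image.mpr ⟨i, Finset.mem_range.mpr hs, rfl⟩
  · rw [Set.not_nonempty_iff_eq_empty] at hne
    subst hne
    exact ⟨fun _ => ∅, by simp, by simp⟩

/-- A filler base. -/
lemma exists_filler {A : Set ℝ} (hA : A.Countable) (hA1 : ∀ α ∈ A, 1 < |α|) :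
    ∃ γ : ℝ, 1 < γ ∧ ∀ α ∈ A, Irrational (Real.log |α| / Real.log γ) := by
  set B : Set ℝ := ⋃ r : ℚ, (fun α : ℝ => Real.log |α| / r) '' A with hB
  have hBc : B.Countable := Set.countable_iUnion (fun r => hA.image _)
  obtain ⟨g, hg1, hg2⟩ := (hBc.dense_compl ℝ).exists_mem_open isOpen_Ioi
    (⟨1, by norm_num⟩ : (Set.Ioi (0:ℝ)).Nonempty)
  rw [Set.mem_Ioi] at hg2
  refine ⟨Real.exp g, by rw [← Real.exp_zero]; exact Real.exp_lt_exp.mpr hg2, ?_⟩
  intro α hα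
  rw [Real.log_exp]
  rintro ⟨r, hr⟩
  apply hg1
  rw [hB, Set.mem_iUnion]
  refine ⟨r, α, hα, ?_⟩
  have hlog : 0 < Real.log |α| := Real.log_pos (hA1 α hα)
  have hr0 : (r : ℝ) ≠ 0 := by
    rw [hr]; positivity
  simp only
  rw [hr]
  field_simp

/-- The property achieved at one double step. -/
def Good (θ c δ : ℝ) (F : Finset (ℝ × ℤ)) (S : ℝ) (k : ℕ) (ξ : ℝ) : Prop :=
  (∀ p ∈ F, Irrational (Real.log |p.1| / Real.log θ) →
    ∀ m' ∈ Finset.Icc ⌈S / Real.log |p.1|⌉₊ ⌈2 * S / Real.log |p.1|⌉₊,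
      ‖WW p.1 p.2 ξ ⌈S / Real.log |p.1|⌉₊ m'‖ ≤ δ * S) ∧
  (∀ p ∈ F,
    ∀ m' ∈ Finset.Icc ⌈S / Real.log |p.1|⌉₊ ⌈2 * S / Real.log |p.1|⌉₊,
      ‖WW p.1 p.2 ξ ⌈S / Real.log |p.1|⌉₊ m'‖
        ≤ δ * S + S / ((k + 1) * Real.log |p.1|)) ∧
  (c / (k + 1) - δ) * S ≤
    (WW θ 1 ξ ⌈S / Real.log θ⌉₊ ⌈(S + S / (k + 1)) / Real.log θ⌉₊).re

/-- The continuous map `k ↦ ξ_k` with the `Good` property at every dyadic window. -/
theorem exists_map (c : ℝ → ℝ) (θ : ℕ → ℝ) (δ : ℕ → ℝ) (F : ℕ → Finset (ℝ × ℤ))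
    (hall : ∀ s : ℕ, ∀ᶠ S : ℝ in atTop, ∀ (k : ℕ) (x : ℝ), |x| ≤ 2 →
      ∃ x' : ℝ, |x' - x| ≤ 2 * Real.exp (-S) ∧
        ∀ ξ : ℝ, |ξ - x'| ≤ 4 * Real.exp (-(2 * S)) → Good (θ s) (c (θ s)) (δ s) (F s) S k ξ) :
    ∃ (S₀ : ℝ) (σ : ℕ → ℕ) (Ξ : (ℕ → ℕ) → ℝ), 0 < S₀ ∧ Tendsto σ atTop atTop ∧
      Function.Surjective σ ∧ Continuous Ξ ∧
      ∀ (k : ℕ → ℕ) (j : ℕ), Good (θ (σ j)) (c (θ (σ j))) (δ (σ j)) (F (σ j)) (S₀ * 2 ^ j)
        (k (σ j)) (Ξ k) := by
  have hpow : Tendsto (fun w : ℕ => (2:ℝ) ^ w) atTop atTop :=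
    tendsto_pow_atTop_atTop_of_one_lt (by norm_num)
  have hW : ∀ s : ℕ, ∃ W : ℕ, ∀ w, W ≤ w → ∀ (k : ℕ) (x : ℝ), |x| ≤ 2 →
      ∃ x' : ℝ, |x' - x| ≤ 2 * Real.exp (-((2:ℝ) ^ w)) ∧
        ∀ ξ : ℝ, |ξ - x'| ≤ 4 * Real.exp (-(2 * (2:ℝ) ^ w)) →
          Good (θ s) (c (θ s)) (δ s) (F s) ((2:ℝ) ^ w) k ξ := by
    intro s
    exact Filter.eventually_atTop.mp (hpow.eventually (hall s))
  choose W hW using hW
  obtain ⟨j₀, σ, hσ1, hσ2, hσ3⟩ := exists_slow W
  set S : ℕ → ℝ := fun j => (2:ℝ) ^ (j + j₀) with hS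
  have hS2 : ∀ j, S (j + 1) = 2 * S j := by
    intro j; simp only [hS]; ring
  have hS1 : ∀ j, 1 ≤ S j := fun j => one_le_pow₀ (by norm_num)
  have hstep : ∀ (j k : ℕ) (x : ℝ), ∃ x' : ℝ, |x| ≤ 2 → (|x' - x| ≤ 2 * Real.exp (-(S j)) ∧
        ∀ ξ : ℝ, |ξ - x'| ≤ 4 * Real.exp (-(S (j + 1))) →
          Good (θ (σ j)) (c (θ (σ j))) (δ (σ j)) (F (σ j)) (S j) k ξ) := by
    intro j k x
    by_cases hx : |x| ≤ 2
    · obtain ⟨x', h1, h2⟩ := hW (σ j) (j + j₀) (hσ1 j) k x hx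
      exact ⟨x', fun _ => ⟨h1, fun ξ hξ => h2 ξ (by rw [hS2] at hξ; exact hξ)⟩⟩
    · exact ⟨x, fun h => absurd h hx⟩
  choose step hstep using hstep
  -- the recursion
  let X : ℕ → (ℕ → ℕ) → ℝ := fun j => Nat.rec (fun _ => 0)
    (fun j Xj k => step j (k (σ j)) (Xj k)) j
  have hX0 : ∀ k, X 0 k = 0 := fun k => rfl
  have hXs : ∀ j k, X (j + 1) k = step j (k (σ j)) (X j k) := fun j k => rfl
  have hexp : ∀ j, 4 * Real.exp (-(S (j + 1))) ≤ 2 * Real.exp (-(S j)) := by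
    intro j
    have h1 : Real.exp (-(S (j + 1))) = Real.exp (-(S j)) * Real.exp (-(S j)) := by
      rw [← Real.exp_add, hS2]; congr 1; ring
    have h2 : Real.exp (-(S j)) ≤ 1 / 2 := by
      have h3 : Real.exp (-(S j)) ≤ Real.exp (-1) := Real.exp_le_exp.mpr (by linarith [hS1 j])
      have h4 : Real.exp (-1) ≤ 1 / 2 := by
        have := Real.exp_neg_one_lt_half
        linarith
      linarith
    rw [h1]
    nlinarith [Real.exp_pos (-(S j))]
  have hXbd : ∀ k j, |X j k| ≤ 2 ∧ ∀ n, |X (j + n) k - X j k|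
      ≤ 4 * Real.exp (-(S j)) - 4 * Real.exp (-(S (j + n))) := by
    intro k
    have hb : ∀ j, |X j k| ≤ 2 := by
      have hb' : ∀ j, |X j k| ≤ 4 * Real.exp (-(S 0)) - 4 * Real.exp (-(S j)) ∧ |X j k| ≤ 2 := by
        intro j
        have h2 : 4 * Real.exp (-(S 0)) ≤ 2 := by
          have h3 : Real.exp (-(S 0)) ≤ Real.exp (-1) := Real.exp_le_exp.mpr (by linarith [hS1 0])
          have := Real.exp_neg_one_lt_half
          linarith
        induction j with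
        | zero => simp [hX0]
        | succ j ih =>
          have h4 := (hstep j (k (σ j)) (X j k) ih.2).1
          rw [← hXs] at h4
          have h5 : |X (j + 1) k| ≤ |X (j + 1) k - X j k| + |X j k| := by
            have := abs_add_le (X (j + 1) k - X j k) (X j k)
            rwa [sub_add_cancel] at this
          have h6 := hexp j
          have h7 := Real.exp_pos (-(S (j + 1)))
          constructor
          · linarith [ih.1]
          · linarith [ih.1]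
      exact fun j => (hb' j).2
    intro j
    refine ⟨hb j, fun n => ?_⟩
    induction n with
    | zero => simp
    | succ n ih =>
      have h4 := (hstep (j + n) (k (σ (j + n))) (X (j + n) k) (hb (j + n))).1
      rw [← hXs] at h4
      have h5 : |X (j + (n + 1)) k - X j k|
          ≤ |X (j + n + 1) k - X (j + n) k| + |X (j + n) k - X j k| := by
        have := abs_add_le (X (j + n + 1) k - X (j + n) k) (X (j + n) k - X j k)
        rwa [sub_add_sub_cancel] at this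
      have h6 := hexp (j + n)
      have h7 : S (j + (n + 1)) = S (j + n + 1) := by rw [add_assoc]
      rw [h7]
      linarith
  -- the exponential error tends to zero
  have herr : Tendsto (fun j => 4 * Real.exp (-(S j))) atTop (𝓝 0) := by
    have h1 : Tendsto S atTop atTop := hpow.comp (tendsto_add_atTop_nat j₀)
    have h2 := (Real.tendsto_exp_neg_atTop_nhds_zero.comp h1).const_mul 4
    simpa using h2
  have hcauchy : ∀ k, CauchySeq (fun j => X j k) := by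
    intro k
    refine cauchySeq_of_le_tendsto_0' (fun j => 4 * Real.exp (-(S j))) ?_ herr
    intro n m hnm
    obtain ⟨d, rfl⟩ := Nat.exists_eq_add_of_le hnm
    rw [dist_comm, Real.dist_eq]
    have := (hXbd k n).2 d
    have h2 := Real.exp_pos (-(S (n + d)))
    linarith
  have hlim : ∀ k, ∃ ξ, Tendsto (fun j => X j k) atTop (𝓝 ξ) := fun k =>
    cauchySeq_tendsto_of_complete (hcauchy k)
  choose Ξ hΞ using hlim
  have hΞbd : ∀ k j, |Ξ k - X j k| ≤ 4 * Real.exp (-(S j)) := by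
    intro k j
    have h1 : Tendsto (fun n => |X (j + n) k - X j k|) atTop (𝓝 |Ξ k - X j k|) := by
      have h2 : Tendsto (fun n => X (j + n) k) atTop (𝓝 (Ξ k)) := by
        have := (tendsto_add_atTop_iff_nat j).mpr (hΞ k)
        refine this.congr (fun n => ?_)
        rw [add_comm]
      exact (h2.sub_const _).abs
    refine le_of_tendsto h1 (Eventually.of_forall (fun n => ?_))
    have := (hXbd k j).2 n
    have h2 := Real.exp_pos (-(S (j + n)))
    linarith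
  have hXcont : ∀ j, IsLocallyConstant (X j) := by
    intro j
    induction j with
    | zero => exact IsLocallyConstant.const 0
    | succ j ih =>
      have h1 : IsLocallyConstant (fun k : ℕ → ℕ => k (σ j)) := by
        rw [IsLocallyConstant.iff_continuous]
        exact continuous_apply _
      have h2 := (h1.prodMk ih).comp (fun q : ℕ × ℝ => step j q.1 q.2)
      exact h2
  have hcont : Continuous Ξ := by
    have hunif : TendstoUniformly (fun j k => X j k) Ξ atTop := by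
      rw [Metric.tendstoUniformly_iff]
      intro ε hε
      filter_upwards [herr.eventually (gt_mem_nhds hε)] with j hj k
      rw [Real.dist_eq]
      exact (hΞbd k j).trans_lt hj
    exact hunif.continuous (Eventually.of_forall (fun j => (hXcont j).continuous)).frequently
  refine ⟨(2:ℝ) ^ j₀, σ, Ξ, by positivity, hσ2, hσ3, hcont, ?_⟩
  intro k j
  have h1 := (hstep j (k (σ j)) (X j k) (hXbd k j).1).2 (Ξ k) (by
    rw [← hXs]; exact hΞbd k (j + 1))
  have h2 : (2:ℝ) ^ j₀ * 2 ^ j = S j := by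
    simp only [hS]; rw [pow_add]; ring
  rw [h2]
  exact h1

lemma WW_eq_sub (α : ℝ) (h : ℤ) (x : ℝ) {m₁ m' : ℕ} (hm : m₁ ≤ m') :
    WW α h x m₁ m' = ∑ m ∈ Finset.range m', ee (h * (x * α ^ m))
      - ∑ m ∈ Finset.range m₁, ee (h * (x * α ^ m)) := by
  unfold WW
  rw [Finset.sum_Ico_eq_sub _ hm]

/-- If the real parts of Weyl sums over infinitely many windows `[S, S + S/(K+1)]` are large,
the sequence is not uniformly distributed. -/
lemma not_udModOne_of_bias {ϑ : ℝ} (hϑ : 1 < ϑ) {S₀ c : ℝ} (hS₀ : 0 < S₀) (hc : 0 < c)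
    (K : ℕ) (ξ α : ℝ) (hα : α = ϑ ∨ α = -ϑ) (δ : ℕ → ℝ) (hδ : Tendsto δ atTop (𝓝 0))
    (hfreq : ∃ᶠ j : ℕ in atTop, (c / (K + 1) - δ j) * (S₀ * 2 ^ j) ≤
      (WW ϑ 1 ξ ⌈S₀ * 2 ^ j / Real.log ϑ⌉₊
        ⌈(S₀ * 2 ^ j + S₀ * 2 ^ j / (K + 1)) / Real.log ϑ⌉₊).re) :
    ¬ UDModOne (fun n => ξ * α ^ n) := by
  intro hud
  have hlog : 0 < Real.log ϑ := Real.log_pos hϑ
  set lam := Real.log ϑ with hlam
  have hweyl := weyl_of_udModOne _ hud 1 one_ne_zero
  set E : ℕ → ℂ := fun N => ∑ m ∈ Finset.range N, ee ((1:ℤ) * (ξ * α ^ m)) with hE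
  have hKpos : (0:ℝ) < K + 1 := by positivity
  set ε := c * lam / (16 * (K + 1)) with hε
  have hε0 : 0 < ε := by positivity
  -- eventual smallness
  have h1 : ∀ᶠ N : ℕ in atTop, ‖E N‖ ≤ ε * N := by
    have h2 := (Metric.tendsto_nhds.mp hweyl) ε hε0
    filter_upwards [h2, eventually_gt_atTop 0] with N hN hN0
    have hN0' : (0:ℝ) < N := by exact_mod_cast hN0
    rw [dist_zero_right, norm_div, Complex.norm_natCast, div_lt_iff₀ hN0'] at hN
    exact hN.le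
  have h2 := (ceil_two_mul_tendsto hlog hS₀).eventually (Filter.eventually_atTop.mpr
    (by
      obtain ⟨N0, hN0⟩ := Filter.eventually_atTop.mp h1
      exact ⟨N0, fun N hN => (fun N' (hN' : N ≤ N') => hN0 N' (hN.trans hN'))⟩ :
      ∃ a, ∀ b ≥ a, ∀ N', b ≤ N' → ‖E N'‖ ≤ ε * N'))
  have h3 : ∀ᶠ j : ℕ in atTop, δ j < c / (2 * (K + 1)) := hδ.eventually (gt_mem_nhds (by positivity))
  have h4 : ∀ᶠ j : ℕ in atTop, 1 ≤ S₀ * 2 ^ j / lam := by
    have : Tendsto (fun j : ℕ => S₀ / lam * (2:ℝ) ^ j) atTop atTop :=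
      (tendsto_pow_atTop_atTop_of_one_lt (by norm_num)).const_mul_atTop (by positivity)
    filter_upwards [this.eventually (eventually_ge_atTop 1)] with j hj
    calc (1:ℝ) ≤ S₀ / lam * 2 ^ j := hj
      _ = S₀ * 2 ^ j / lam := by ring
  obtain ⟨j, hj, hj2, hj3, hj4⟩ := (hfreq.and_eventually (h2.and (h3.and h4))).exists
  set S := S₀ * 2 ^ j with hS
  have hS0 : 0 < S := by positivity
  set m₁ := ⌈S / lam⌉₊ with hm₁
  set m₂ := ⌈(S + S / (K + 1)) / lam⌉₊ with hm₂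
  have hle : m₁ ≤ m₂ := by
    apply Nat.ceil_le_ceil
    have : 0 ≤ S / (K + 1) := by positivity
    gcongr
    linarith
  have e1 : (m₁ : ℝ) < S / lam + 1 := Nat.ceil_lt_add_one (by positivity)
  have e2 : (m₂ : ℝ) < (S + S / (K + 1)) / lam + 1 := Nat.ceil_lt_add_one (by positivity)
  have e3 : (S + S / (K + 1)) / lam ≤ 2 * (S / lam) := by
    have : S / (K + 1) ≤ S := div_le_self hS0.le (by
      have : (0:ℝ) ≤ K := Nat.cast_nonneg _
      linarith)
    calc (S + S / (K + 1)) / lam ≤ (S + S) / lam := by gcongr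
      _ = 2 * (S / lam) := by ring
  have hre : (WW ϑ 1 ξ m₁ m₂).re = (WW α 1 ξ m₁ m₂).re := by
    rcases hα with rfl | rfl
    · rfl
    · rw [WW_neg_re]
  have hnorm : ‖WW α 1 ξ m₁ m₂‖ ≤ ε * m₂ + ε * m₁ := by
    rw [WW_eq_sub α 1 ξ hle]
    refine (norm_sub_le _ _).trans ?_
    exact add_le_add (hj2 m₂ hle) (hj2 m₁ (le_refl _))
  have h5 : (c / (K + 1) - δ j) * S ≤ ε * m₂ + ε * m₁ := by
    rw [hre] at hj
    exact hj.trans ((Complex.re_le_norm _).trans hnorm)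
  have h6 : c / (2 * (K + 1)) * S ≤ (c / (K + 1) - δ j) * S := by
    apply mul_le_mul_of_nonneg_right _ hS0.le
    have : c / (K + 1) = 2 * (c / (2 * (K + 1))) := by field_simp
    linarith
  have h7 : ε * m₂ + ε * m₁ < ε * (5 * (S / lam)) + 0 := by
    have : (m₂ : ℝ) + m₁ < 5 * (S / lam) := by linarith
    nlinarith
  have h8 : ε * (5 * (S / lam)) = 5 / 16 * (c / (K + 1)) * S := by
    rw [hε]; field_simp
  have h9 : c / (2 * (K + 1)) * S = 1 / 2 * (c / (K + 1)) * S := by field_simp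
  have h10 : 0 < c / (K + 1) * S := by positivity
  nlinarith

/-- The main construction: a continuous map `k ↦ Ξ k` from Baire space controlling
uniform distribution of `Ξ k * α ^ n`. -/
theorem main_construction {A : Set ℝ} (hA : A.Countable) (hA1 : ∀ α ∈ A, 1 < |α|)
    (θ : ℕ → ℝ) (hθ : ∀ s, 1 < θ s ∧ Summable (fun i : ℕ => nn ((θ s) ^ i))) :
    ∃ Ξ : (ℕ → ℕ) → ℝ, Continuous Ξ ∧ ∀ k : ℕ → ℕ,
      (∀ (ϑ : ℝ) (K : ℕ), {s | θ s = ϑ ∧ k s = K}.Infinite →
        ∀ α : ℝ, (α = ϑ ∨ α = -ϑ) → ¬ UDModOne (fun n => Ξ k * α ^ n)) ∧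
      (∀ α ∈ A, (∀ K : ℕ, {s | ¬ Irrational (Real.log |α| / Real.log (θ s)) ∧ k s ≤ K}.Finite) →
        UDModOne (fun n => Ξ k * α ^ n)) := by
  obtain ⟨γ, hγ1, hγA⟩ := exists_filler hA hA1
  -- bias constants
  have hcc : ∀ ϑ : ℝ, ∃ c : ℝ, (1 < ϑ ∧ Summable (fun i : ℕ => nn (ϑ ^ i))) → 0 < c ∧
      ∀ (F : Finset (ℝ × ℤ)),
      (∀ p ∈ F, 1 < |p.1| ∧ p.2 ≠ 0 ∧ Irrational (Real.log |p.1| / Real.log γ)) →
      ∀ {δ : ℝ}, 0 < δ →
      ∀ᶠ S : ℝ in atTop, ∀ (k : ℕ) (x : ℝ), |x| ≤ 2 →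
        ∃ x' : ℝ, |x' - x| ≤ 2 * Real.exp (-S) ∧
          ∀ ξ : ℝ, |ξ - x'| ≤ 4 * Real.exp (-(2 * S)) → Good ϑ c δ F S k ξ := by
    intro ϑ
    by_cases h : 1 < ϑ ∧ Summable (fun i : ℕ => nn (ϑ ^ i))
    · obtain ⟨c, hc, hc2⟩ := double_step h.1 hγ1 h.2
      exact ⟨c, fun _ => ⟨hc, fun F hF δ hδ => hc2 F hF hδ⟩⟩
    · exact ⟨1, fun h' => absurd h' h⟩
  choose c hc using hcc
  -- the pairs
  set P : Set (ℝ × ℤ) := {p | p.1 ∈ A ∧ p.2 ≠ 0} with hP
  have hPc : P.Countable := by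
    have : P ⊆ A ×ˢ (Set.univ : Set ℤ) := by
      rintro p hp
      exact ⟨hp.1, Set.mem_univ _⟩
    exact (hA.prod Set.countable_univ).mono this
  obtain ⟨F, hF1, hF2⟩ := exists_finset_exhaustion hPc
  have hF : ∀ s, ∀ p ∈ F s, 1 < |p.1| ∧ p.2 ≠ 0 ∧ Irrational (Real.log |p.1| / Real.log γ) := by
    intro s p hp
    obtain ⟨h1, h2⟩ := hF1 s p hp
    exact ⟨hA1 _ h1, h2, hγA _ h1⟩
  set δ : ℕ → ℝ := fun s => 1 / ((s : ℝ) + 1) with hδ
  have hδ0 : ∀ s, 0 < δ s := fun s => by simp only [hδ]; positivity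
  have hδlim : Tendsto δ atTop (𝓝 0) := tendsto_one_div_add_atTop_nhds_zero_nat
  obtain ⟨S₀, σ, Ξ, hS₀, hσ, hσs, hΞc, hΞ⟩ := exists_map c θ δ F
    (fun s => (hc (θ s) (hθ s)).2 (F s) (hF s) (hδ0 s))
  refine ⟨Ξ, hΞc, fun k => ⟨?_, ?_⟩⟩
  · -- killing
    intro ϑ K hinf α hα
    have hϑ : 1 < ϑ ∧ Summable (fun i : ℕ => nn (ϑ ^ i)) := by
      obtain ⟨s, hs⟩ := hinf.nonempty
      have := hθ s
      rw [hs.1] at this
      exact this
    refine not_udModOne_of_bias hϑ.1 hS₀ (hc ϑ hϑ).1 K (Ξ k) α hα (fun j => δ (σ j))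
      (hδlim.comp hσ) ?_
    rw [Filter.frequently_atTop]
    intro j₁
    -- choose s in the set not among σ 0, ..., σ j₁
    obtain ⟨s, hs1, hs2⟩ := hinf.exists_notMem_finset ((Finset.range j₁).image σ)
    obtain ⟨j, hj⟩ := hσs s
    have hjj : j₁ ≤ j := by
      by_contra hcon
      push Not at hcon
      exact hs2 (Finset.mem_image.mpr ⟨j, Finset.mem_range.mpr hcon, hj⟩)
    refine ⟨j, hjj, ?_⟩
    have h1 := (hΞ k j).2.2
    rw [hj, hs1.1, hs1.2] at h1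
    rw [hj]
    exact h1
  · -- keeping
    intro α hα hfin
    have hα1 := hA1 α hα
    have hlog : 0 < Real.log |α| := Real.log_pos hα1
    refine udModOne_of_weyl _ (fun h hh => ?_)
    classical
    set ρ : ℕ → ℝ := fun j => δ (σ j) +
      (if Irrational (Real.log |α| / Real.log (θ (σ j))) then 0
        else 1 / (((k (σ j) : ℝ) + 1) * Real.log |α|)) with hρ
    have hρlim : Tendsto ρ atTop (𝓝 0) := by
      have h1 : Tendsto (fun j => δ (σ j)) atTop (𝓝 0) := hδlim.comp hσ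
      have h2 : Tendsto (fun s => (if Irrational (Real.log |α| / Real.log (θ s)) then (0:ℝ)
          else 1 / (((k s : ℝ) + 1) * Real.log |α|))) atTop (𝓝 0) := by
        rw [Metric.tendsto_nhds]
        intro ε hε
        obtain ⟨K, hK⟩ := exists_nat_gt (1 / (ε * Real.log |α|))
        have h3 := hfin K
        obtain ⟨s₀, hs₀⟩ := h3.bddAbove
        filter_upwards [eventually_gt_atTop s₀] with s hs
        rw [dist_zero_right]
        split_ifs with hirr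
        · simpa using hε
        · have h4 : ¬ (k s ≤ K) := by
            intro hks
            have := hs₀ (show s ∈ {s | ¬ Irrational (Real.log |α| / Real.log (θ s)) ∧ k s ≤ K}
              from ⟨hirr, hks⟩)
            omega
          push Not at h4
          have h5 : (K : ℝ) ≤ k s := by exact_mod_cast h4.le
          rw [Real.norm_eq_abs, abs_of_pos (by positivity), div_lt_iff₀ (by positivity)]
          rw [div_lt_iff₀ (by positivity)] at hK
          have h6 : (K : ℝ) * (ε * Real.log |α|) ≤ k s * (ε * Real.log |α|) := by gcongr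
          have h7 : 0 < ε * Real.log |α| := by positivity
          nlinarith
      have := h1.add (h2.comp hσ)
      rw [add_zero] at this
      exact this
    have hp : ((α, h) : ℝ × ℤ) ∈ P := ⟨hα, hh⟩
    refine avg_tendsto_zero (fun N => ∑ m ∈ Finset.range N, ee (h * (Ξ k * α ^ m)))
      hlog hS₀ ρ hρlim ?_
    filter_upwards [hσ.eventually (hF2 _ hp)] with j hj m' hm'
    have hS2 : S₀ * 2 ^ (j + 1) = 2 * (S₀ * 2 ^ j) := by ring
    rw [hS2] at hm'
    have hle := (Finset.mem_Icc.mp hm').1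
    rw [← WW_eq_sub α h (Ξ k) hle]
    obtain ⟨h1, h2, -⟩ := hΞ k j
    simp only [hρ]
    split_ifs with hirr
    · have := h1 (α, h) hj hirr m' hm'
      rw [add_zero]
      exact this
    · have := h2 (α, h) hj m' hm'
      refine this.trans (le_of_eq ?_)
      ring

end Pool.Agent.PisotNormal
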