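import Pool.Agent.PisotNormal.Decay

/-!
Averaging over random digits (as an explicit positive operator on functions) and the second
moment bound for Weyl sums in bases with irrational logarithmic ratio.
-/

set_option autoImplicit false

namespace Pool.Agent.PisotNormal

open Filter Topology MeasureTheory

/-- Average of `f` over the points `x + ∑_{N₁ < j ≤ N₁ + n} ε_j θ^{-j}` with independent digits
`ε_j`, equal to `0` with weight `3/4` and `±1` with weight `1/8` each. -/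
noncomputable def avg (θ : ℝ) (N₁ : ℕ) : ℕ → (ℝ → ℝ) → ℝ → ℝ
  | 0, f => f
  | n + 1, f => avg θ N₁ n (fun y => 3 / 4 * f y + 1 / 8 * f (y + 1 / θ ^ (N₁ + n + 1))
      + 1 / 8 * f (y - 1 / θ ^ (N₁ + n + 1)))

lemma avg_mono (θ : ℝ) (N₁ n : ℕ) (f g : ℝ → ℝ) (h : ∀ x, f x ≤ g x) (x : ℝ) :
    avg θ N₁ n f x ≤ avg θ N₁ n g x := by
  induction n generalizing f g with
  | zero => exact h x
  | succ n ih =>
    simp only [avg]
    exact ih _ _ (fun y => by
      linarith [h y, h (y + 1 / θ ^ (N₁ + n + 1)), h (y - 1 / θ ^ (N₁ + n + 1))])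

lemma avg_const (θ : ℝ) (N₁ n : ℕ) (c : ℝ) (x : ℝ) : avg θ N₁ n (fun _ => c) x = c := by
  induction n with
  | zero => rfl
  | succ n ih =>
    simp only [avg]
    have : (fun _ : ℝ => 3 / 4 * c + 1 / 8 * c + 1 / 8 * c) = fun _ => c := by
      funext y; ring
    rw [this, ih]

lemma avg_add (θ : ℝ) (N₁ n : ℕ) (f g : ℝ → ℝ) (x : ℝ) :
    avg θ N₁ n (fun y => f y + g y) x = avg θ N₁ n f x + avg θ N₁ n g x := by
  induction n generalizing f g with
  | zero => rfl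
  | succ n ih =>
    simp only [avg]
    rw [← ih]
    congr 1
    funext y
    ring

lemma avg_smul (θ : ℝ) (N₁ n : ℕ) (c : ℝ) (f : ℝ → ℝ) (x : ℝ) :
    avg θ N₁ n (fun y => c * f y) x = c * avg θ N₁ n f x := by
  induction n generalizing f with
  | zero => rfl
  | succ n ih =>
    simp only [avg]
    rw [← ih]
    congr 1
    funext y
    ring

lemma avg_sub (θ : ℝ) (N₁ n : ℕ) (f g : ℝ → ℝ) (x : ℝ) :
    avg θ N₁ n (fun y => f y - g y) x = avg θ N₁ n f x - avg θ N₁ n g x := by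
  have h := avg_add θ N₁ n (fun y => f y - g y) g x
  have : (fun y => f y - g y + g y) = f := by funext y; ring
  rw [this] at h
  linarith

lemma avg_sum {ι : Type*} (θ : ℝ) (N₁ n : ℕ) (s : Finset ι) (f : ι → ℝ → ℝ) (x : ℝ) :
    avg θ N₁ n (fun y => ∑ i ∈ s, f i y) x = ∑ i ∈ s, avg θ N₁ n (f i) x := by
  classical
  induction s using Finset.induction_on with
  | empty => simp [avg_const]
  | insert a s ha ih =>
    rw [Finset.sum_insert ha, ← ih, ← avg_add]
    congr 1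
    funext y
    rw [Finset.sum_insert ha]

lemma avg_cos (θ : ℝ) (N₁ n : ℕ) (t x : ℝ) :
    avg θ N₁ n (fun y => Real.cos (2 * Real.pi * (t * y))) x
      = Phi θ N₁ (N₁ + n) t * Real.cos (2 * Real.pi * (t * x)) := by
  induction n with
  | zero => simp [avg, Phi]
  | succ n ih =>
    simp only [avg]
    have e : (fun y => 3 / 4 * Real.cos (2 * Real.pi * (t * y))
        + 1 / 8 * Real.cos (2 * Real.pi * (t * (y + 1 / θ ^ (N₁ + n + 1))))
        + 1 / 8 * Real.cos (2 * Real.pi * (t * (y - 1 / θ ^ (N₁ + n + 1)))))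
        = fun y => phi (t / θ ^ (N₁ + n + 1)) * Real.cos (2 * Real.pi * (t * y)) := by
      funext y
      have h1 : 2 * Real.pi * (t * (y + 1 / θ ^ (N₁ + n + 1)))
          = 2 * Real.pi * (t * y) + 2 * Real.pi * (t / θ ^ (N₁ + n + 1)) := by ring
      have h2 : 2 * Real.pi * (t * (y - 1 / θ ^ (N₁ + n + 1)))
          = 2 * Real.pi * (t * y) - 2 * Real.pi * (t / θ ^ (N₁ + n + 1)) := by ring
      rw [h1, h2, Real.cos_add, Real.cos_sub]
      unfold phi
      ring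
    rw [e, avg_smul, ih]
    unfold Phi
    rw [show N₁ + (n + 1) = (N₁ + n) + 1 by ring, Finset.prod_Ioc_succ_top (by omega)]
    ring

/-- There is a point of the support where `f` is at least its average. -/
lemma exists_ge_avg {θ : ℝ} (hθ : 1 < θ) (N₁ n : ℕ) (f : ℝ → ℝ) (x : ℝ) :
    ∃ y, |y - x| ≤ 1 / θ ^ N₁ / (θ - 1) ∧ avg θ N₁ n f x ≤ f y := by
  have hθ0 : 0 < θ := by linarith
  have key : ∃ y, |y - x| ≤ (1 / θ ^ N₁ - 1 / θ ^ (N₁ + n)) / (θ - 1) ∧ avg θ N₁ n f x ≤ f y := by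
    induction n generalizing f with
    | zero => exact ⟨x, by simp, le_refl _⟩
    | succ n ih =>
      simp only [avg]
      obtain ⟨y, hy1, hy2⟩ := ih (fun y => 3 / 4 * f y + 1 / 8 * f (y + 1 / θ ^ (N₁ + n + 1))
        + 1 / 8 * f (y - 1 / θ ^ (N₁ + n + 1)))
      set A := avg θ N₁ n (fun y => 3 / 4 * f y + 1 / 8 * f (y + 1 / θ ^ (N₁ + n + 1))
        + 1 / 8 * f (y - 1 / θ ^ (N₁ + n + 1))) x with hA
      have hstep : (1 / θ ^ N₁ - 1 / θ ^ (N₁ + n)) / (θ - 1) + 1 / θ ^ (N₁ + n + 1)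
          = (1 / θ ^ N₁ - 1 / θ ^ (N₁ + (n + 1))) / (θ - 1) := by
        have h1 : θ - 1 ≠ 0 := by linarith
        have h2 : θ ^ (N₁ + n) ≠ 0 := (pow_pos hθ0 _).ne'
        have h3 : θ ^ (N₁ + (n + 1)) = θ ^ (N₁ + n) * θ := by ring
        have h4 : θ ^ (N₁ + n + 1) = θ ^ (N₁ + n) * θ := by ring
        rw [h3, h4]
        field_simp
        ring
      have hpos : 0 < 1 / θ ^ (N₁ + n + 1) := by positivity
      rw [← hstep]
      by_cases c1 : A ≤ f y
      · exact ⟨y, by linarith, c1⟩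
      by_cases c2 : A ≤ f (y + 1 / θ ^ (N₁ + n + 1))
      · refine ⟨y + 1 / θ ^ (N₁ + n + 1), ?_, c2⟩
        have : y + 1 / θ ^ (N₁ + n + 1) - x = (y - x) + 1 / θ ^ (N₁ + n + 1) := by ring
        rw [this]
        refine (abs_add_le _ _).trans ?_
        rw [abs_of_pos hpos]
        linarith
      by_cases c3 : A ≤ f (y - 1 / θ ^ (N₁ + n + 1))
      · refine ⟨y - 1 / θ ^ (N₁ + n + 1), ?_, c3⟩
        have : y - 1 / θ ^ (N₁ + n + 1) - x = (y - x) - 1 / θ ^ (N₁ + n + 1) := by ring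
        rw [this]
        refine (abs_sub _ _).trans ?_
        rw [abs_of_pos hpos]
        linarith
      · exfalso
        push Not at c1 c2 c3
        linarith
  obtain ⟨y, hy1, hy2⟩ := key
  refine ⟨y, hy1.trans ?_, hy2⟩
  have h1 : 0 < θ - 1 := by linarith
  rw [div_le_div_iff_of_pos_right h1]
  have : 0 < 1 / θ ^ (N₁ + n) := by positivity
  linarith

/-- Squared norm of a trigonometric sum. -/
lemma norm_sq_sum_ee (s : Finset ℕ) (v : ℕ → ℝ) :
    ‖∑ m ∈ s, ee (v m)‖ ^ 2 = ∑ m ∈ s, ∑ n ∈ s, Real.cos (2 * Real.pi * (v m - v n)) := by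
  have hconj : ∀ x : ℝ, (starRingEnd ℂ) (ee x) = ee (-x) := by
    intro x
    rw [ee_eq, ee_eq, ← Complex.exp_conj]
    congr 1
    rw [map_mul, Complex.conj_ofReal, Complex.conj_I]
    push_cast
    ring
  have h1 : ((‖∑ m ∈ s, ee (v m)‖ ^ 2 : ℝ) : ℂ)
      = (∑ m ∈ s, ee (v m)) * (starRingEnd ℂ) (∑ m ∈ s, ee (v m)) := by
    rw [Complex.mul_conj, Complex.normSq_eq_norm_sq]
  have h2 : (∑ m ∈ s, ee (v m)) * (starRingEnd ℂ) (∑ m ∈ s, ee (v m))
      = ∑ m ∈ s, ∑ n ∈ s, ee (v m - v n) := by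
    rw [map_sum, Finset.sum_mul_sum]
    refine Finset.sum_congr rfl (fun m _ => Finset.sum_congr rfl (fun n _ => ?_))
    rw [hconj, ← ee_add, sub_eq_add_neg]
  have h3 : ‖∑ m ∈ s, ee (v m)‖ ^ 2 = (((‖∑ m ∈ s, ee (v m)‖ ^ 2 : ℝ) : ℂ)).re := by
    rw [Complex.ofReal_re]
  rw [h3, h1, h2, Complex.re_sum]
  refine Finset.sum_congr rfl (fun m _ => ?_)
  rw [Complex.re_sum]
  refine Finset.sum_congr rfl (fun n _ => ?_)
  rw [ee_re]

lemma avg_norm_sq_le (θ : ℝ) (N₁ n : ℕ) (α : ℝ) (h : ℤ) (s : Finset ℕ) (x : ℝ) :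
    avg θ N₁ n (fun y => ‖∑ m ∈ s, ee (h * (y * α ^ m))‖ ^ 2) x
      ≤ ∑ m ∈ s, ∑ k ∈ s, Phi θ N₁ (N₁ + n) (h * (α ^ m - α ^ k)) := by
  have e : (fun y => ‖∑ m ∈ s, ee (h * (y * α ^ m))‖ ^ 2)
      = fun y => ∑ m ∈ s, ∑ k ∈ s, Real.cos (2 * Real.pi * ((h * (α ^ m - α ^ k)) * y)) := by
    funext y
    rw [norm_sq_sum_ee]
    refine Finset.sum_congr rfl (fun m _ => Finset.sum_congr rfl (fun k _ => ?_))
    congr 2
    ring
  rw [e, avg_sum]
  refine Finset.sum_le_sum (fun m _ => ?_)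
  rw [avg_sum]
  refine Finset.sum_le_sum (fun k _ => ?_)
  rw [avg_cos]
  exact mul_le_of_le_one_right (Phi_nonneg _ _ _ _) (Real.cos_le_one _)

/-- phase -/
noncomputable def bb (θ α : ℝ) (h : ℤ) (d : ℕ) : ℝ :=
  (Real.log |(h:ℝ)| + Real.log |1 - (α⁻¹) ^ d|) / Real.log θ

lemma abs_one_sub_ge {α : ℝ} (hα : 1 < |α|) {d : ℕ} (hd : 1 ≤ d) :
    1 - |α|⁻¹ ≤ |1 - (α⁻¹) ^ d| ∧ |1 - (α⁻¹) ^ d| ≤ 2 := by
  have h0 : 0 < |α| := by linarith
  have h1 : |α|⁻¹ < 1 := inv_lt_one_of_one_lt₀ hα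
  have h2 : 0 ≤ |α|⁻¹ := by positivity
  have h3 : |(α⁻¹) ^ d| ≤ |α|⁻¹ := by
    rw [abs_pow, abs_inv]
    exact pow_le_of_le_one h2 h1.le (by omega)
  constructor
  · have := abs_sub_abs_le_abs_sub 1 ((α⁻¹) ^ d)
    rw [abs_one] at this
    linarith
  · refine (abs_sub _ _).trans ?_
    rw [abs_one]; linarith

lemma abs_diff_eq_rpow {θ α : ℝ} (hθ : 1 < θ) (hα : 1 < |α|) {h : ℤ} (hh : h ≠ 0) {m k : ℕ}
    (hk : k < m) :
    |h * (α ^ m - α ^ k)| = θ ^ ((Real.log |α| / Real.log θ) * m + bb θ α h (m - k)) := by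
  have hθ0 : 0 < θ := by linarith
  have hlog : 0 < Real.log θ := Real.log_pos hθ
  have hα0 : 0 < |α| := by linarith
  have hα1 : α ≠ 0 := abs_pos.mp hα0
  have h1 : α ^ m - α ^ k = α ^ m * (1 - (α⁻¹) ^ (m - k)) := by
    rw [mul_sub, mul_one, inv_pow]
    congr 1
    rw [eq_mul_inv_iff_mul_eq₀ (pow_ne_zero _ hα1), ← pow_add]
    congr 1
    omega
  have h2 := (abs_one_sub_ge hα (d := m - k) (by omega)).1
  have h3 : |α|⁻¹ < 1 := inv_lt_one_of_one_lt₀ hα
  have h4 : 0 < |1 - (α⁻¹) ^ (m - k)| := by linarith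
  have h5 : 0 < |(h:ℝ)| := abs_pos.mpr (by exact_mod_cast hh)
  rw [Real.rpow_def_of_pos hθ0]
  have h6 : Real.log θ * ((Real.log |α| / Real.log θ) * m + bb θ α h (m - k))
      = m * Real.log |α| + (Real.log |(h:ℝ)| + Real.log |1 - (α⁻¹) ^ (m - k)|) := by
    unfold bb
    field_simp
  rw [h6, Real.exp_add, Real.exp_add, Real.exp_log h5, Real.exp_log h4, Real.exp_nat_mul,
    Real.exp_log hα0, h1, abs_mul, abs_mul, abs_pow]
  ring

lemma bb_bounds {θ α : ℝ} (hθ : 1 < θ) (hα : 1 < |α|) {h : ℤ} (hh : h ≠ 0) {d : ℕ} (hd : 1 ≤ d) :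
    Real.log (1 - |α|⁻¹) / Real.log θ ≤ bb θ α h d ∧
      bb θ α h d ≤ (Real.log |(h:ℝ)| + Real.log 2) / Real.log θ := by
  have hlog : 0 < Real.log θ := Real.log_pos hθ
  obtain ⟨h1, h2⟩ := abs_one_sub_ge hα hd
  have h3 : |α|⁻¹ < 1 := inv_lt_one_of_one_lt₀ hα
  have h4 : 0 < |1 - (α⁻¹) ^ d| := by linarith
  have h5 : 1 ≤ |(h:ℝ)| := by exact_mod_cast Int.one_le_abs hh
  have h6 : 0 ≤ Real.log |(h:ℝ)| := Real.log_nonneg h5
  unfold bb
  constructor
  · rw [div_le_div_iff_of_pos_right hlog]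
    have := Real.log_le_log (by linarith) h1
    linarith
  · rw [div_le_div_iff_of_pos_right hlog]
    have := Real.log_le_log h4 h2
    linarith

/-- Second moment bound: pairs sum. -/
theorem exists_pairs_bound {θ α : ℝ} (hθ : 1 < θ) (hα : 1 < |α|)
    (hirr : Irrational (Real.log |α| / Real.log θ)) {h : ℤ} (hh : h ≠ 0) {η : ℝ} (hη : 0 < η)
    (κ : ℝ) :
    ∃ C : ℝ, 0 ≤ C ∧ ∀ N₁ N₂ m₁ m₂ : ℕ, m₁ ≤ m₂ →
      (N₁ : ℝ) ≤ (Real.log |α| / Real.log θ) * m₁ + κ →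
      (Real.log |α| / Real.log θ) * m₂ ≤ N₂ + κ →
      ∑ m ∈ Finset.Ico m₁ m₂, ∑ k ∈ Finset.Ico m₁ m₂, Phi θ N₁ N₂ (h * (α ^ m - α ^ k))
        ≤ η * ((m₂ - m₁ : ℕ) : ℝ) ^ 2 + C * ((m₂ - m₁ : ℕ) : ℝ) := by
  set a := Real.log |α| / Real.log θ with ha
  have hlogθ : 0 < Real.log θ := Real.log_pos hθ
  have hlogα : 0 < Real.log |α| := Real.log_pos hα
  have ha0 : 0 < a := div_pos hlogα hlogθ
  obtain ⟨I, hI⟩ := exists_integral_PP_le hθ (η := η / 4) (by positivity)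
  obtain ⟨n0, hn0⟩ := rotation_uniform hirr (PP θ I) (continuous_PP hθ I).continuousOn
    (PP_zero_eq_one θ I) (η := η / 4) (by positivity)
  set bm := Real.log (1 - |α|⁻¹) / Real.log θ with hbm
  set bp := (Real.log |(h:ℝ)| + Real.log 2) / Real.log θ with hbp
  -- boundary size
  obtain ⟨B, hB⟩ := exists_nat_gt (max ((I + 1 + κ - bm) / a) ((bp + κ) / a))
  have hB1 : I + 1 + κ - bm ≤ a * B := by
    have := (le_max_left _ _).trans hB.le
    rw [div_le_iff₀ ha0] at this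
    linarith
  have hB2 : bp + κ ≤ a * B := by
    have := (le_max_right _ _).trans hB.le
    rw [div_le_iff₀ ha0] at this
    linarith
  refine ⟨1 + 2 * n0 + 4 * B, by positivity, ?_⟩
  intro N₁ N₂ m₁ m₂ hm hN₁ hN₂
  set L := m₂ - m₁ with hL
  have hcard : (Finset.Ico m₁ m₂).card = L := by rw [Nat.card_Ico]
  -- uniform rotation bound for all lengths
  have hrot : ∀ b : ℝ, ∑ m ∈ Finset.Ico m₁ m₂, PP θ I (Int.fract (a * m + b))
      ≤ L * (η / 2) + n0 := by
    intro b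
    have e1 : ∑ m ∈ Finset.Ico m₁ m₂, PP θ I (Int.fract (a * m + b))
        = ∑ m ∈ Finset.range L, PP θ I (Int.fract (a * m + (a * m₁ + b))) := by
      rw [Finset.sum_Ico_eq_sum_range]
      refine Finset.sum_congr rfl (fun m _ => ?_)
      congr 2
      push_cast
      ring
    rw [e1]
    by_cases hLn : n0 ≤ L
    · have := hn0 L hLn (a * m₁ + b)
      have h2 : (L:ℝ) * ((∫ x in (0:ℝ)..1, PP θ I x) + η / 4) ≤ L * (η / 2) := by
        apply mul_le_mul_of_nonneg_left _ (Nat.cast_nonneg _)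
        linarith
      have h3 : (0:ℝ) ≤ n0 := Nat.cast_nonneg _
      linarith
    · push Not at hLn
      have h1 : ∑ m ∈ Finset.range L, PP θ I (Int.fract (a * m + (a * m₁ + b)))
          ≤ ∑ m ∈ Finset.range L, (1:ℝ) :=
        Finset.sum_le_sum (fun m _ => PP_le_one θ I (Int.fract_nonneg _) (Int.fract_lt_one _).le)
      have h2 : ∑ m ∈ Finset.range L, (1:ℝ) = L := by simp
      have h3 : (L:ℝ) ≤ n0 := by exact_mod_cast hLn.le
      have h4 : 0 ≤ (L:ℝ) * (η / 2) := by positivity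
      linarith
  -- one-sided pair bound
  have hpair : ∀ m ∈ Finset.Ico m₁ m₂, ∀ k ∈ Finset.Ico m₁ m,
      Phi θ N₁ N₂ (h * (α ^ m - α ^ k)) ≤ PP θ I (Int.fract (a * m + bb θ α h (m - k)))
        + ((if m < m₁ + B then 1 else 0) + (if m₂ ≤ m + B then 1 else 0)) := by
    intro m hm k hk
    rw [Finset.mem_Ico] at hm hk
    have hPP := PP_nonneg θ I (Int.fract_nonneg (a * m + bb θ α h (m - k)))
      (Int.fract_lt_one (a * m + bb θ α h (m - k))).le
    by_cases c1 : m < m₁ + B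
    · rw [if_pos c1]
      have := Phi_le_one θ N₁ N₂ (h * (α ^ m - α ^ k))
      split_ifs <;> linarith
    by_cases c2 : m₂ ≤ m + B
    · rw [if_pos c2, if_neg c1]
      have := Phi_le_one θ N₁ N₂ (h * (α ^ m - α ^ k))
      linarith
    rw [if_neg c1, if_neg c2]
    push Not at c1 c2
    obtain ⟨b1, b2⟩ := bb_bounds hθ hα hh (d := m - k) (by omega)
    have c1' : (m₁ : ℝ) + B ≤ m := by exact_mod_cast c1
    have c2' : (m : ℝ) + B ≤ m₂ := by exact_mod_cast c2.le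
    have := Phi_le_PP hθ (N₁ := N₁) (N₂ := N₂) (I := I) (abs_diff_eq_rpow hθ hα hh hk.2)
      (by
        rw [← ha]
        have : a * (m₁ + B) ≤ a * m := mul_le_mul_of_nonneg_left c1' ha0.le
        rw [mul_add] at this
        linarith)
      (by
        rw [← ha]
        have : a * (m + B) ≤ a * m₂ := mul_le_mul_of_nonneg_left c2' ha0.le
        rw [mul_add] at this
        linarith)
    rw [← ha] at this
    linarith
  -- lower-triangular sum
  have hlow : ∑ m ∈ Finset.Ico m₁ m₂, ∑ k ∈ Finset.Ico m₁ m, Phi θ N₁ N₂ (h * (α ^ m - α ^ k))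
      ≤ L * (L * (η / 2) + n0) + 2 * B * L := by
    have s1 : ∑ m ∈ Finset.Ico m₁ m₂, ∑ k ∈ Finset.Ico m₁ m, Phi θ N₁ N₂ (h * (α ^ m - α ^ k))
        ≤ ∑ m ∈ Finset.Ico m₁ m₂, (∑ d ∈ Finset.range L, PP θ I (Int.fract (a * m + bb θ α h d))
          + L * ((if m < m₁ + B then 1 else 0) + (if m₂ ≤ m + B then 1 else 0))) := by
      refine Finset.sum_le_sum (fun m hm => ?_)
      have hm' := Finset.mem_Ico.mp hm
      calc ∑ k ∈ Finset.Ico m₁ m, Phi θ N₁ N₂ (h * (α ^ m - α ^ k))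
          ≤ ∑ k ∈ Finset.Ico m₁ m, (PP θ I (Int.fract (a * m + bb θ α h (m - k)))
          + ((if m < m₁ + B then 1 else 0) + (if m₂ ≤ m + B then 1 else 0))) :=
            Finset.sum_le_sum (fun k hk => hpair m hm k hk)
        _ = ∑ k ∈ Finset.Ico m₁ m, PP θ I (Int.fract (a * m + bb θ α h (m - k)))
            + (m - m₁ : ℕ) * ((if m < m₁ + B then 1 else 0) + (if m₂ ≤ m + B then 1 else 0)) := by
            rw [Finset.sum_add_distrib, Finset.sum_const, Nat.card_Ico, nsmul_eq_mul]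
        _ ≤ ∑ d ∈ Finset.range L, PP θ I (Int.fract (a * m + bb θ α h d))
          + L * ((if m < m₁ + B then 1 else 0) + (if m₂ ≤ m + B then 1 else 0)) := by
            apply add_le_add
            · have e1 := Finset.sum_Ico_reflect
                (fun d => PP θ I (Int.fract (a * m + bb θ α h d))) m₁ (m := m) (n := m) (by omega)
              rw [e1]
              refine Finset.sum_le_sum_of_subset_of_nonneg ?_ (fun d _ _ =>
                PP_nonneg θ I (Int.fract_nonneg _) (Int.fract_lt_one _).le)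
              intro d hd
              rw [Finset.mem_Ico] at hd
              rw [Finset.mem_range]
              omega
            · apply mul_le_mul_of_nonneg_right
              · exact_mod_cast (by omega : m - m₁ ≤ L)
              · split_ifs <;> norm_num
    refine s1.trans ?_
    rw [Finset.sum_add_distrib, Finset.sum_comm, ← Finset.mul_sum, Finset.sum_add_distrib]
    have s2 : ∑ d ∈ Finset.range L, ∑ m ∈ Finset.Ico m₁ m₂,
        PP θ I (Int.fract (a * m + bb θ α h d)) ≤ L * (L * (η / 2) + n0) := by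
      refine (Finset.sum_le_sum (fun d _ => hrot (bb θ α h d))).trans (le_of_eq ?_)
      rw [Finset.sum_const, Finset.card_range, nsmul_eq_mul]
    have s3 : ∑ m ∈ Finset.Ico m₁ m₂, (if m < m₁ + B then (1:ℝ) else 0) ≤ B := by
      rw [← Finset.sum_filter, Finset.sum_const, nsmul_eq_mul, mul_one]
      have : (Finset.filter (fun m => m < m₁ + B) (Finset.Ico m₁ m₂)) ⊆
          Finset.Ico m₁ (m₁ + B) := by
        intro m hm
        rw [Finset.mem_filter, Finset.mem_Ico] at hm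
        rw [Finset.mem_Ico]
        omega
      have := Finset.card_le_card this
      rw [Nat.card_Ico] at this
      have h2 : m₁ + B - m₁ = B := by omega
      rw [h2] at this
      exact_mod_cast this
    have s4 : ∑ m ∈ Finset.Ico m₁ m₂, (if m₂ ≤ m + B then (1:ℝ) else 0) ≤ B := by
      rw [← Finset.sum_filter, Finset.sum_const, nsmul_eq_mul, mul_one]
      have : (Finset.filter (fun m => m₂ ≤ m + B) (Finset.Ico m₁ m₂)) ⊆
          Finset.Ico (m₂ - B) m₂ := by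
        intro m hm
        rw [Finset.mem_filter, Finset.mem_Ico] at hm
        rw [Finset.mem_Ico]
        omega
      have := Finset.card_le_card this
      rw [Nat.card_Ico] at this
      have h2 : m₂ - (m₂ - B) ≤ B := by omega
      exact_mod_cast this.trans h2
    have s5 : (L:ℝ) * (∑ m ∈ Finset.Ico m₁ m₂, (if m < m₁ + B then (1:ℝ) else 0)
        + ∑ m ∈ Finset.Ico m₁ m₂, (if m₂ ≤ m + B then (1:ℝ) else 0)) ≤ L * (B + B) :=
      mul_le_mul_of_nonneg_left (add_le_add s3 s4) (Nat.cast_nonneg _)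
    linarith
  -- full sum
  have hfull : ∀ m ∈ Finset.Ico m₁ m₂, ∀ k ∈ Finset.Ico m₁ m₂,
      Phi θ N₁ N₂ (h * (α ^ m - α ^ k)) ≤ (if m = k then 1 else 0)
        + (if k < m then Phi θ N₁ N₂ (h * (α ^ m - α ^ k)) else 0)
        + (if m < k then Phi θ N₁ N₂ (h * (α ^ k - α ^ m)) else 0) := by
    intro m _ k _
    rcases lt_trichotomy m k with c | c | c
    · have e : Phi θ N₁ N₂ (h * (α ^ m - α ^ k)) = Phi θ N₁ N₂ (h * (α ^ k - α ^ m)) := by
        unfold Phi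
        refine Finset.prod_congr rfl (fun j _ => ?_)
        rw [← phi_neg]
        congr 1
        ring
      have c' : ¬ (k < m) := by omega
      have c'' : m ≠ k := by omega
      simp [c, c', c'', e]
    · subst c
      simp [Phi_le_one]
    · have c' : ¬ (m < k) := by omega
      have c'' : m ≠ k := by omega
      simp [c, c', c'']
  have hsplit : ∀ m ∈ Finset.Ico m₁ m₂,
      ∑ k ∈ Finset.Ico m₁ m₂, (if k < m then Phi θ N₁ N₂ (h * (α ^ m - α ^ k)) else 0)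
      = ∑ k ∈ Finset.Ico m₁ m, Phi θ N₁ N₂ (h * (α ^ m - α ^ k)) := by
    intro m hm
    rw [Finset.mem_Ico] at hm
    rw [← Finset.sum_filter]
    congr 1
    ext k
    simp only [Finset.mem_filter, Finset.mem_Ico]
    omega
  have hA : ∑ m ∈ Finset.Ico m₁ m₂, ∑ k ∈ Finset.Ico m₁ m₂,
      (if m = k then (1:ℝ) else 0) = L := by
    have : ∀ m ∈ Finset.Ico m₁ m₂, ∑ k ∈ Finset.Ico m₁ m₂, (if m = k then (1:ℝ) else 0) = 1 := by
      intro m hm
      rw [Finset.sum_ite_eq, if_pos hm]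
    rw [Finset.sum_congr rfl this]
    simp [hL]
  have hB' : ∑ m ∈ Finset.Ico m₁ m₂, ∑ k ∈ Finset.Ico m₁ m₂,
      (if k < m then Phi θ N₁ N₂ (h * (α ^ m - α ^ k)) else 0)
      ≤ L * (L * (η / 2) + n0) + 2 * B * L := by
    rw [Finset.sum_congr rfl hsplit]
    exact hlow
  have hC' : ∑ m ∈ Finset.Ico m₁ m₂, ∑ k ∈ Finset.Ico m₁ m₂,
      (if m < k then Phi θ N₁ N₂ (h * (α ^ k - α ^ m)) else 0)
      ≤ L * (L * (η / 2) + n0) + 2 * B * L := by
    rw [Finset.sum_comm]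
    exact hB'
  calc ∑ m ∈ Finset.Ico m₁ m₂, ∑ k ∈ Finset.Ico m₁ m₂, Phi θ N₁ N₂ (h * (α ^ m - α ^ k))
      ≤ ∑ m ∈ Finset.Ico m₁ m₂, ∑ k ∈ Finset.Ico m₁ m₂, ((if m = k then 1 else 0)
        + (if k < m then Phi θ N₁ N₂ (h * (α ^ m - α ^ k)) else 0)
        + (if m < k then Phi θ N₁ N₂ (h * (α ^ k - α ^ m)) else 0)) :=
        Finset.sum_le_sum (fun m hm => Finset.sum_le_sum (fun k hk => hfull m hm k hk))
    _ = ∑ m ∈ Finset.Ico m₁ m₂, ∑ k ∈ Finset.Ico m₁ m₂, (if m = k then (1:ℝ) else 0)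
        + ∑ m ∈ Finset.Ico m₁ m₂, ∑ k ∈ Finset.Ico m₁ m₂,
          (if k < m then Phi θ N₁ N₂ (h * (α ^ m - α ^ k)) else 0)
        + ∑ m ∈ Finset.Ico m₁ m₂, ∑ k ∈ Finset.Ico m₁ m₂,
          (if m < k then Phi θ N₁ N₂ (h * (α ^ k - α ^ m)) else 0) := by
        simp only [Finset.sum_add_distrib]
    _ ≤ L + (L * (L * (η / 2) + n0) + 2 * B * L) + (L * (L * (η / 2) + n0) + 2 * B * L) :=
        add_le_add (add_le_add hA.le hB') hC'
    _ = η * (L:ℝ) ^ 2 + (1 + 2 * n0 + 4 * B) * L := by ring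

end Pool.Agent.PisotNormal
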