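import Pool.Agent.PisotNormal.Defs

/-!
Finite levels of the boldface Borel hierarchy, completeness, and reductions of `Π⁰₃` and `Σ⁰₄`
subsets of zero-dimensional Polish spaces to canonical sets.
-/

set_option autoImplicit false

namespace Pool.Agent.PisotNormal

open Filter Topology TopologicalSpace

section General

variable {X : Type*} [TopologicalSpace X]

lemma isSigma_iUnion_countable {ι : Type*} [Countable ι] [Nonempty ι] {n : ℕ} (F : ι → Set X)
    (hF : ∀ i, IsSigma n (F i)ᶜ) : IsSigma (n + 1) (⋃ i, F i) := by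
  obtain ⟨e, he⟩ := exists_surjective_nat ι
  have h : (⋃ i, F i) = ⋃ k : ℕ, F (e k) := by
    rw [he.iUnion_comp]
  rw [h]
  exact IsSigma.iUnion (fun k => F (e k)) (fun _ => n) (fun _ => le_refl _) (fun k => hF _)

lemma IsSigma.pos {n : ℕ} {A : Set X} (h : IsSigma n A) : 1 ≤ n := by
  cases h with
  | of_isOpen _ => exact le_refl _
  | iUnion F m hm hF => omega

lemma IsSigma.isOpen {A : Set X} (h : IsSigma 1 A) : IsOpen A := by
  generalize hn : 1 = n at h
  cases h with
  | of_isOpen hA => exact hA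
  | iUnion F m hm hF =>
    exfalso
    have h1 := (hF 0).pos
    have h2 := hm 0
    omega

lemma IsSigma.exists_iUnion {n : ℕ} {A : Set X} (h : IsSigma (n + 2) A) :
    ∃ (F : ℕ → Set X) (m : ℕ → ℕ), (∀ i, m i ≤ n + 1) ∧ (∀ i, IsSigma (m i) (F i)ᶜ) ∧
      A = ⋃ i, F i := by
  generalize hn : n + 2 = k at h
  cases h with
  | of_isOpen hA => omega
  | iUnion F m hm hF =>
    exact ⟨F, m, fun i => by have := hm i; omega, hF, rfl⟩

end General

section ZeroDim

variable {Y : Type*} [TopologicalSpace Y] [SecondCountableTopology Y]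

lemma exists_clopen_union (hY : IsTopologicalBasis {s : Set Y | IsClopen s}) {A : Set Y}
    (hA : IsOpen A) : ∃ G : ℕ → Set Y, (∀ i, IsClopen (G i)) ∧ A = ⋃ i, G i := by
  obtain ⟨S, hS1, hS2⟩ := hY.open_eq_sUnion hA
  obtain ⟨T, hT1, hT2, hT3⟩ := isOpen_sUnion_countable S (fun s hs => (hS1 hs).isOpen)
  by_cases hne : T.Nonempty
  · obtain ⟨f, hf⟩ := hT1.exists_eq_range hne
    refine ⟨f, fun i => hS1 (hT2 (by rw [hf]; exact Set.mem_range_self i)), ?_⟩
    rw [hS2, ← hT3, hf, Set.sUnion_range]
  · rw [Set.not_nonempty_iff_eq_empty] at hne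
    refine ⟨fun _ => ∅, fun _ => isClopen_empty, ?_⟩
    rw [hS2, ← hT3, hne]
    simp

lemma exists_clopen_inter (hY : IsTopologicalBasis {s : Set Y | IsClopen s}) {A : Set Y}
    (hA : IsClosed A) : ∃ C : ℕ → Set Y, (∀ i, IsClopen (C i)) ∧ Antitone C ∧ A = ⋂ i, C i := by
  obtain ⟨G, hG1, hG2⟩ := exists_clopen_union hY hA.isOpen_compl
  refine ⟨fun l => ⋂ i ∈ Finset.range (l + 1), (G i)ᶜ, ?_, ?_, ?_⟩
  · intro l
    exact Set.Finite.isClopen_biInter (Finset.finite_toSet _) (fun i _ => (hG1 i).compl)
  · intro l l' hl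
    apply Set.biInter_subset_biInter_left
    intro i hi
    simp only [Finset.coe_range, Set.mem_Iio] at *
    omega
  · ext y
    have h1 : y ∈ A ↔ ∀ i, y ∉ G i := by
      rw [← not_iff_not]
      have : y ∉ A ↔ y ∈ Aᶜ := Iff.rfl
      rw [this, hG2]
      simp
    rw [h1]
    simp only [Set.mem_iInter, Finset.mem_range, Set.mem_compl_iff]
    constructor
    · intro h l i _
      exact h i
    · intro h i
      exact h i i (by omega)

lemma IsSigma.succ (hY : IsTopologicalBasis {s : Set Y | IsClopen s}) {n : ℕ} {A : Set Y}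
    (h : IsSigma n A) : IsSigma (n + 1) A := by
  cases h with
  | of_isOpen hA =>
    obtain ⟨G, hG1, hG2⟩ := exists_clopen_union hY hA
    rw [hG2]
    exact IsSigma.iUnion G (fun _ => 1) (fun _ => le_refl _)
      (fun i => IsSigma.of_isOpen (hG1 i).compl.isOpen)
  | iUnion F m hm hF =>
    exact IsSigma.iUnion F m (fun i => (hm i).trans (Nat.le_succ _)) hF

lemma IsSigma.mono (hY : IsTopologicalBasis {s : Set Y | IsClopen s}) {n m : ℕ} (hnm : n ≤ m)
    {A : Set Y} (h : IsSigma n A) : IsSigma m A := by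
  induction m, hnm using Nat.le_induction with
  | base => exact h
  | succ m _ ih => exact ih.succ hY

/-- The mind-change function of an increasing search through the closed sets `⋂ l, C m l`. -/
lemma exists_mindchange (hY : IsTopologicalBasis {s : Set Y | IsClopen s}) {A : Set Y}
    (hA : IsSigma 2 A) : ∃ g : ℕ → Y → ℕ, (∀ l, IsLocallyConstant (g l)) ∧
      (∀ y ∈ A, ∃ m, ∀ᶠ l in atTop, g l y = m) ∧
      (∀ y ∉ A, Tendsto (fun l => g l y) atTop atTop) := by
  classical
  obtain ⟨F, m, hm, hF, hA2⟩ := hA.exists_iUnion (n := 0)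
  have hFc : ∀ i, IsClosed (F i) := by
    intro i
    have h1 := (hF i).mono hY (hm i)
    exact isOpen_compl_iff.mp h1.isOpen
  have hC : ∀ i, ∃ C : ℕ → Set Y, (∀ l, IsClopen (C l)) ∧ Antitone C ∧ F i = ⋂ l, C l :=
    fun i => exists_clopen_inter hY (hFc i)
  choose C hC1 hC2 hC3 using hC
  have hex : ∀ (l : ℕ) (y : Y), ∃ i, i = l ∨ y ∈ C i l := fun l y => ⟨l, Or.inl rfl⟩
  refine ⟨fun l y => Nat.find (hex l y), ?_, ?_, ?_⟩
  · intro l
    rw [IsLocallyConstant.iff_eventually_eq]
    intro y
    -- membership in the finitely many clopen sets `C i l`, `i ≤ l`, is locally constant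
    have h1 : ∀ᶠ y' in 𝓝 y, ∀ i ∈ Finset.range (l + 1), (y' ∈ C i l ↔ y ∈ C i l) := by
      rw [Filter.eventually_all_finset]
      intro i _
      by_cases hy : y ∈ C i l
      · filter_upwards [(hC1 i l).isOpen.mem_nhds hy] with y' hy'
        exact ⟨fun _ => hy, fun _ => hy'⟩
      · filter_upwards [(hC1 i l).compl.isOpen.mem_nhds hy] with y' hy'
        exact ⟨fun h => absurd h hy', fun h => absurd h hy⟩
    filter_upwards [h1] with y' hy'
    have hle : ∀ z, Nat.find (hex l z) ≤ l := fun z => Nat.find_min' _ (Or.inl rfl)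
    apply le_antisymm
    · apply Nat.find_min'
      rcases Nat.find_spec (hex l y) with h | h
      · exact Or.inl h
      · exact Or.inr ((hy' _ (Finset.mem_range.mpr (Nat.lt_succ_of_le (hle y)))).mpr h)
    · apply Nat.find_min'
      rcases Nat.find_spec (hex l y') with h | h
      · exact Or.inl h
      · exact Or.inr ((hy' _ (Finset.mem_range.mpr (Nat.lt_succ_of_le (hle y')))).mp h)
  · intro y hy
    have hex2 : ∃ i, y ∈ F i := by
      rw [hA2] at hy; exact Set.mem_iUnion.mp hy
    set i₀ := Nat.find hex2 with hi₀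
    have hi₀spec : y ∈ F i₀ := Nat.find_spec hex2
    have hi₀min : ∀ i, i < i₀ → y ∉ F i := fun i hi => Nat.find_min hex2 hi
    refine ⟨i₀, ?_⟩
    have h1 : ∀ᶠ l in atTop, ∀ i ∈ Finset.range i₀, y ∉ C i l := by
      rw [Filter.eventually_all_finset]
      intro i hi
      have h2 := hi₀min i (Finset.mem_range.mp hi)
      rw [hC3 i, Set.mem_iInter] at h2
      push Not at h2
      obtain ⟨l₀, hl₀⟩ := h2
      filter_upwards [eventually_ge_atTop l₀] with l hl hc
      exact hl₀ (hC2 i hl hc)
    filter_upwards [h1, eventually_ge_atTop i₀] with l hl hl2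
    apply le_antisymm
    · apply Nat.find_min'
      right
      rw [hC3 i₀, Set.mem_iInter] at hi₀spec
      exact hi₀spec l
    · by_contra hcon
      push Not at hcon
      rcases Nat.find_spec (hex l y) with h | h
      · omega
      · exact hl _ (Finset.mem_range.mpr hcon) h
  · intro y hy
    rw [tendsto_atTop]
    intro b
    have h1 : ∀ᶠ l in atTop, ∀ i ∈ Finset.range b, y ∉ C i l := by
      rw [Filter.eventually_all_finset]
      intro i hi
      have h2 : y ∉ F i := by
        intro h; apply hy; rw [hA2]; exact Set.mem_iUnion.mpr ⟨i, h⟩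
      rw [hC3 i, Set.mem_iInter] at h2
      push Not at h2
      obtain ⟨l₀, hl₀⟩ := h2
      filter_upwards [eventually_ge_atTop l₀] with l hl hc
      exact hl₀ (hC2 i hl hc)
    filter_upwards [h1, eventually_ge_atTop b] with l hl hl2
    by_contra hcon
    push Not at hcon
    rcases Nat.find_spec (hex l y) with h | h
    · omega
    · exact hl _ (Finset.mem_range.mpr hcon) h

/-- Reduction of `Π⁰₃` sets to the set of sequences tending to infinity. -/
theorem exists_reduction_pi3 (hY : IsTopologicalBasis {s : Set Y | IsClopen s}) {B : Set Y}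
    (hB : IsPi 3 B) : ∃ β : Y → (ℕ → ℕ), Continuous β ∧
      ∀ y, y ∈ B ↔ Tendsto (β y) atTop atTop := by
  classical
  obtain ⟨F, m, hm, hF, hB2⟩ := IsSigma.exists_iUnion (n := 1) hB
  have hF2 : ∀ i, IsSigma 2 (F i)ᶜ := fun i => (hF i).mono hY (hm i)
  choose g hg1 hg2 hg3 using fun i => exists_mindchange hY (hF2 i)
  refine ⟨fun y s => if g (Nat.unpair s).1 ((Nat.unpair s).2 + 1) y
      ≠ g (Nat.unpair s).1 (Nat.unpair s).2 y then (Nat.unpair s).1 else s, ?_, ?_⟩
  · rw [continuous_pi_iff]
    intro s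
    have h1 := (hg1 (Nat.unpair s).1 ((Nat.unpair s).2 + 1)).prodMk
      (hg1 (Nat.unpair s).1 (Nat.unpair s).2)
    exact (h1.comp (fun q : ℕ × ℕ => if q.1 ≠ q.2 then (Nat.unpair s).1 else s)).continuous
  · intro y
    have hmem : y ∈ B ↔ ∀ i, y ∈ (F i)ᶜ := by
      have h1 : y ∈ B ↔ ¬ y ∈ Bᶜ := by simp
      rw [h1, hB2]
      simp
    rw [hmem]
    constructor
    · intro hy
      rw [tendsto_atTop]
      intro b
      -- finitely many changes for each index
      have h1 : ∀ i, ∃ L, ∀ l, L ≤ l → g i (l + 1) y = g i l y := by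
        intro i
        obtain ⟨v, hv⟩ := hg2 i y (hy i)
        obtain ⟨L, hL⟩ := Filter.eventually_atTop.mp hv
        exact ⟨L, fun l hl => by rw [hL l hl, hL (l + 1) (by omega)]⟩
      choose L hL using h1
      have h2 : ∀ᶠ s in atTop, ∀ i ∈ Finset.range b, ∀ l ∈ Finset.range (L i),
          s ≠ Nat.pair i l := by
        rw [Filter.eventually_all_finset]
        intro i _
        rw [Filter.eventually_all_finset]
        intro l _
        filter_upwards [eventually_gt_atTop (Nat.pair i l)] with s hs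
        omega
      filter_upwards [h2, eventually_ge_atTop b] with s hs hsb
      split_ifs with hc
      · by_contra hcon
        push Not at hcon
        have h3 : (Nat.unpair s).2 < L (Nat.unpair s).1 := by
          by_contra h4
          push Not at h4
          exact hc (hL _ _ h4)
        exact hs _ (Finset.mem_range.mpr hcon) _ (Finset.mem_range.mpr h3)
          (Nat.pair_unpair s).symm
      · exact hsb
    · intro hlim i
      by_contra hy
      have h1 := hg3 i y hy
      have h2 := (tendsto_atTop.mp hlim (i + 1))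
      obtain ⟨s₀, hs₀⟩ := Filter.eventually_atTop.mp h2
      -- for all large l there is no change, contradiction
      have h3 : ∀ l, s₀ ≤ l → g i (l + 1) y = g i l y := by
        intro l hl
        have h4 := hs₀ (Nat.pair i l) (hl.trans (Nat.right_le_pair i l))
        by_contra hne
        simp only [Nat.unpair_pair] at h4
        rw [if_pos hne] at h4
        omega
      have h5 : ∀ l, s₀ ≤ l → g i l y = g i s₀ y := by
        intro l hl
        induction l, hl using Nat.le_induction with
        | base => rfl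
        | succ l hl ih => rw [h3 l hl, ih]
      obtain ⟨l, hl1, hl2⟩ := ((tendsto_atTop.mp h1 (g i s₀ y + 1)).and
        (eventually_ge_atTop s₀)).exists
      rw [h5 l hl2] at hl1
      omega

/-- Reduction of `Σ⁰₄` sets. -/
theorem exists_reduction_sigma4 (hY : IsTopologicalBasis {s : Set Y | IsClopen s}) {B : Set Y}
    (hB : IsSigma 4 B) : ∃ β : Y → (ℕ → ℕ → ℕ), Continuous β ∧
      ∀ y, y ∈ B ↔ ∃ n, Tendsto (β y n) atTop atTop := by
  obtain ⟨F, m, hm, hF, hB2⟩ := hB.exists_iUnion (n := 2)
  have hF3 : ∀ i, IsPi 3 (F i) := fun i => (hF i).mono hY (hm i)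
  choose β hβ1 hβ2 using fun i => exists_reduction_pi3 hY (hF3 i)
  refine ⟨fun y n => β n y, continuous_pi (fun n => hβ1 n), ?_⟩
  intro y
  rw [hB2, Set.mem_iUnion]
  exact exists_congr (fun n => hβ2 n y)

end ZeroDim

end Pool.Agent.PisotNormal
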