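import Pool.Agent.PisotNormal.Weyl

/-!
The characteristic function `phi` of one random digit and decay of products of it along
geometric progressions.
-/

set_option autoImplicit false

namespace Pool.Agent.PisotNormal

open Filter Topology MeasureTheory

/-- Characteristic function of the digit distribution: `0` with weight `3/4`, `±1` with weight
`1/8` each. -/
noncomputable def phi (t : ℝ) : ℝ := 3 / 4 + Real.cos (2 * Real.pi * t) / 4

lemma phi_le_one (t : ℝ) : phi t ≤ 1 := by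
  unfold phi; linarith [Real.cos_le_one (2 * Real.pi * t)]

lemma phi_ge_half (t : ℝ) : 1 / 2 ≤ phi t := by
  unfold phi; linarith [Real.neg_one_le_cos (2 * Real.pi * t)]

lemma phi_pos (t : ℝ) : 0 < phi t := by linarith [phi_ge_half t]

lemma phi_nonneg (t : ℝ) : 0 ≤ phi t := (phi_pos t).le

lemma phi_neg (t : ℝ) : phi (-t) = phi t := by
  unfold phi; rw [mul_neg, Real.cos_neg]

lemma phi_abs (t : ℝ) : phi |t| = phi t := by
  rcases abs_choice t with h | h <;> rw [h]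
  exact phi_neg t

lemma continuous_phi : Continuous phi := by
  unfold phi; fun_prop

/-- Distance to the nearest integer. -/
noncomputable def nn (t : ℝ) : ℝ := |t - round t|

lemma nn_nonneg (t : ℝ) : 0 ≤ nn t := abs_nonneg _

lemma nn_le_half (t : ℝ) : nn t ≤ 1 / 2 := abs_sub_round t

lemma nn_le (t : ℝ) (n : ℤ) : nn t ≤ |t - n| := round_le t n

lemma cos_two_pi_eq (t : ℝ) : Real.cos (2 * Real.pi * t) = Real.cos (2 * Real.pi * nn t) := by
  have h1 : Real.cos (2 * Real.pi * t) = Real.cos (2 * Real.pi * (t - round t)) := by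
    have : 2 * Real.pi * t = 2 * Real.pi * (t - round t) + (round t : ℤ) * (2 * Real.pi) := by
      ring
    rw [this, Real.cos_add_int_mul_two_pi]
  rw [h1]
  unfold nn
  rcases abs_choice (t - round t) with h | h <;> rw [h]
  rw [mul_neg, Real.cos_neg]

lemma cos_ge_one_sub (x : ℝ) : 1 - |x| ≤ Real.cos x := by
  by_cases h : |x| ≤ 1
  · have h1 := Real.one_sub_sq_div_two_le_cos (x := x)
    have h2 : x ^ 2 ≤ |x| := by
      rw [← sq_abs]; nlinarith [abs_nonneg x]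
    nlinarith [abs_nonneg x]
  · push Not at h
    by_cases h2 : |x| ≤ 2
    · have := Real.neg_one_le_cos x
      have h1 := Real.one_sub_sq_div_two_le_cos (x := x)
      have h3 : x ^ 2 ≤ 2 * |x| := by
        rw [← sq_abs]; nlinarith [abs_nonneg x]
      linarith
    · push Not at h2
      have := Real.neg_one_le_cos x
      linarith

lemma one_sub_phi_le (t : ℝ) : 1 - phi t ≤ 2 * nn t := by
  have h1 := cos_ge_one_sub (2 * Real.pi * nn t)
  rw [← cos_two_pi_eq, abs_mul, abs_of_pos (by positivity : (0:ℝ) < 2 * Real.pi),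
    abs_of_nonneg (nn_nonneg t)] at h1
  unfold phi
  have h2 := Real.pi_le_four
  have := nn_nonneg t
  nlinarith

/-- The upper bound for `phi t` when `t` is at distance at least `δ` from the integers. -/
noncomputable def qq (δ : ℝ) : ℝ := 3 / 4 + Real.cos (2 * Real.pi * δ) / 4

lemma phi_le_qq {δ t : ℝ} (h0 : 0 ≤ δ) (h : δ ≤ nn t) : phi t ≤ qq δ := by
  unfold phi qq
  rw [cos_two_pi_eq]
  have hp := Real.pi_pos
  have : Real.cos (2 * Real.pi * nn t) ≤ Real.cos (2 * Real.pi * δ) := by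
    apply Real.cos_le_cos_of_nonneg_of_le_pi
    · positivity
    · have := nn_le_half t
      nlinarith
    · gcongr
  linarith

lemma qq_lt_one {δ : ℝ} (h0 : 0 < δ) (h1 : δ ≤ 1 / 2) : qq δ < 1 := by
  unfold qq
  have hp := Real.pi_pos
  have : Real.cos (2 * Real.pi * δ) < Real.cos 0 := by
    apply Real.cos_lt_cos_of_nonneg_of_le_pi (le_refl 0)
    · nlinarith
    · positivity
  rw [Real.cos_zero] at this
  linarith

/-- Leading digits product. -/
noncomputable def GG (θ : ℝ) (I : ℕ) (s : ℝ) : ℝ :=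
  ∏ i ∈ Finset.range I, phi (θ ^ (s + ((i : ℝ) + 1)))

lemma GG_nonneg (θ : ℝ) (I : ℕ) (s : ℝ) : 0 ≤ GG θ I s :=
  Finset.prod_nonneg (fun _ _ => phi_nonneg _)

lemma GG_le_one (θ : ℝ) (I : ℕ) (s : ℝ) : GG θ I s ≤ 1 :=
  Finset.prod_le_one (fun _ _ => phi_nonneg _) (fun _ _ => phi_le_one _)

lemma continuous_GG {θ : ℝ} (hθ : 1 < θ) (I : ℕ) : Continuous (GG θ I) := by
  unfold GG
  refine continuous_finsetProd _ (fun i _ => continuous_phi.comp ?_)
  exact (Real.continuous_const_rpow (by linarith : θ ≠ 0)).comp (by fun_prop)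

/-- exceptional set -/
def EE (θ δ : ℝ) : Set ℝ := {s : ℝ | ∃ i0 : ℕ, ∀ i : ℕ, i0 ≤ i → nn (θ ^ (s + i)) < δ}

lemma countable_EE {θ : ℝ} (hθ : 1 < θ) {δ : ℝ} (hδ : δ * (1 + θ) ≤ 1 / 4) :
    (EE θ δ).Countable := by
  have hθ0 : 0 < θ := by linarith
  have hsub : EE θ δ ⊆ ⋃ (i0 : ℕ) (n : ℤ),
      {s : ℝ | (∀ i : ℕ, i0 ≤ i → nn (θ ^ (s + i)) < δ) ∧ round (θ ^ (s + i0)) = n} := by
    rintro s ⟨i0, hs⟩
    simp only [Set.mem_iUnion]
    exact ⟨i0, round (θ ^ (s + i0)), hs, rfl⟩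
  refine Set.Countable.mono hsub ?_
  refine Set.countable_iUnion (fun i0 => Set.countable_iUnion (fun n => ?_))
  apply Set.Subsingleton.countable
  rintro s ⟨hs1, hs2⟩ s' ⟨hs1', hs2'⟩
  have hpow : ∀ (r : ℝ) (i : ℕ), θ ^ (r + i) = θ ^ r * θ ^ i := by
    intro r i; rw [Real.rpow_add hθ0, Real.rpow_natCast]
  have hround : ∀ i : ℕ, i0 ≤ i → round (θ ^ (s + i)) = round (θ ^ (s' + i)) := by
    intro i hi
    induction i, hi using Nat.le_induction with
    | base => rw [hs2, hs2']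
    | succ i hi ih =>
      have a1 := hs1 i hi
      have a2 := hs1 (i + 1) (by omega)
      have b1 := hs1' i hi
      have b2 := hs1' (i + 1) (by omega)
      unfold nn at a1 a2 b1 b2
      rw [ih] at a1
      have e1 : θ ^ (s + ((i + 1 : ℕ) : ℝ)) = θ * θ ^ (s + i) := by
        rw [hpow, hpow, pow_succ]; ring
      have e2 : θ ^ (s' + ((i + 1 : ℕ) : ℝ)) = θ * θ ^ (s' + i) := by
        rw [hpow, hpow, pow_succ]; ring
      set A := round (θ ^ (s + ((i + 1 : ℕ) : ℝ)))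
      set B := round (θ ^ (s' + ((i + 1 : ℕ) : ℝ)))
      set M := round (θ ^ (s' + (i:ℝ)))
      rw [e1] at a2
      rw [e2] at b2
      have c1 : |(A : ℝ) - θ * M| < 1 / 4 := by
        have : (A : ℝ) - θ * M = -(θ * θ ^ (s + i) - A) + θ * (θ ^ (s + i) - M) := by ring
        rw [this]
        refine (abs_add_le _ _).trans_lt ?_
        rw [abs_neg, abs_mul, abs_of_pos hθ0]
        nlinarith
      have c2 : |(B : ℝ) - θ * M| < 1 / 4 := by
        have : (B : ℝ) - θ * M = -(θ * θ ^ (s' + i) - B) + θ * (θ ^ (s' + i) - M) := by ring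
        rw [this]
        refine (abs_add_le _ _).trans_lt ?_
        rw [abs_neg, abs_mul, abs_of_pos hθ0]
        nlinarith
      have c3 : |(A : ℝ) - B| < 1 := by
        have : (A : ℝ) - B = (A - θ * M) - (B - θ * M) := by ring
        rw [this]
        refine (abs_sub _ _).trans_lt ?_
        linarith
      have c4 : |A - B| < 1 := by exact_mod_cast c3
      have := Int.abs_lt_one_iff.mp c4
      omega
  have hbd : ∀ i : ℕ, i0 ≤ i → θ ^ i * |θ ^ s - θ ^ s'| ≤ 2 * δ := by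
    intro i hi
    have a1 := hs1 i hi
    have b1 := hs1' i hi
    unfold nn at a1 b1
    rw [hround i hi] at a1
    have : θ ^ i * |θ ^ s - θ ^ s'| = |θ ^ (s + i) - θ ^ (s' + i)| := by
      rw [hpow, hpow, ← sub_mul, abs_mul, abs_of_pos (pow_pos hθ0 i), mul_comm]
    rw [this]
    have e : θ ^ (s + i) - θ ^ (s' + i) = (θ ^ (s + i) - round (θ ^ (s' + i)))
      - (θ ^ (s' + i) - round (θ ^ (s' + i))) := by ring
    rw [e]
    refine (abs_sub _ _).trans ?_
    linarith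
  by_contra hne
  have hne2 : θ ^ s ≠ θ ^ s' := by
    intro h
    apply hne
    exact (Real.rpow_right_inj hθ0 hθ.ne').mp h
  have hpos : 0 < |θ ^ s - θ ^ s'| := abs_pos.mpr (sub_ne_zero.mpr hne2)
  obtain ⟨i, hi⟩ := (((tendsto_pow_atTop_atTop_of_one_lt hθ).eventually
    (eventually_gt_atTop (2 * δ / |θ ^ s - θ ^ s'|))).and (eventually_ge_atTop i0)).exists
  have := hbd i hi.2
  rw [div_lt_iff₀ hpos] at hi
  linarith [hi.1]

lemma tendsto_GG_zero {θ : ℝ} {δ : ℝ} (hδ0 : 0 < δ) (hδ : δ ≤ 1 / 2) {s : ℝ}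
    (hs : s ∉ EE θ δ) : Tendsto (fun I => GG θ I s) atTop (𝓝 0) := by
  have hanti : Antitone (fun I => GG θ I s) := by
    refine antitone_nat_of_succ_le (fun I => ?_)
    unfold GG
    rw [Finset.prod_range_succ]
    exact mul_le_of_le_one_right (Finset.prod_nonneg (fun _ _ => phi_nonneg _)) (phi_le_one _)
  have hbdd : BddBelow (Set.range (fun I => GG θ I s)) :=
    ⟨0, by rintro _ ⟨I, rfl⟩; exact GG_nonneg _ _ _⟩
  have hlim := tendsto_atTop_ciInf hanti hbdd
  set L := ⨅ I, GG θ I s with hL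
  have hL0 : 0 ≤ L := le_ciInf (fun I => GG_nonneg _ _ _)
  have hlim1 : Tendsto (fun I => GG θ (I + 1) s - qq δ * GG θ I s) atTop (𝓝 (L - qq δ * L)) :=
    ((tendsto_add_atTop_iff_nat 1).mpr hlim).sub (hlim.const_mul _)
  have hfreq : ∃ᶠ I in atTop, GG θ (I + 1) s - qq δ * GG θ I s ≤ 0 := by
    rw [Filter.frequently_atTop]
    intro I0
    have : ¬ ∀ i : ℕ, I0 + 1 ≤ i → nn (θ ^ (s + i)) < δ := fun h => hs ⟨I0 + 1, h⟩
    push Not at this
    obtain ⟨i, hi, hi2⟩ := this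
    obtain ⟨I, rfl⟩ : ∃ I, i = I + 1 := ⟨i - 1, by omega⟩
    refine ⟨I, by omega, ?_⟩
    have h1 : phi (θ ^ (s + ((I : ℝ) + 1))) ≤ qq δ := by
      apply phi_le_qq hδ0.le
      have : ((I + 1 : ℕ) : ℝ) = (I : ℝ) + 1 := by push_cast; ring
      rwa [this] at hi2
    have h2 := GG_nonneg θ I s
    have h3 : GG θ (I + 1) s = GG θ I s * phi (θ ^ (s + ((I : ℝ) + 1))) := by
      unfold GG; rw [Finset.prod_range_succ]
    rw [h3]
    nlinarith
  have h5 := le_of_tendsto_of_frequently hlim1 hfreq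
  have h6 := qq_lt_one hδ0 hδ
  have : L = 0 := by
    by_contra hne
    have : 0 < L := lt_of_le_of_ne hL0 (Ne.symm hne)
    nlinarith
  rw [this] at hlim
  exact hlim

lemma tendsto_integral_GG {θ : ℝ} (hθ : 1 < θ) (x y : ℝ) :
    Tendsto (fun I => ∫ s in x..y, GG θ I s) atTop (𝓝 0) := by
  set δ : ℝ := 1 / (4 * (1 + θ)) with hδ
  have hδ0 : 0 < δ := by positivity
  have hδ1 : δ * (1 + θ) ≤ 1 / 4 := by
    rw [hδ]
    have : (1 + θ) ≠ 0 := by positivity
    field_simp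
    norm_num
  have hδ2 : δ ≤ 1 / 2 := by nlinarith
  have h := intervalIntegral.tendsto_integral_filter_of_dominated_convergence (μ := volume)
    (l := atTop) (F := fun I s => GG θ I s) (f := fun _ => (0:ℝ)) (a := x) (b := y) (fun _ => (1:ℝ))
    (Eventually.of_forall (fun I => (continuous_GG hθ I).aestronglyMeasurable))
    (Eventually.of_forall (fun I => Eventually.of_forall (fun s _ => by
      rw [Real.norm_eq_abs, abs_of_nonneg (GG_nonneg _ _ _)]; exact GG_le_one _ _ _)))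
    intervalIntegrable_const
    (by
      have hnull : volume (EE θ δ) = 0 := (countable_EE hθ hδ1).measure_zero _
      have : ∀ᵐ s : ℝ, s ∉ EE θ δ := by
        rw [ae_iff]; simpa using hnull
      filter_upwards [this] with s hs _
      exact tendsto_GG_zero hδ0 hδ2 hs)
  simpa using h

/-- Continuous periodic majorant of the leading-digit product. -/
noncomputable def PP (θ : ℝ) (I : ℕ) (u : ℝ) : ℝ := (1 - u) * GG θ I u + u * GG θ I (u - 1)

lemma continuous_PP {θ : ℝ} (hθ : 1 < θ) (I : ℕ) : Continuous (PP θ I) := by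
  unfold PP
  have h1 := continuous_GG hθ I
  have h2 : Continuous (fun u => GG θ I (u - 1)) := h1.comp (by fun_prop)
  fun_prop

lemma PP_zero_eq_one (θ : ℝ) (I : ℕ) : PP θ I 0 = PP θ I 1 := by
  unfold PP; simp

lemma integral_PP_le {θ : ℝ} (hθ : 1 < θ) (I : ℕ) :
    ∫ u in (0:ℝ)..1, PP θ I u ≤ ∫ s in (-1:ℝ)..1, GG θ I s := by
  have i : ∀ x y : ℝ, IntervalIntegrable (GG θ I) volume x y := fun x y =>
    (continuous_GG hθ I).intervalIntegrable x y
  have i2 : ∀ x y : ℝ, IntervalIntegrable (fun u => GG θ I (u - 1)) volume x y := fun x y =>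
    ((continuous_GG hθ I).comp (by fun_prop)).intervalIntegrable x y
  have h1 : ∫ u in (0:ℝ)..1, PP θ I u ≤ ∫ u in (0:ℝ)..1, (GG θ I u + GG θ I (u - 1)) := by
    refine intervalIntegral.integral_mono_on zero_le_one
      ((continuous_PP hθ I).intervalIntegrable _ _) ((i _ _).add (i2 _ _)) (fun u hu => ?_)
    unfold PP
    have a1 := GG_nonneg θ I u
    have a2 := GG_nonneg θ I (u - 1)
    nlinarith [hu.1, hu.2, mul_nonneg hu.1 a1, mul_nonneg (sub_nonneg.mpr hu.2) a2]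
  refine h1.trans (le_of_eq ?_)
  rw [intervalIntegral.integral_add (i _ _) (i2 _ _)]
  rw [intervalIntegral.integral_comp_sub_right (fun u => GG θ I u) 1]
  rw [zero_sub, sub_self, add_comm]
  exact intervalIntegral.integral_add_adjacent_intervals (i _ _) (i _ _)

lemma exists_integral_PP_le {θ : ℝ} (hθ : 1 < θ) {η : ℝ} (hη : 0 < η) :
    ∃ I, ∫ u in (0:ℝ)..1, PP θ I u ≤ η := by
  have h := (tendsto_integral_GG hθ (-1) 1).eventually (gt_mem_nhds hη)
  obtain ⟨I, hI⟩ := h.exists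
  exact ⟨I, (integral_PP_le hθ I).trans hI.le⟩

lemma PP_nonneg (θ : ℝ) (I : ℕ) {u : ℝ} (h0 : 0 ≤ u) (h1 : u ≤ 1) : 0 ≤ PP θ I u := by
  unfold PP
  have a1 := GG_nonneg θ I u
  have a2 := GG_nonneg θ I (u - 1)
  have := mul_nonneg (sub_nonneg.mpr h1) a1
  have := mul_nonneg h0 a2
  linarith

lemma PP_le_one (θ : ℝ) (I : ℕ) {u : ℝ} (h0 : 0 ≤ u) (h1 : u ≤ 1) : PP θ I u ≤ 1 := by
  unfold PP
  have a1 := GG_le_one θ I u
  have a2 := GG_le_one θ I (u - 1)
  nlinarith [mul_le_mul_of_nonneg_left a1 (sub_nonneg.mpr h1), mul_le_mul_of_nonneg_left a2 h0]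

/-- The full product `∏_{N₁ < j ≤ N₂} phi (t / θ^j)`. -/
noncomputable def Phi (θ : ℝ) (N₁ N₂ : ℕ) (t : ℝ) : ℝ :=
  ∏ j ∈ Finset.Ioc N₁ N₂, phi (t / θ ^ j)

lemma Phi_nonneg (θ : ℝ) (N₁ N₂ : ℕ) (t : ℝ) : 0 ≤ Phi θ N₁ N₂ t :=
  Finset.prod_nonneg (fun _ _ => phi_nonneg _)

lemma Phi_le_one (θ : ℝ) (N₁ N₂ : ℕ) (t : ℝ) : Phi θ N₁ N₂ t ≤ 1 :=
  Finset.prod_le_one (fun _ _ => phi_nonneg _) (fun _ _ => phi_le_one _)

lemma Phi_le_GG {θ : ℝ} (hθ : 1 < θ) {N₁ N₂ I j0 : ℕ} {t v : ℝ} (ht : |t| = θ ^ v)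
    (h1 : N₁ + I + 1 ≤ j0) (h2 : j0 ≤ N₂ + 1) : Phi θ N₁ N₂ t ≤ GG θ I (v - j0) := by
  have hθ0 : 0 < θ := by linarith
  unfold Phi GG
  have hinj : Set.InjOn (fun i : ℕ => j0 - (i + 1)) (Finset.range I : Set ℕ) := by
    intro i hi i' hi' h
    simp only [Finset.coe_range, Set.mem_Iio] at hi hi'
    simp only at h
    omega
  have hsub : (Finset.range I).image (fun i : ℕ => j0 - (i + 1)) ⊆ Finset.Ioc N₁ N₂ := by
    intro j hj
    rw [Finset.mem_image] at hj
    obtain ⟨i, hi, rfl⟩ := hj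
    rw [Finset.mem_range] at hi
    rw [Finset.mem_Ioc]
    omega
  rw [← Finset.prod_sdiff hsub]
  have e1 : ∏ j ∈ (Finset.range I).image (fun i : ℕ => j0 - (i + 1)), phi (t / θ ^ j)
      = ∏ i ∈ Finset.range I, phi (θ ^ (v - j0 + ((i : ℝ) + 1))) := by
    rw [Finset.prod_image hinj]
    refine Finset.prod_congr rfl (fun i hi => ?_)
    rw [Finset.mem_range] at hi
    rw [← phi_abs, abs_div, ht, abs_of_pos (pow_pos hθ0 _), ← Real.rpow_natCast,
      ← Real.rpow_sub hθ0]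
    congr 2
    rw [Nat.cast_sub (by omega)]
    push_cast
    ring
  rw [e1]
  refine mul_le_of_le_one_left (Finset.prod_nonneg (fun _ _ => phi_nonneg _)) ?_
  exact Finset.prod_le_one (fun _ _ => phi_nonneg _) (fun _ _ => phi_le_one _)

lemma Phi_le_PP {θ : ℝ} (hθ : 1 < θ) {N₁ N₂ I : ℕ} {t v : ℝ} (ht : |t| = θ ^ v)
    (h1 : (N₁ : ℝ) + I + 1 ≤ v) (h2 : v ≤ N₂) : Phi θ N₁ N₂ t ≤ PP θ I (Int.fract v) := by
  have hv : 0 ≤ v := le_trans (by positivity) h1
  have hfl1 : N₁ + I + 1 ≤ ⌊v⌋₊ := Nat.le_floor (by push_cast; linarith)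
  have hfl2 : ⌊v⌋₊ ≤ N₂ := by
    have := Nat.floor_le_floor h2
    simpa using this
  have hfr : Int.fract v = v - ⌊v⌋₊ := by
    rw [Int.fract, ← natCast_floor_eq_intCast_floor hv]
  have a1 := Phi_le_GG hθ (N₂ := N₂) (j0 := ⌊v⌋₊) ht hfl1 (by omega)
  have a2 := Phi_le_GG hθ (N₂ := N₂) (j0 := ⌊v⌋₊ + 1) ht
    (by omega : N₁ + I + 1 ≤ ⌊v⌋₊ + 1) (by omega)
  have e2 : v - ((⌊v⌋₊ + 1 : ℕ) : ℝ) = Int.fract v - 1 := by
    rw [hfr]; push_cast; ring
  rw [e2] at a2
  rw [← hfr] at a1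
  unfold PP
  have b0 := Int.fract_nonneg v
  have b1 := (Int.fract_lt_one v).le
  calc Phi θ N₁ N₂ t = (1 - Int.fract v) * Phi θ N₁ N₂ t + Int.fract v * Phi θ N₁ N₂ t := by ring
    _ ≤ (1 - Int.fract v) * GG θ I (Int.fract v) + Int.fract v * GG θ I (Int.fract v - 1) :=
      add_le_add (mul_le_mul_of_nonneg_left a1 (by linarith)) (mul_le_mul_of_nonneg_left a2 b0)

end Pool.Agent.PisotNormal
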