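import Mathlib

/-!
Definitions used in the statements about the Borel complexity of normality over Pisot bases.
-/

set_option autoImplicit false

namespace Pool.Agent.PisotNormal

open Filter Topology TopologicalSpace

/-- A real sequence `u` is uniformly distributed modulo one: for every interval
`[a, b) ⊆ [0, 1)` the proportion of `n < N` with fractional part of `u n` in `[a, b)` tends to
`b - a` as `N → ∞`. -/
def UDModOne (u : ℕ → ℝ) : Prop :=
  ∀ a b : ℝ, 0 ≤ a → a < b → b ≤ 1 →
    Tendsto (fun N : ℕ =>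
      ((((Finset.range N).filter
        (fun n => a ≤ Int.fract (u n) ∧ Int.fract (u n) < b)).card : ℕ) : ℝ) / (N : ℝ))
      atTop (𝓝 (b - a))

/-- The set `𝒩(α)` of real `ξ` such that `(ξ α ^ n)_{n ≥ 0}` is uniformly distributed
modulo one. -/
def normalSet (α : ℝ) : Set ℝ := {ξ | UDModOne (fun n => ξ * α ^ n)}

/-- `θ` is a Pisot number: a real algebraic integer `θ > 1` such that every Galois conjugate of
`θ` other than `θ` itself (that is, every other complex root of its minimal polynomial over `ℚ`)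
has absolute value less than one. -/
def IsPisot (θ : ℝ) : Prop :=
  1 < θ ∧ IsIntegral ℤ θ ∧
    ∀ z : ℂ, Polynomial.aeval z (minpoly ℚ θ) = 0 → z ≠ (θ : ℂ) → ‖z‖ < 1

/-- The union `U` of the sets `𝒩(α)` over all real `α` with `|α|` a Pisot number. -/
def pisotUnion : Set ℝ := ⋃ α ∈ {α : ℝ | IsPisot |α|}, normalSet α

/-- The intersection `I` of the sets `𝒩(α)` over all real `α` with `|α|` a Pisot number. -/
def pisotInter : Set ℝ := ⋂ α ∈ {α : ℝ | IsPisot |α|}, normalSet α

/-- The boldface Borel class `Σ⁰ₙ` (`n ≥ 1`) of subsets of a topological space. The `Σ⁰₁` sets are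
the open sets, and a set is `Σ⁰ₙ₊₁` if it is a countable union `⋃ i, F i` of sets `F i` whose
complements are `Σ⁰ₘ` for some `m = m i ≤ n` (that is, `F i` is `Π⁰ₘ` with `m < n + 1`).
There are no sets at level `0`. -/
inductive IsSigma {X : Type*} [TopologicalSpace X] : ℕ → Set X → Prop
  | of_isOpen {A : Set X} (hA : IsOpen A) : IsSigma 1 A
  | iUnion {n : ℕ} (F : ℕ → Set X) (m : ℕ → ℕ) (hm : ∀ i, m i ≤ n)
      (hF : ∀ i, IsSigma (m i) (F i)ᶜ) : IsSigma (n + 1) (⋃ i, F i)

/-- The boldface Borel class `Π⁰ₙ`: complements of `Σ⁰ₙ` sets. -/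
def IsPi {X : Type*} [TopologicalSpace X] (n : ℕ) (A : Set X) : Prop := IsSigma n Aᶜ

/-- `A ⊆ ℝ` is `Σ⁰ₙ`-complete: it is `Σ⁰ₙ`, and every `Σ⁰ₙ` subset `B` of every zero-dimensional
Polish space `Y` (a Polish space whose clopen sets form a basis) is the preimage of `A` under a
continuous map `Y → ℝ`. -/
def SigmaComplete.{u} (n : ℕ) (A : Set ℝ) : Prop :=
  IsSigma n A ∧ ∀ (Y : Type u) [TopologicalSpace Y] [PolishSpace Y],
    IsTopologicalBasis {s : Set Y | IsClopen s} → ∀ B : Set Y, IsSigma n B →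
      ∃ f : Y → ℝ, Continuous f ∧ B = f ⁻¹' A

/-- `A ⊆ ℝ` is `Π⁰ₙ`-complete: it is `Π⁰ₙ`, and every `Π⁰ₙ` subset `B` of every zero-dimensional
Polish space `Y` is the preimage of `A` under a continuous map `Y → ℝ`. -/
def PiComplete.{u} (n : ℕ) (A : Set ℝ) : Prop :=
  IsPi n A ∧ ∀ (Y : Type u) [TopologicalSpace Y] [PolishSpace Y],
    IsTopologicalBasis {s : Set Y | IsClopen s} → ∀ B : Set Y, IsPi n B →
      ∃ f : Y → ℝ, Continuous f ∧ B = f ⁻¹' A

end Pool.Agent.PisotNormal
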