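import Pool.Agent.PisotNormal.Steps

/-!
Stability of Weyl sums under perturbation and the double step (biased window followed by a
filler window).
-/

set_option autoImplicit false

namespace Pool.Agent.PisotNormal

open Filter Topology MeasureTheory

lemma WW_perturb {α : ℝ} (hα : 1 < |α|) (h : ℤ) {C' : ℝ} {T ξ x' : ℝ} (hT : 0 ≤ T)
    (hξ : |ξ - x'| ≤ C' * Real.exp (-T)) {m₁ m' : ℕ} (hm' : m' ≤ ⌈T / Real.log |α|⌉₊) :
    ‖WW α h ξ m₁ m' - WW α h x' m₁ m'‖ ≤ 2 * Real.pi * |(h:ℝ)| * C' * (|α| / (|α| - 1)) := by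
  have hα0 : 0 < |α| := by linarith
  have hα1 : 0 < |α| - 1 := by linarith
  have hlog : 0 < Real.log |α| := Real.log_pos hα
  have hC0 : 0 ≤ C' := by
    by_contra hcon
    push Not at hcon
    have := (abs_nonneg (ξ - x')).trans hξ
    have h2 : C' * Real.exp (-T) < 0 := mul_neg_of_neg_of_pos hcon (Real.exp_pos _)
    linarith
  have hp := Real.pi_pos
  unfold WW
  rw [← Finset.sum_sub_distrib]
  have h1 : ∀ m ∈ Finset.Ico m₁ m', ‖ee (h * (ξ * α ^ m)) - ee (h * (x' * α ^ m))‖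
      ≤ 2 * Real.pi * |(h:ℝ)| * |ξ - x'| * |α| ^ m := by
    intro m _
    refine (norm_ee_sub_ee_le _ _).trans (le_of_eq ?_)
    rw [← mul_sub, ← sub_mul, abs_mul, abs_mul, abs_pow]
    ring
  have h2 : ∑ m ∈ Finset.Ico m₁ m', |α| ^ m ≤ |α| ^ m' / (|α| - 1) := by
    calc ∑ m ∈ Finset.Ico m₁ m', |α| ^ m ≤ ∑ m ∈ Finset.range m', |α| ^ m := by
          refine Finset.sum_le_sum_of_subset_of_nonneg ?_ (fun _ _ _ => by positivity)
          intro m hm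
          rw [Finset.mem_Ico] at hm
          rw [Finset.mem_range]
          exact hm.2
      _ = (|α| ^ m' - 1) / (|α| - 1) := geom_sum_eq hα.ne' _
      _ ≤ |α| ^ m' / (|α| - 1) := by gcongr; linarith
  have h3 : |α| ^ m' ≤ |α| * Real.exp T := by
    have e1 : (⌈T / Real.log |α|⌉₊ : ℝ) < T / Real.log |α| + 1 :=
      Nat.ceil_lt_add_one (by positivity)
    calc |α| ^ m' ≤ |α| ^ ⌈T / Real.log |α|⌉₊ := pow_le_pow_right₀ hα.le hm'
      _ = Real.exp (⌈T / Real.log |α|⌉₊ * Real.log |α|) := by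
          rw [Real.exp_nat_mul, Real.exp_log hα0]
      _ ≤ Real.exp ((T / Real.log |α| + 1) * Real.log |α|) := by
          apply Real.exp_le_exp.mpr
          exact mul_le_mul_of_nonneg_right e1.le hlog.le
      _ = |α| * Real.exp T := by
          rw [add_mul, one_mul, div_mul_cancel₀ _ hlog.ne', Real.exp_add, Real.exp_log hα0,
            mul_comm]
  calc ‖∑ m ∈ Finset.Ico m₁ m', (ee (h * (ξ * α ^ m)) - ee (h * (x' * α ^ m)))‖
      ≤ ∑ m ∈ Finset.Ico m₁ m', ‖ee (h * (ξ * α ^ m)) - ee (h * (x' * α ^ m))‖ :=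
        norm_sum_le _ _
    _ ≤ ∑ m ∈ Finset.Ico m₁ m', 2 * Real.pi * |(h:ℝ)| * |ξ - x'| * |α| ^ m :=
        Finset.sum_le_sum h1
    _ = 2 * Real.pi * |(h:ℝ)| * |ξ - x'| * ∑ m ∈ Finset.Ico m₁ m', |α| ^ m := by
        rw [Finset.mul_sum]
    _ ≤ 2 * Real.pi * |(h:ℝ)| * (C' * Real.exp (-T)) * ((|α| * Real.exp T) / (|α| - 1)) := by
        have : |α| ^ m' / (|α| - 1) ≤ (|α| * Real.exp T) / (|α| - 1) := by gcongr
        gcongr
        exact h2.trans this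
    _ = 2 * Real.pi * |(h:ℝ)| * C' * (|α| / (|α| - 1)) := by
        rw [Real.exp_neg]
        have := (Real.exp_pos T).ne'
        field_simp

lemma norm_WW_perturb_le {α : ℝ} (hα : 1 < |α|) (h : ℤ) {C' : ℝ} {T ξ x' : ℝ} (hT : 0 ≤ T)
    (hξ : |ξ - x'| ≤ C' * Real.exp (-T)) {m₁ m' : ℕ} (hm' : m' ≤ ⌈T / Real.log |α|⌉₊) :
    ‖WW α h ξ m₁ m'‖ ≤ ‖WW α h x' m₁ m'‖
      + 2 * Real.pi * |(h:ℝ)| * C' * (|α| / (|α| - 1)) := by
  have h1 := WW_perturb hα h hT hξ hm' (m₁ := m₁)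
  have h2 := norm_sub_norm_le (WW α h ξ m₁ m') (WW α h x' m₁ m')
  linarith

/-- A biased window of relative length `1 / (k + 1)` followed by a filler window. -/
theorem double_step {θ γ : ℝ} (hθ : 1 < θ) (hγ : 1 < γ)
    (hsum : Summable (fun i : ℕ => nn (θ ^ i))) :
    ∃ c : ℝ, 0 < c ∧ ∀ (F : Finset (ℝ × ℤ)),
    (∀ p ∈ F, 1 < |p.1| ∧ p.2 ≠ 0 ∧ Irrational (Real.log |p.1| / Real.log γ)) →
    ∀ {δ : ℝ}, 0 < δ →
    ∀ᶠ S : ℝ in atTop, ∀ (k : ℕ) (x : ℝ), |x| ≤ 2 →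
      ∃ x' : ℝ, |x' - x| ≤ 2 * Real.exp (-S) ∧
        ∀ ξ : ℝ, |ξ - x'| ≤ 4 * Real.exp (-(2 * S)) →
          (∀ p ∈ F, Irrational (Real.log |p.1| / Real.log θ) →
            ∀ m' ∈ Finset.Icc ⌈S / Real.log |p.1|⌉₊ ⌈2 * S / Real.log |p.1|⌉₊,
              ‖WW p.1 p.2 ξ ⌈S / Real.log |p.1|⌉₊ m'‖ ≤ δ * S) ∧
          (∀ p ∈ F,
            ∀ m' ∈ Finset.Icc ⌈S / Real.log |p.1|⌉₊ ⌈2 * S / Real.log |p.1|⌉₊,
              ‖WW p.1 p.2 ξ ⌈S / Real.log |p.1|⌉₊ m'‖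
                ≤ δ * S + S / ((k + 1) * Real.log |p.1|)) ∧
          (c / (k + 1) - δ) * S ≤
            (WW θ 1 ξ ⌈S / Real.log θ⌉₊ ⌈(S + S / (k + 1)) / Real.log θ⌉₊).re := by
  have hθ0 : 0 < θ := by linarith
  have hθabs : |θ| = θ := abs_of_pos hθ0
  have hlogθ : 0 < Real.log θ := Real.log_pos hθ
  obtain ⟨c, hc0, hc⟩ := bias_window hθ hsum
  refine ⟨c / Real.log θ, by positivity, ?_⟩
  intro F hF δ hδ
  classical
  set F' := F.filter (fun p => Irrational (Real.log |p.1| / Real.log θ)) with hF'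
  have hF'' : ∀ p ∈ F', 1 < |p.1| ∧ p.2 ≠ 0 ∧ Irrational (Real.log |p.1| / Real.log θ) := by
    intro p hp
    rw [hF', Finset.mem_filter] at hp
    exact ⟨(hF p hp.1).1, (hF p hp.1).2.1, hp.2⟩
  -- the perturbation constants
  set cst : ℝ × ℤ → ℝ := fun p => 2 * Real.pi * |(p.2:ℝ)| * 5 * (|p.1| / (|p.1| - 1)) with hcst
  have hconst : ∀ᶠ S : ℝ in atTop, ∀ p ∈ F, cst p + 1 ≤ δ / 8 * S := by
    rw [Filter.eventually_all_finset]
    intro p _
    filter_upwards [eventually_ge_atTop ((cst p + 1) / (δ / 8))] with S hS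
    rw [div_le_iff₀ (by positivity)] at hS
    linarith
  have hconst2 : ∀ᶠ S : ℝ in atTop, cst (θ, 1) + c ≤ δ / 8 * S := by
    filter_upwards [eventually_ge_atTop ((cst (θ, 1) + c) / (δ / 8))] with S hS
    rw [div_le_iff₀ (by positivity)] at hS
    linarith
  have hfill := filler_window hγ F hF (δ := δ / 8) (by positivity)
  obtain ⟨S₁, hS₁⟩ := Filter.eventually_atTop.mp hfill
  filter_upwards [hc F' hF'' (δ := δ / 8) (by positivity) 2 (by norm_num), hconst, hconst2,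
    eventually_ge_atTop S₁, eventually_gt_atTop 0] with S hbias hcS hcS2 hSS₁ hS0 k x hx
  have hk0 : (0:ℝ) < k + 1 := by positivity
  set T := S + S / (k + 1) with hT
  have hST : S ≤ T := by
    have : 0 ≤ S / (k + 1) := by positivity
    linarith
  have hT2 : T ≤ 2 * S := by
    have : S / (k + 1) ≤ S := by
      apply div_le_self hS0.le
      have : (0:ℝ) ≤ k := Nat.cast_nonneg _
      linarith
    linarith
  have hT0 : 0 < T := by linarith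
  obtain ⟨x₁, hx₁, hx₁F, hx₁b⟩ := hbias T hST hT2 x hx
  obtain ⟨x₂, hx₂, hx₂F⟩ := hS₁ T (hSS₁.trans hST) (2 * S) hT2 (by linarith) x₁
  refine ⟨x₂, ?_, ?_⟩
  · have h1 : Real.exp (-T) ≤ Real.exp (-S) := Real.exp_le_exp.mpr (by linarith)
    calc |x₂ - x| = |(x₂ - x₁) + (x₁ - x)| := by congr 1; ring
      _ ≤ |x₂ - x₁| + |x₁ - x| := abs_add_le _ _
      _ ≤ Real.exp (-T) + Real.exp (-S) := add_le_add hx₂ hx₁
      _ ≤ 2 * Real.exp (-S) := by linarith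
  intro ξ hξ
  have hξ1 : |ξ - x₁| ≤ 5 * Real.exp (-T) := by
    have h1 : Real.exp (-(2 * S)) ≤ Real.exp (-T) := Real.exp_le_exp.mpr (by linarith)
    calc |ξ - x₁| = |(ξ - x₂) + (x₂ - x₁)| := by congr 1; ring
      _ ≤ |ξ - x₂| + |x₂ - x₁| := abs_add_le _ _
      _ ≤ 4 * Real.exp (-(2 * S)) + Real.exp (-T) := add_le_add hξ hx₂
      _ ≤ 5 * Real.exp (-T) := by linarith
  have hξ2 : |ξ - x₂| ≤ 5 * Real.exp (-(2 * S)) := by
    have := Real.exp_pos (-(2 * S))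
    linarith
  -- filler part bound
  have hfillpart : ∀ p ∈ F, ∀ m' ∈ Finset.Icc ⌈T / Real.log |p.1|⌉₊ ⌈2 * S / Real.log |p.1|⌉₊,
      ‖WW p.1 p.2 ξ ⌈T / Real.log |p.1|⌉₊ m'‖ ≤ 3 * (δ / 8) * S := by
    intro p hp m' hm'
    have h1 := hx₂F p hp m' hm'
    rw [Finset.mem_Icc] at hm'
    have h2 := norm_WW_perturb_le (hF p hp).1 p.2 (by linarith : 0 ≤ 2 * S) hξ2
      (m₁ := ⌈T / Real.log |p.1|⌉₊) hm'.2
    have h3 := hcS p hp
    simp only [hcst] at h3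
    have h4 : δ / 8 * T ≤ δ / 8 * (2 * S) := by gcongr
    linarith
  -- generic combination
  have hcomb : ∀ p ∈ F, ∀ b : ℝ,
      (∀ m' ∈ Finset.Icc ⌈S / Real.log |p.1|⌉₊ ⌈T / Real.log |p.1|⌉₊,
        ‖WW p.1 p.2 ξ ⌈S / Real.log |p.1|⌉₊ m'‖ ≤ b) →
      ∀ m' ∈ Finset.Icc ⌈S / Real.log |p.1|⌉₊ ⌈2 * S / Real.log |p.1|⌉₊,
        ‖WW p.1 p.2 ξ ⌈S / Real.log |p.1|⌉₊ m'‖ ≤ b + 3 * (δ / 8) * S := by
    intro p hp b hb m' hm'
    have hlog : 0 < Real.log |p.1| := Real.log_pos (hF p hp).1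
    have hm1T : ⌈S / Real.log |p.1|⌉₊ ≤ ⌈T / Real.log |p.1|⌉₊ := Nat.ceil_le_ceil (by gcongr)
    rw [Finset.mem_Icc] at hm'
    by_cases hcase : m' ≤ ⌈T / Real.log |p.1|⌉₊
    · have := hb m' (Finset.mem_Icc.mpr ⟨hm'.1, hcase⟩)
      have h2 : 0 ≤ 3 * (δ / 8) * S := by positivity
      linarith
    · push Not at hcase
      rw [← WW_add p.1 p.2 ξ hm1T hcase.le]
      refine (norm_add_le _ _).trans ?_
      exact add_le_add (hb _ (Finset.mem_Icc.mpr ⟨hm1T, le_refl _⟩))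
        (hfillpart p hp m' (Finset.mem_Icc.mpr ⟨hcase.le, hm'.2⟩))
  refine ⟨?_, ?_, ?_⟩
  · intro p hp hirr
    have hb : ∀ m' ∈ Finset.Icc ⌈S / Real.log |p.1|⌉₊ ⌈T / Real.log |p.1|⌉₊,
        ‖WW p.1 p.2 ξ ⌈S / Real.log |p.1|⌉₊ m'‖ ≤ 2 * (δ / 8) * S := by
      intro m' hm'
      have h1 := hx₁F p (by rw [hF', Finset.mem_filter]; exact ⟨hp, hirr⟩) m' hm'
      rw [Finset.mem_Icc] at hm'
      have h2 := norm_WW_perturb_le (hF p hp).1 p.2 hT0.le hξ1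
        (m₁ := ⌈S / Real.log |p.1|⌉₊) hm'.2
      have h3 := hcS p hp
      simp only [hcst] at h3
      linarith
    intro m' hm'
    have := hcomb p hp _ hb m' hm'
    have h2 : 0 ≤ δ / 8 * S := by positivity
    linarith
  · intro p hp
    have hlog : 0 < Real.log |p.1| := Real.log_pos (hF p hp).1
    have hb : ∀ m' ∈ Finset.Icc ⌈S / Real.log |p.1|⌉₊ ⌈T / Real.log |p.1|⌉₊,
        ‖WW p.1 p.2 ξ ⌈S / Real.log |p.1|⌉₊ m'‖ ≤ S / ((k + 1) * Real.log |p.1|) + 1 := by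
      intro m' hm'
      rw [Finset.mem_Icc] at hm'
      refine (norm_WW_le _ _ _ _ _).trans ?_
      have e1 : S / Real.log |p.1| ≤ ⌈S / Real.log |p.1|⌉₊ := Nat.le_ceil _
      have e2 : (⌈T / Real.log |p.1|⌉₊ : ℝ) < T / Real.log |p.1| + 1 :=
        Nat.ceil_lt_add_one (by positivity)
      have e3 : (m' : ℝ) ≤ ⌈T / Real.log |p.1|⌉₊ := by exact_mod_cast hm'.2
      rw [Nat.cast_sub hm'.1]
      have e4 : T / Real.log |p.1| = S / Real.log |p.1| + S / ((k + 1) * Real.log |p.1|) := by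
        rw [hT]; field_simp
      linarith
    intro m' hm'
    have := hcomb p hp _ hb m' hm'
    have h3 := hcS p hp
    have h4 : 0 ≤ cst p := by
      simp only [hcst]
      have h5 : 0 < |p.1| - 1 := by linarith [(hF p hp).1]
      have := Real.pi_pos
      positivity
    have h2 : 0 ≤ δ / 8 * S := by positivity
    linarith
  · have h1 := WW_perturb (α := θ) (by rw [hθabs]; exact hθ) 1 hT0.le hξ1
      (m₁ := ⌈S / Real.log θ⌉₊) (m' := ⌈T / Real.log θ⌉₊) (by rw [hθabs])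
    have h2 : (WW θ 1 x₁ ⌈S / Real.log θ⌉₊ ⌈T / Real.log θ⌉₊).re
        - (WW θ 1 ξ ⌈S / Real.log θ⌉₊ ⌈T / Real.log θ⌉₊).re
        ≤ ‖WW θ 1 ξ ⌈S / Real.log θ⌉₊ ⌈T / Real.log θ⌉₊
          - WW θ 1 x₁ ⌈S / Real.log θ⌉₊ ⌈T / Real.log θ⌉₊‖ := by
      rw [← Complex.sub_re]
      refine (Complex.re_le_norm _).trans (le_of_eq ?_)
      rw [norm_sub_rev]
    have h3 : S / ((k + 1) * Real.log θ) - 1
        ≤ ((⌈T / Real.log θ⌉₊ - ⌈S / Real.log θ⌉₊ : ℕ) : ℝ) := by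
      have e1 : (⌈S / Real.log θ⌉₊ : ℝ) < S / Real.log θ + 1 :=
        Nat.ceil_lt_add_one (by positivity)
      have e2 : T / Real.log θ ≤ ⌈T / Real.log θ⌉₊ := Nat.le_ceil _
      have hle : ⌈S / Real.log θ⌉₊ ≤ ⌈T / Real.log θ⌉₊ := Nat.ceil_le_ceil (by gcongr)
      rw [Nat.cast_sub hle]
      have e4 : T / Real.log θ = S / Real.log θ + S / ((k + 1) * Real.log θ) := by
        rw [hT]; field_simp
      linarith
    have h4 := mul_le_mul_of_nonneg_left h3 hc0.le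
    have h5 : (c / Real.log θ / (k + 1) - δ) * S
        = c * (S / ((k + 1) * Real.log θ)) - δ * S := by
      field_simp
    rw [h5]
    simp only [hcst] at hcS2
    rw [hθabs] at h1 hcS2
    have h6 : 0 ≤ δ / 8 * S := by positivity
    linarith

end Pool.Agent.PisotNormal
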