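import Pool.Agent.PisotNormal.Decay

/-!
Pisot numbers: powers are close to integers; countability; primes.
-/

set_option autoImplicit false

namespace Pool.Agent.PisotNormal

open Filter Topology

lemma IsPisot.summable {θ : ℝ} (h : IsPisot θ) : Summable (fun i : ℕ => nn (θ ^ i)) := by
  obtain ⟨h1, h2, h3⟩ := h
  have hint : IsIntegral ℚ θ := h2.tower_top
  let K := IntermediateField.adjoin ℚ ({θ} : Set ℝ)
  let g : K := IntermediateField.AdjoinSimple.gen ℚ θ
  have hg : (g : ℝ) = θ := IntermediateField.AdjoinSimple.coe_gen ℚ θ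
  have : FiniteDimensional ℚ K := IntermediateField.adjoin.finiteDimensional hint
  -- the trace of `g ^ n` is an integer
  have hgint : IsIntegral ℤ g := by
    have h4 : IsIntegral ℤ (algebraMap K ℝ g) := by
      show IsIntegral ℤ (g : ℝ)
      rw [hg]; exact h2
    exact (isIntegral_algebraMap_iff (algebraMap K ℝ).injective).mp h4
  have htr : ∀ n : ℕ, ∃ t : ℤ, (t : ℚ) = Algebra.trace ℚ K (g ^ n) := by
    intro n
    have h5 : IsIntegral ℤ (Algebra.trace ℚ K (g ^ n)) := Algebra.isIntegral_trace (hgint.pow n)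
    exact IsIntegrallyClosed.isIntegral_iff.mp h5
  -- the distinguished embedding
  let ι : K →ₐ[ℚ] ℂ := (Complex.ofRealAm.restrictScalars ℚ).comp K.val
  have hι : ι g = (θ : ℂ) := by
    show ((g : ℝ) : ℂ) = θ
    rw [hg]
  classical
  have hσ : ∀ σ : K →ₐ[ℚ] ℂ, σ ≠ ι → ‖σ g‖ < 1 := by
    intro σ hne
    apply h3
    · have h6 : minpoly ℚ g = minpoly ℚ θ := by
        rw [← hg]; exact (minpoly.algebraMap_eq (algebraMap K ℝ).injective g).symm
      rw [← h6, Polynomial.aeval_algHom_apply, minpoly.aeval, map_zero]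
    · intro hcon
      apply hne
      apply IntermediateField.adjoin_algHom_ext ℚ
      intro x hx
      rw [Set.mem_singleton_iff] at hx
      subst hx
      show σ g = ι g
      rw [hcon, hι]
  have hbound : ∀ n : ℕ, nn (θ ^ n) ≤ ∑ σ ∈ Finset.univ.erase ι, ‖σ g‖ ^ n := by
    intro n
    obtain ⟨t, ht⟩ := htr n
    refine (nn_le (θ ^ n) t).trans ?_
    have h7 := trace_eq_sum_embeddings (K := ℚ) (L := K) ℂ (x := g ^ n)
    rw [← ht, ← Finset.add_sum_erase _ _ (Finset.mem_univ ι)] at h7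
    have h8 : ((θ ^ n - t : ℝ) : ℂ) = - ∑ σ ∈ Finset.univ.erase ι, σ (g ^ n) := by
      have h9 : ι (g ^ n) = ((θ ^ n : ℝ) : ℂ) := by rw [map_pow, hι]; push_cast; rfl
      rw [h9] at h7
      have h10 : (algebraMap ℚ ℂ) (t : ℚ) = (t : ℂ) := by simp
      rw [h10] at h7
      push_cast at h7 ⊢
      rw [h7]; ring
    have h11 : |θ ^ n - t| = ‖((θ ^ n - t : ℝ) : ℂ)‖ := by
      rw [Complex.norm_real, Real.norm_eq_abs]
    rw [h11, h8, norm_neg]
    refine (norm_sum_le _ _).trans (Finset.sum_le_sum (fun σ _ => ?_))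
    rw [map_pow, norm_pow]
  refine Summable.of_nonneg_of_le (fun n => nn_nonneg _) hbound ?_
  refine summable_sum (fun σ hσ' => ?_)
  exact summable_geometric_of_lt_one (norm_nonneg _) (hσ σ (Finset.ne_of_mem_erase hσ'))

lemma isPisot_natCast {n : ℕ} (hn : 2 ≤ n) : IsPisot (n : ℝ) := by
  refine ⟨by exact_mod_cast hn, ?_, ?_⟩
  · have := isIntegral_algebraMap (R := ℤ) (A := ℝ) (x := (n : ℤ))
    simpa using this
  · intro z hz hne
    exfalso
    apply hne
    have h1 : minpoly ℚ (n : ℝ) = Polynomial.X - Polynomial.C (n : ℚ) := by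
      have := minpoly.eq_X_sub_C (A := ℚ) (B := ℝ) (n : ℚ)
      simpa using this
    rw [h1] at hz
    simp at hz
    rw [sub_eq_zero] at hz
    rw [hz]; simp

lemma countable_isPisot_abs : {α : ℝ | IsPisot |α|}.Countable := by
  refine (Algebraic.countable ℤ ℝ).mono ?_
  intro α hα
  have h1 : IsIntegral ℤ |α| := hα.2.1
  have h2 : IsIntegral ℤ α := by
    rcases abs_choice α with h | h
    · rwa [h] at h1
    · rw [h] at h1
      have := h1.neg
      rwa [neg_neg] at this
  exact h2.isAlgebraic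

/-- Distinct primes have irrational logarithmic ratio. -/
lemma irrational_log_div_log {p q : ℕ} (hp : p.Prime) (hq : q.Prime) (hpq : p ≠ q) :
    Irrational (Real.log p / Real.log q) := by
  have hp1 : (1:ℝ) < p := by exact_mod_cast hp.one_lt
  have hq1 : (1:ℝ) < q := by exact_mod_cast hq.one_lt
  have hlp : 0 < Real.log p := Real.log_pos hp1
  have hlq : 0 < Real.log q := Real.log_pos hq1
  rintro ⟨r, hr⟩
  have hr0 : (0:ℝ) < r := by rw [hr]; positivity
  have hr0' : 0 < r := by exact_mod_cast hr0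
  have hnum : 0 < r.num := Rat.num_pos.mpr hr0'
  obtain ⟨a, ha⟩ := Int.eq_ofNat_of_zero_le hnum.le
  have hra : (r : ℝ) = (a : ℝ) / (r.den : ℝ) := by
    have := Rat.num_div_den r
    rw [ha] at this
    have h2 : ((((a : ℤ) : ℚ) / (r.den : ℚ) : ℚ) : ℝ) = (r : ℝ) := by
      exact_mod_cast congrArg (fun x : ℚ => (x : ℝ)) this
    rw [← h2]; push_cast; rfl
  have hden : (0:ℝ) < r.den := by exact_mod_cast r.den_pos
  rw [hra, div_eq_div_iff hden.ne' hlq.ne'] at hr
  have h3 : Real.log ((q:ℝ) ^ a) = Real.log ((p:ℝ) ^ r.den) := by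
    rw [Real.log_pow, Real.log_pow]
    linarith
  have h4 : (q:ℝ) ^ a = (p:ℝ) ^ r.den :=
    Real.log_injOn_pos (Set.mem_Ioi.mpr (by positivity)) (Set.mem_Ioi.mpr (by positivity)) h3
  have h5 : q ^ a = p ^ r.den := by exact_mod_cast h4
  have ha0 : a ≠ 0 := by
    rintro rfl
    rw [ha] at hnum
    simp at hnum
  have h6 : q ∣ p ^ r.den := by
    rw [← h5]; exact dvd_pow_self q ha0
  have h7 := hq.dvd_of_dvd_pow h6
  exact hpq ((Nat.prime_dvd_prime_iff_eq hq hp).mp h7).symm

end Pool.Agent.PisotNormal
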