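import Pool.Agent.PisotNormal.Assembly
import Pool.Agent.PisotNormal.Borel
import Pool.Agent.PisotNormal.Pisot

/-!
The union `U` is `Σ⁰₄`-complete and the intersection `I` is `Π⁰₃`-complete.
-/

set_option autoImplicit false

namespace Pool.Agent.PisotNormal

open Filter Topology TopologicalSpace

/-- The set where Weyl sums are at most `N / (k+1)` for all `N ≥ M`. -/
def weylBox (α : ℝ) (h : ℤ) (k M : ℕ) : Set ℝ :=
  ⋂ N ∈ Set.Ici M, {ξ : ℝ | ‖∑ m ∈ Finset.range N, ee (h * (ξ * α ^ m))‖ ≤ (N : ℝ) / ((k : ℝ) + 1)}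

lemma isClosed_weylBox (α : ℝ) (h : ℤ) (k M : ℕ) : IsClosed (weylBox α h k M) := by
  unfold weylBox
  refine isClosed_biInter (fun N _ => ?_)
  refine isClosed_le ?_ continuous_const
  refine Continuous.norm (continuous_finsetSum _ (fun m _ => ?_))
  exact continuous_ee.comp (by fun_prop)

lemma mem_normalSet_iff (α ξ : ℝ) : ξ ∈ normalSet α ↔
    ∀ p : {h : ℤ // h ≠ 0} × ℕ, ∃ M, ξ ∈ weylBox α p.1.1 p.2 M := by
  show UDModOne (fun n => ξ * α ^ n) ↔ _
  rw [udModOne_iff_weyl]
  constructor
  · rintro hw ⟨⟨h, hh⟩, k⟩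
    have h1 := (Metric.tendsto_nhds.mp (hw h hh)) (1 / ((k : ℝ) + 1)) (by positivity)
    obtain ⟨M, hM⟩ := Filter.eventually_atTop.mp (h1.and (eventually_gt_atTop 0))
    refine ⟨M, ?_⟩
    unfold weylBox
    simp only [Set.mem_iInter, Set.mem_Ici]
    intro N hN
    obtain ⟨h2, h3⟩ := hM N hN
    have h3' : (0:ℝ) < N := by exact_mod_cast h3
    rw [dist_zero_right, norm_div, Complex.norm_natCast, div_lt_iff₀ h3'] at h2
    refine h2.le.trans (le_of_eq ?_)
    ring
  · intro hbox h hh
    rw [Metric.tendsto_nhds]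
    intro ε hε
    obtain ⟨k, hk⟩ := exists_nat_one_div_lt hε
    obtain ⟨M, hM⟩ := hbox (⟨h, hh⟩, k)
    unfold weylBox at hM
    simp only [Set.mem_iInter, Set.mem_Ici] at hM
    filter_upwards [eventually_ge_atTop M, eventually_gt_atTop 0] with N hN hN0
    have hN0' : (0:ℝ) < N := by exact_mod_cast hN0
    have h2 : ‖∑ m ∈ Finset.range N, ee (h * (ξ * α ^ m))‖ ≤ (N : ℝ) / ((k : ℝ) + 1) := hM N hN
    rw [dist_zero_right, norm_div, Complex.norm_natCast, div_lt_iff₀ hN0']
    calc ‖∑ m ∈ Finset.range N, ee (h * (ξ * α ^ m))‖ ≤ (N : ℝ) / ((k : ℝ) + 1) := h2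
      _ = 1 / ((k : ℝ) + 1) * N := by ring
      _ < ε * N := by gcongr

lemma isSigma_two_iUnion_closed {X : Type*} [TopologicalSpace X] (F : ℕ → Set X)
    (hF : ∀ i, IsClosed (F i)) : IsSigma 2 (⋃ i, F i) :=
  IsSigma.iUnion F (fun _ => 1) (fun _ => le_refl _)
    (fun i => IsSigma.of_isOpen (hF i).isOpen_compl)

/-- A countable intersection of sets `𝒩(α)` is `Π⁰₃`. -/
lemma isPi_three_biInter (A : Set ℝ) (hA : A.Countable) (hne : A.Nonempty) :
    IsPi 3 (⋂ α ∈ A, normalSet α) := by
  have : Nonempty A := hne.to_subtype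
  have : Countable A := hA.to_subtype
  have : Nonempty {h : ℤ // h ≠ 0} := ⟨⟨1, one_ne_zero⟩⟩
  have e : (⋂ α ∈ A, normalSet α)ᶜ
      = ⋃ q : A × ({h : ℤ // h ≠ 0} × ℕ), (⋃ M, weylBox q.1.1 q.2.1.1 q.2.2 M)ᶜ := by
    ext ξ
    simp only [Set.mem_compl_iff, Set.mem_iInter, Set.mem_iUnion, mem_normalSet_iff]
    push Not
    constructor
    · rintro ⟨α, hα, p, hp⟩
      exact ⟨(⟨α, hα⟩, p), hp⟩
    · rintro ⟨⟨⟨α, hα⟩, p⟩, hp⟩
      exact ⟨α, hα, p, hp⟩
  unfold IsPi
  rw [e]
  apply isSigma_iUnion_countable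
  intro q
  rw [compl_compl]
  exact isSigma_two_iUnion_closed _ (fun M => isClosed_weylBox _ _ _ _)

lemma isPi_three_normalSet (α : ℝ) : IsPi 3 (normalSet α) := by
  have := isPi_three_biInter {α} (Set.countable_singleton α) (Set.singleton_nonempty α)
  simpa using this

lemma isSigma_four_biUnion (A : Set ℝ) (hA : A.Countable) (hne : A.Nonempty) :
    IsSigma 4 (⋃ α ∈ A, normalSet α) := by
  have : Nonempty A := hne.to_subtype
  have : Countable A := hA.to_subtype
  rw [Set.biUnion_eq_iUnion]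
  apply isSigma_iUnion_countable
  intro q
  exact isPi_three_normalSet _

lemma two_mem : (2:ℝ) ∈ {α : ℝ | IsPisot |α|} := by
  show IsPisot |(2:ℝ)|
  rw [abs_of_pos (by norm_num)]
  have := isPisot_natCast (n := 2) (le_refl _)
  simpa using this

/-- `I` is `Π⁰₃`-complete. -/
theorem piComplete_pisotInter.{u} : PiComplete.{u} 3 pisotInter := by
  refine ⟨isPi_three_biInter _ countable_isPisot_abs ⟨2, two_mem⟩, ?_⟩
  intro Y _ _ hY B hB
  have h2 : IsPisot (2:ℝ) := by
    have := isPisot_natCast (n := 2) (le_refl _)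
    simpa using this
  obtain ⟨β, hβ1, hβ2⟩ := exists_reduction_pi3 hY hB
  obtain ⟨Ξ, hΞ1, hΞ2⟩ := main_construction countable_isPisot_abs
    (fun α hα => hα.1) (fun _ => (2:ℝ)) (fun _ => ⟨h2.1, h2.summable⟩)
  refine ⟨fun y => Ξ (β y), hΞ1.comp hβ1, ?_⟩
  ext y
  rw [Set.mem_preimage]
  unfold pisotInter
  simp only [Set.mem_iInter]
  rw [hβ2]
  constructor
  · intro hlim α hα
    refine (hΞ2 (β y)).2 α hα (fun K => ?_)
    have h3 := (tendsto_atTop.mp hlim (K + 1))
    obtain ⟨s₀, hs₀⟩ := Filter.eventually_atTop.mp h3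
    refine (Set.finite_Iio s₀).subset ?_
    rintro s ⟨_, hs⟩
    rw [Set.mem_Iio]
    by_contra hcon
    push Not at hcon
    have := hs₀ s hcon
    omega
  · intro hall
    by_contra hlim
    rw [tendsto_atTop] at hlim
    push Not at hlim
    obtain ⟨b, hb⟩ := hlim
    -- infinitely many `s` with `β y s < b`, so some value is taken infinitely often
    have hinf : {s | β y s < b}.Infinite := by
      rw [← Nat.frequently_atTop_iff_infinite]
      refine hb.mono (fun s hs => ?_)
      omega
    have hex : ∃ K, {s | β y s = K}.Infinite := by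
      by_contra hcon
      push Not at hcon
      apply hinf
      have : {s | β y s < b} ⊆ ⋃ K ∈ Set.Iio b, {s | β y s = K} := by
        intro s hs
        simp only [Set.mem_iUnion]
        exact ⟨β y s, hs, rfl⟩
      exact ((Set.finite_Iio b).biUnion (fun K _ => hcon K)).subset this
    obtain ⟨K, hK⟩ := hex
    have h5 := (hΞ2 (β y)).1 2 K (by simpa using hK) 2 (Or.inl rfl)
    exact h5 (hall 2 two_mem)

/-- `U` is `Σ⁰₄`-complete. -/
theorem sigmaComplete_pisotUnion.{u} : SigmaComplete.{u} 4 pisotUnion := by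
  classical
  refine ⟨isSigma_four_biUnion _ countable_isPisot_abs ⟨2, two_mem⟩, ?_⟩
  intro Y _ _ hY B hB
  obtain ⟨β, hβ1, hβ2⟩ := exists_reduction_sigma4 hY hB
  -- enumeration of the Pisot numbers
  have hcount : {θ : ℝ | IsPisot θ}.Countable := by
    refine countable_isPisot_abs.mono (fun θ hθ => ?_)
    show IsPisot |θ|
    rw [abs_of_pos (by linarith [hθ.1])]
    exact hθ
  have h2 : IsPisot (2:ℝ) := by
    have := isPisot_natCast (n := 2) (le_refl _)
    simpa using this
  obtain ⟨e, he⟩ := hcount.exists_eq_range ⟨2, h2⟩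
  have he' : ∀ a, IsPisot (e a) := fun a => by
    have : e a ∈ {θ : ℝ | IsPisot θ} := by rw [he]; exact Set.mem_range_self a
    exact this
  set p : ℕ → ℕ := fun n => Nat.nth Nat.Prime n with hp
  have hpp : ∀ n, (p n).Prime := fun n => Nat.prime_nth_prime n
  have hpinj : Function.Injective p := Nat.nth_injective Nat.infinite_setOfPred_prime
  -- dependence of `e a` on the `n`-th prime
  set dep : ℕ → ℕ → Prop := fun n a => ¬ Irrational (Real.log (p n) / Real.log (e a)) with hdep
  have hdep_unique : ∀ n n' a, dep n a → dep n' a → n = n' := by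
    intro n n' a h h'
    by_contra hne
    have hirr := irrational_log_div_log (hpp n) (hpp n') (fun h => hne (hpinj h))
    simp only [hdep, Irrational, not_not] at h h'
    obtain ⟨r, hr⟩ := h
    obtain ⟨r', hr'⟩ := h'
    apply hirr
    refine ⟨r / r', ?_⟩
    push_cast
    rw [hr, hr']
    have h1 : 0 < Real.log (e a) := Real.log_pos (he' a).1
    have h3 : 0 < Real.log (p n') := Real.log_pos (by exact_mod_cast (hpp n').one_lt)
    field_simp
  -- the class function
  have hclex : ∀ a, ∃ n, (∃ m, dep m a) → dep n a := by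
    intro a
    by_cases h : ∃ m, dep m a
    · obtain ⟨m, hm⟩ := h
      exact ⟨m, fun _ => hm⟩
    · exact ⟨0, fun h' => absurd h' h⟩
  choose cl hcl using hclex
  -- the strengths
  set κ : (ℕ → ℕ → ℕ) → (ℕ → ℕ) := fun x s =>
    if (∃ n, dep n (Nat.unpair s).1) then x (cl (Nat.unpair s).1) (Nat.unpair s).2
      + (Nat.unpair s).1 else (Nat.unpair s).1 with hκ
  have hκc : Continuous κ := by
    rw [continuous_pi_iff]
    intro s
    simp only [hκ]
    by_cases h : ∃ n, dep n (Nat.unpair s).1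
    · simp only [if_pos h]
      have h1 : Continuous (fun x : ℕ → ℕ → ℕ => x (cl (Nat.unpair s).1) (Nat.unpair s).2) :=
        (continuous_apply _).comp (continuous_apply _)
      exact (continuous_of_discreteTopology (f := fun q : ℕ => q + (Nat.unpair s).1)).comp h1
    · simp only [if_neg h]
      exact continuous_const
  have hκ1 : ∀ x n a j, dep n a → κ x (Nat.pair a j) = x n j + a := by
    intro x n a j h
    have h4 : cl a = n := hdep_unique _ _ a (hcl a ⟨n, h⟩) h
    simp only [hκ, Nat.unpair_pair]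
    rw [if_pos ⟨n, h⟩, h4]
  have hκ2 : ∀ x a j, (¬ ∃ n, dep n a) → κ x (Nat.pair a j) = a := by
    intro x a j h
    simp only [hκ, Nat.unpair_pair]
    rw [if_neg h]
  obtain ⟨Ξ, hΞ1, hΞ2⟩ := main_construction countable_isPisot_abs
    (fun α hα => hα.1) (fun s => e (Nat.unpair s).1)
    (fun s => ⟨(he' _).1, (he' _).summable⟩)
  refine ⟨fun y => Ξ (κ (β y)), hΞ1.comp (hκc.comp hβ1), ?_⟩
  ext y
  rw [Set.mem_preimage]
  unfold pisotUnion
  simp only [Set.mem_iUnion, exists_prop]
  rw [hβ2]
  constructor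
  · -- keeping the `n`-th prime
    rintro ⟨n, hn⟩
    have hpn : IsPisot ((p n : ℕ) : ℝ) := isPisot_natCast (hpp n).two_le
    have hpn0 : (0:ℝ) < (p n : ℕ) := by linarith [hpn.1]
    have hmem : ((p n : ℕ) : ℝ) ∈ {α : ℝ | IsPisot |α|} := by
      show IsPisot |((p n : ℕ) : ℝ)|
      rw [abs_of_pos hpn0]
      exact hpn
    refine ⟨((p n : ℕ) : ℝ), hmem, (hΞ2 (κ (β y))).2 _ hmem (fun K => ?_)⟩
    have h3 := (tendsto_atTop.mp hn (K + 1))
    obtain ⟨j₀, hj₀⟩ := Filter.eventually_atTop.mp h3
    refine (((Set.finite_Iic K).prod (Set.finite_Iio j₀)).image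
      (fun q : ℕ × ℕ => Nat.pair q.1 q.2)).subset ?_
    rintro s ⟨hs1, hs2⟩
    rw [abs_of_pos hpn0] at hs1
    have hs3 := hκ1 (β y) n (Nat.unpair s).1 (Nat.unpair s).2 hs1
    rw [Nat.pair_unpair] at hs3
    rw [hs3] at hs2
    refine ⟨((Nat.unpair s).1, (Nat.unpair s).2), ⟨?_, ?_⟩, Nat.pair_unpair s⟩
    · rw [Set.mem_Iic]; omega
    · rw [Set.mem_Iio]
      by_contra hcon
      push Not at hcon
      have := hj₀ (Nat.unpair s).2 hcon
      omega
  · -- killing everything
    rintro ⟨α, hα, hmem⟩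
    by_contra hno
    push Not at hno
    obtain ⟨a, ha⟩ : ∃ a, e a = |α| := by
      have : |α| ∈ {θ : ℝ | IsPisot θ} := hα
      rw [he] at this
      exact this
    have hαcase : α = |α| ∨ α = -|α| := by
      rcases abs_choice α with h | h
      · exact Or.inl h.symm
      · right; rw [h, neg_neg]
    have hpairinj : Function.Injective (fun j => Nat.pair a j) := by
      intro j j' hjj
      simpa using congrArg (fun s => (Nat.unpair s).2) hjj
    -- it suffices to find `K` with infinitely many `j`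
    have hkill : ∀ K, {j | κ (β y) (Nat.pair a j) = K}.Infinite → False := by
      intro K hK
      have h4 : {s | e (Nat.unpair s).1 = |α| ∧ κ (β y) s = K}.Infinite := by
        refine (hK.image hpairinj.injOn).mono ?_
        rintro _ ⟨j, hj, rfl⟩
        refine ⟨?_, hj⟩
        rw [Nat.unpair_pair]
        exact ha
      exact (hΞ2 (κ (β y))).1 |α| K h4 α hαcase hmem
    by_cases hd : ∃ n, dep n a
    · obtain ⟨n, hn⟩ := hd
      have hlim := hno n
      rw [tendsto_atTop] at hlim
      push Not at hlim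
      obtain ⟨b, hb⟩ := hlim
      have hinf : {j | β y n j < b}.Infinite := by
        rw [← Nat.frequently_atTop_iff_infinite]
        refine hb.mono (fun s hs => ?_)
        omega
      have hex : ∃ K, {j | β y n j = K}.Infinite := by
        by_contra hcon
        push Not at hcon
        apply hinf
        have : {j | β y n j < b} ⊆ ⋃ K ∈ Set.Iio b, {j | β y n j = K} := by
          intro s hs
          simp only [Set.mem_iUnion]
          exact ⟨β y n s, hs, rfl⟩
        exact ((Set.finite_Iio b).biUnion (fun K _ => hcon K)).subset this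
      obtain ⟨K, hK⟩ := hex
      apply hkill (K + a)
      refine hK.mono (fun j hj => ?_)
      show κ (β y) (Nat.pair a j) = K + a
      rw [hκ1 _ n a j hn]
      have : β y n j = K := hj
      rw [this]
    · apply hkill a
      have : {j | κ (β y) (Nat.pair a j) = a} = Set.univ := by
        ext j
        simp only [Set.mem_univ, iff_true]
        exact hκ2 _ a j hd
      rw [this]
      exact Set.infinite_univ

end Pool.Agent.PisotNormal
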