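import Pool.Agent.PisotNormal.Window

/-!
Filler windows, biased windows, and the double step.
-/

set_option autoImplicit false

namespace Pool.Agent.PisotNormal

open Filter Topology MeasureTheory

/-! ### Distance to the nearest integer -/

lemma nn_le_abs (t : ℝ) : nn t ≤ |t| := by
  have := nn_le t 0
  simpa using this

lemma nn_add_le (s t : ℝ) : nn (s + t) ≤ nn s + nn t := by
  refine (nn_le (s + t) (round s + round t)).trans ?_
  unfold nn
  push_cast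
  have : s + t - (round s + round t) = (s - round s) + (t - round t) := by ring
  rw [this]
  exact abs_add_le _ _

lemma nn_int_mul_le (d : ℤ) (t : ℝ) : nn (d * t) ≤ |(d:ℝ)| * nn t := by
  refine (nn_le (d * t) (d * round t)).trans ?_
  unfold nn
  push_cast
  rw [← mul_sub, abs_mul]

/-! ### Choice of the number of skipped digits -/

lemma exists_skip {θ : ℝ} (hθ : 1 < θ) (A : ℝ) : ∃ k₀ : ℕ, A / θ ^ k₀ ≤ 1 := by
  have hθ0 : 0 < θ := by linarith
  obtain ⟨k, hk⟩ := ((tendsto_pow_atTop_atTop_of_one_lt hθ).eventually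
    (eventually_ge_atTop A)).exists
  exact ⟨k, by rw [div_le_one (pow_pos hθ0 k)]; exact hk⟩

lemma one_div_pow_ceil_le {θ : ℝ} (hθ : 1 < θ) (S : ℝ) :
    1 / θ ^ ⌈S / Real.log θ⌉₊ ≤ Real.exp (-S) := by
  have hθ0 : 0 < θ := by linarith
  have hlog : 0 < Real.log θ := Real.log_pos hθ
  rw [one_div, Real.exp_neg]
  apply inv_anti₀ (Real.exp_pos _)
  have h1 : S / Real.log θ ≤ ⌈S / Real.log θ⌉₊ := Nat.le_ceil _
  rw [div_le_iff₀ hlog] at h1
  calc Real.exp S ≤ Real.exp (⌈S / Real.log θ⌉₊ * Real.log θ) := Real.exp_le_exp.mpr h1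
    _ = θ ^ ⌈S / Real.log θ⌉₊ := by rw [Real.exp_nat_mul, Real.exp_log hθ0]

/-- Filler window. -/
theorem filler_window {θ : ℝ} (hθ : 1 < θ) (F : Finset (ℝ × ℤ))
    (hF : ∀ p ∈ F, 1 < |p.1| ∧ p.2 ≠ 0 ∧ Irrational (Real.log |p.1| / Real.log θ))
    {δ : ℝ} (hδ : 0 < δ) :
    ∀ᶠ S : ℝ in atTop, ∀ T : ℝ, S ≤ T → T ≤ 2 * S → ∀ x : ℝ,
      ∃ x' : ℝ, |x' - x| ≤ Real.exp (-S) ∧
        ∀ p ∈ F, ∀ m' ∈ Finset.Icc ⌈S / Real.log |p.1|⌉₊ ⌈T / Real.log |p.1|⌉₊,
          ‖WW p.1 p.2 x' ⌈S / Real.log |p.1|⌉₊ m'‖ ≤ δ * S := by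
  have hθ0 : 0 < θ := by linarith
  have hlog : 0 < Real.log θ := Real.log_pos hθ
  obtain ⟨k₀, hk₀⟩ := exists_skip hθ (1 / (θ - 1))
  filter_upwards [core_window hθ F hF (1 + k₀) hδ one_pos, eventually_gt_atTop 0]
    with S hS hS0 T hST hT2 x
  set m₁ := ⌈S / Real.log θ⌉₊ with hm₁
  set m₂ := ⌈T / Real.log θ⌉₊ with hm₂
  have hm12 : m₁ ≤ m₂ := Nat.ceil_le_ceil (by gcongr)
  have e1 : (m₁ : ℝ) < S / Real.log θ + 1 := Nat.ceil_lt_add_one (by positivity)
  have e2 : T / Real.log θ ≤ m₂ := Nat.le_ceil _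
  obtain ⟨x', h1, -, h3⟩ := hS T hST hT2 (m₁ + k₀) (m₂ - m₁)
    (by push_cast; linarith)
    (by
      have : m₁ + k₀ + (m₂ - m₁) = m₂ + k₀ := by omega
      rw [this]; push_cast
      have : (0:ℝ) ≤ k₀ := Nat.cast_nonneg _
      linarith) x (fun _ => 1) (fun _ => le_refl _) (by rw [avg_const])
  refine ⟨x', h1.trans ?_, h3⟩
  have h4 := one_div_pow_ceil_le hθ S
  rw [← hm₁] at h4
  calc 1 / θ ^ (m₁ + k₀) / (θ - 1) = (1 / θ ^ m₁) * (1 / (θ - 1) / θ ^ k₀) := by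
        rw [pow_add]; field_simp
    _ ≤ (1 / θ ^ m₁) * 1 := by gcongr
    _ ≤ Real.exp (-S) := by rw [mul_one]; exact h4

/-! ### Alignment -/

lemma exists_aligned {θ : ℝ} (hθ : 1 < θ) {R : ℝ} {x : ℝ} (hx : |x| ≤ R) (N : ℕ) :
    ∃ y : ℝ, |y - θ ^ N * x| ≤ 1 / 2 ∧
      ∀ i : ℕ, nn (θ ^ i * y) ≤ (R + θ + 1) * ∑ l ∈ Finset.Ico i (i + N + 1), nn (θ ^ l) := by
  have hθ0 : 0 < θ := by linarith
  have hR : 0 ≤ R := (abs_nonneg x).trans hx
  induction N with
  | zero =>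
    refine ⟨round x, ?_, ?_⟩
    · rw [pow_zero, one_mul, abs_sub_comm]; exact abs_sub_round x
    · intro i
      rw [mul_comm]
      refine (nn_int_mul_le _ _).trans ?_
      have h1 : |((round x : ℤ) : ℝ)| ≤ R + θ + 1 := by
        have : ((round x : ℤ) : ℝ) = x - (x - round x) := by ring
        rw [this]
        refine (abs_sub _ _).trans ?_
        have := abs_sub_round x
        linarith
      have h2 : ∑ l ∈ Finset.Ico i (i + 0 + 1), nn (θ ^ l) = nn (θ ^ i) := by simp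
      rw [h2]
      exact mul_le_mul_of_nonneg_right h1 (nn_nonneg _)
  | succ N ih =>
    obtain ⟨y, hy1, hy2⟩ := ih
    set d : ℤ := round (θ ^ (N + 1) * x - θ * y) with hd
    refine ⟨θ * y + d, ?_, ?_⟩
    · have h1 := abs_sub_round (θ ^ (N + 1) * x - θ * y)
      rw [← hd] at h1
      have : θ * y + d - θ ^ (N + 1) * x = -(θ ^ (N + 1) * x - θ * y - d) := by ring
      rw [this, abs_neg]
      exact h1
    · intro i
      have h1 : θ ^ i * (θ * y + d) = θ ^ (i + 1) * y + d * θ ^ i := by ring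
      rw [h1]
      refine (nn_add_le _ _).trans ?_
      have h2 := hy2 (i + 1)
      have h3 := nn_int_mul_le d (θ ^ i)
      have h4 : |(d:ℝ)| ≤ R + θ + 1 := by
        have e : (d : ℝ) = (θ ^ (N + 1) * x - θ * y) - (θ ^ (N + 1) * x - θ * y - d) := by ring
        rw [e]
        refine (abs_sub _ _).trans ?_
        have h5 := abs_sub_round (θ ^ (N + 1) * x - θ * y)
        rw [← hd] at h5
        have h6 : θ ^ (N + 1) * x - θ * y = -(θ * (y - θ ^ N * x)) := by ring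
        have h7 : |θ ^ (N + 1) * x - θ * y| ≤ θ * (1 / 2) := by
          rw [h6, abs_neg, abs_mul, abs_of_pos hθ0]
          exact mul_le_mul_of_nonneg_left hy1 hθ0.le
        linarith
      have h5 : |(d:ℝ)| * nn (θ ^ i) ≤ (R + θ + 1) * nn (θ ^ i) :=
        mul_le_mul_of_nonneg_right h4 (nn_nonneg _)
      have h6 : ∑ l ∈ Finset.Ico i (i + (N + 1) + 1), nn (θ ^ l)
          = nn (θ ^ i) + ∑ l ∈ Finset.Ico (i + 1) (i + 1 + N + 1), nn (θ ^ l) := by
        rw [Finset.sum_eq_sum_Ico_succ_bot (by omega)]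
        congr 3
        ring
      rw [h6, mul_add]
      linarith

/-! ### The lower bound for the product along powers of a Pisot-like number -/

lemma exp_le_one_sub {u : ℝ} (h0 : 0 ≤ u) (h1 : u ≤ 1 / 2) : Real.exp (-(2 * u)) ≤ 1 - u := by
  rw [Real.exp_neg]
  have h2 : 1 + 2 * u ≤ Real.exp (2 * u) := by
    have := Real.add_one_le_exp (2 * u); linarith
  have h3 : (Real.exp (2 * u))⁻¹ ≤ (1 + 2 * u)⁻¹ := inv_anti₀ (by linarith) h2
  refine h3.trans ?_
  rw [inv_le_iff_one_le_mul₀ (by linarith)]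
  nlinarith

lemma exists_Phi_lower {θ : ℝ} (hθ : 1 < θ) (hsum : Summable (fun i : ℕ => nn (θ ^ i))) :
    ∃ c₁ : ℝ, 0 < c₁ ∧ c₁ ≤ 1 ∧ ∀ N₁ N₂ m : ℕ, c₁ ≤ Phi θ N₁ N₂ (θ ^ m) := by
  have hθ0 : 0 < θ := by linarith
  have hinv0 : 0 ≤ θ⁻¹ := by positivity
  have hinv1 : θ⁻¹ < 1 := inv_lt_one_of_one_lt₀ hθ
  set M : ℝ := ∑' i : ℕ, nn (θ ^ i) + ∑' i : ℕ, (θ⁻¹) ^ i with hM
  have hM0 : 0 ≤ M := add_nonneg (tsum_nonneg (fun i => nn_nonneg _))
    (tsum_nonneg (fun i => by positivity))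
  refine ⟨Real.exp (-(4 * M)), Real.exp_pos _, by rw [Real.exp_le_one_iff]; linarith, ?_⟩
  intro N₁ N₂ m
  have h1 : ∑ j ∈ Finset.Ioc N₁ N₂, nn (θ ^ m / θ ^ j) ≤ M := by
    have hs1 : ∑ j ∈ Finset.Ioc N₁ N₂, nn (θ ^ m / θ ^ j)
        ≤ ∑ j ∈ (Finset.Ioc N₁ N₂).filter (fun j => j ≤ m), nn (θ ^ (m - j))
          + ∑ j ∈ (Finset.Ioc N₁ N₂).filter (fun j => ¬ j ≤ m), (θ⁻¹) ^ (j - m) := by
      rw [← Finset.sum_filter_add_sum_filter_not (Finset.Ioc N₁ N₂) (fun j => j ≤ m)]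
      apply add_le_add
      · refine Finset.sum_le_sum (fun j hj => le_of_eq ?_)
        rw [Finset.mem_filter] at hj
        congr 1
        rw [div_eq_iff (pow_pos hθ0 _).ne', ← pow_add]
        congr 1; omega
      · refine Finset.sum_le_sum (fun j hj => ?_)
        rw [Finset.mem_filter] at hj
        refine (nn_le_abs _).trans (le_of_eq ?_)
        rw [abs_of_pos (by positivity), inv_pow, div_eq_iff (pow_pos hθ0 _).ne',
          inv_mul_eq_div, eq_div_iff (pow_pos hθ0 _).ne', ← pow_add]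
        congr 1; omega
    refine hs1.trans (add_le_add ?_ ?_)
    · have hinj : Set.InjOn (fun j => m - j)
          ((Finset.Ioc N₁ N₂).filter (fun j => j ≤ m) : Set ℕ) := by
        intro i hi j hj hij
        simp only [Finset.coe_filter, Finset.mem_Ioc, Set.mem_ofPred_eq] at hi hj
        simp only at hij
        omega
      rw [← Finset.sum_image (f := fun i => nn (θ ^ i)) hinj]
      exact hsum.sum_le_tsum _ (fun i _ => nn_nonneg _)
    · have hinj : Set.InjOn (fun j => j - m)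
          ((Finset.Ioc N₁ N₂).filter (fun j => ¬ j ≤ m) : Set ℕ) := by
        intro i hi j hj hij
        simp only [Finset.coe_filter, Finset.mem_Ioc, Set.mem_ofPred_eq] at hi hj
        simp only at hij
        omega
      rw [← Finset.sum_image (f := fun i => (θ⁻¹) ^ i) hinj]
      exact (summable_geometric_of_lt_one hinv0 hinv1).sum_le_tsum _ (fun i _ => by positivity)
  unfold Phi
  calc Real.exp (-(4 * M)) ≤ Real.exp (∑ j ∈ Finset.Ioc N₁ N₂, (-(2 * (2 * nn (θ ^ m / θ ^ j))))) := by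
        apply Real.exp_le_exp.mpr
        rw [Finset.sum_neg_distrib]
        rw [← Finset.mul_sum, ← Finset.mul_sum]
        linarith
    _ = ∏ j ∈ Finset.Ioc N₁ N₂, Real.exp (-(2 * (2 * nn (θ ^ m / θ ^ j)))) := Real.exp_sum _ _
    _ ≤ ∏ j ∈ Finset.Ioc N₁ N₂, phi (θ ^ m / θ ^ j) := by
        refine Finset.prod_le_prod (fun _ _ => (Real.exp_pos _).le) (fun j _ => ?_)
        have h2 := one_sub_phi_le (θ ^ m / θ ^ j)
        have h3 := phi_ge_half (θ ^ m / θ ^ j)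
        have h4 := phi_le_one (θ ^ m / θ ^ j)
        have h5 := exp_le_one_sub (u := 1 - phi (θ ^ m / θ ^ j)) (by linarith) (by linarith)
        have h6 : Real.exp (-(2 * (2 * nn (θ ^ m / θ ^ j))))
            ≤ Real.exp (-(2 * (1 - phi (θ ^ m / θ ^ j)))) := by
          apply Real.exp_le_exp.mpr; linarith
        linarith

lemma half_le_cos {t : ℝ} (h : nn t ≤ 1 / 6) : 1 / 2 ≤ Real.cos (2 * Real.pi * t) := by
  rw [cos_two_pi_eq, ← Real.cos_pi_div_three]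
  have hp := Real.pi_pos
  have h0 := nn_nonneg t
  apply Real.cos_le_cos_of_nonneg_of_le_pi
  · positivity
  · linarith
  · nlinarith

lemma WW_re (α : ℝ) (x : ℝ) (m₁ m₂ : ℕ) :
    (WW α 1 x m₁ m₂).re = ∑ m ∈ Finset.Ico m₁ m₂, Real.cos (2 * Real.pi * (α ^ m * x)) := by
  unfold WW
  rw [Complex.re_sum]
  refine Finset.sum_congr rfl (fun m _ => ?_)
  rw [ee_re]
  congr 2
  push_cast
  ring

lemma WW_neg_re (α : ℝ) (x : ℝ) (m₁ m₂ : ℕ) :
    (WW (-α) 1 x m₁ m₂).re = (WW α 1 x m₁ m₂).re := by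
  rw [WW_re, WW_re]
  refine Finset.sum_congr rfl (fun m _ => ?_)
  rcases Nat.even_or_odd m with h | h
  · rw [h.neg_pow]
  · rw [h.neg_pow, neg_mul, mul_neg, Real.cos_neg]

/-- Biased window. -/
theorem bias_window {θ : ℝ} (hθ : 1 < θ) (hsum : Summable (fun i : ℕ => nn (θ ^ i))) :
    ∃ c : ℝ, 0 < c ∧ ∀ (F : Finset (ℝ × ℤ)),
    (∀ p ∈ F, 1 < |p.1| ∧ p.2 ≠ 0 ∧ Irrational (Real.log |p.1| / Real.log θ)) →
    ∀ {δ : ℝ}, 0 < δ → ∀ (R : ℝ), 0 ≤ R →
    ∀ᶠ S : ℝ in atTop, ∀ T : ℝ, S ≤ T → T ≤ 2 * S → ∀ x : ℝ, |x| ≤ R →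
      ∃ x' : ℝ, |x' - x| ≤ Real.exp (-S) ∧
        (∀ p ∈ F, ∀ m' ∈ Finset.Icc ⌈S / Real.log |p.1|⌉₊ ⌈T / Real.log |p.1|⌉₊,
          ‖WW p.1 p.2 x' ⌈S / Real.log |p.1|⌉₊ m'‖ ≤ δ * S) ∧
        c * ((⌈T / Real.log θ⌉₊ - ⌈S / Real.log θ⌉₊ : ℕ) : ℝ) - δ * S
          ≤ (WW θ 1 x' ⌈S / Real.log θ⌉₊ ⌈T / Real.log θ⌉₊).re := by
  have hθ0 : 0 < θ := by linarith
  have hlog : 0 < Real.log θ := Real.log_pos hθ
  obtain ⟨c₁, hc₁0, hc₁1, hc₁⟩ := exists_Phi_lower hθ hsum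
  refine ⟨c₁ / 4, by positivity, ?_⟩
  intro F hF δ hδ R hR
  obtain ⟨k₀, hk₀⟩ := exists_skip hθ (1 / (θ - 1) + 1 / 2)
  -- tail
  have htail : ∃ L₀ : ℕ, ∀ i, L₀ ≤ i → ∀ N : ℕ,
      (R + θ + 1) * ∑ l ∈ Finset.Ico i (i + N + 1), nn (θ ^ l) ≤ 1 / 6 := by
    have hD : 0 < R + θ + 1 := by linarith
    have hcs := hsum.vanishing (e := Set.Iio (1 / (6 * (R + θ + 1)))) (Iio_mem_nhds (by positivity))
    obtain ⟨s, hs⟩ := hcs
    obtain ⟨L₀, hL₀⟩ := s.exists_nat_subset_range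
    refine ⟨L₀, fun i hi N => ?_⟩
    have h1 := hs (Finset.Ico i (i + N + 1)) (by
      rw [Finset.disjoint_left]
      intro a ha ha2
      have := hL₀ ha2
      rw [Finset.mem_range] at this
      rw [Finset.mem_Ico] at ha
      omega)
    rw [Set.mem_Iio] at h1
    have h2 := mul_le_mul_of_nonneg_left h1.le hD.le
    refine h2.trans (le_of_eq ?_)
    field_simp
  obtain ⟨L₀, hL₀⟩ := htail
  set A := 1 / Real.log θ with hA
  have hA0 : 0 < A := by positivity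
  set M := A + 1 + δ with hM
  have hM0 : 0 < M := by positivity
  filter_upwards [core_window hθ F hF (1 + k₀) hδ (c := δ / (2 * M)) (by positivity),
    eventually_ge_atTop 1, eventually_ge_atTop (4 * (k₀ + L₀) / δ)]
    with S hS hS1 hS2 T hST hT2 x hx
  have hS0 : 0 < S := by linarith
  set m₁ := ⌈S / Real.log θ⌉₊ with hm₁
  set m₂ := ⌈T / Real.log θ⌉₊ with hm₂
  have hT0 : 0 < T := by linarith
  have hm12 : m₁ ≤ m₂ := Nat.ceil_le_ceil (by gcongr)
  have e0 : S / Real.log θ ≤ m₁ := Nat.le_ceil _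
  have e1 : (m₁ : ℝ) < S / Real.log θ + 1 := Nat.ceil_lt_add_one (by positivity)
  have e2 : T / Real.log θ ≤ m₂ := Nat.le_ceil _
  have e3 : (m₂ : ℝ) < T / Real.log θ + 1 := Nat.ceil_lt_add_one (by positivity)
  set L := m₂ - m₁ with hL
  have hLA : (L : ℝ) ≤ (A + 1) * S := by
    rw [hL, Nat.cast_sub hm12]
    have : T / Real.log θ ≤ 2 * S / Real.log θ := by gcongr
    have h3 : 2 * S / Real.log θ = S / Real.log θ + A * S := by rw [hA]; ring
    nlinarith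
  -- aligned point
  set N₁ := m₁ + k₀ with hN₁
  obtain ⟨y, hy1, hy2⟩ := exists_aligned hθ hx N₁
  set x₀ := y / θ ^ N₁ with hx₀
  have hθN : 0 < θ ^ N₁ := pow_pos hθ0 _
  have hx₀x : |x₀ - x| ≤ (1 / 2) / θ ^ N₁ := by
    have : x₀ - x = (y - θ ^ N₁ * x) / θ ^ N₁ := by
      rw [hx₀]; field_simp
    rw [this, abs_div, abs_of_pos hθN]
    gcongr
  -- the objective
  set Y : ℝ → ℝ := fun z => (WW θ 1 z m₁ m₂).re with hY
  have hYL : ∀ z, Y z ≤ L := by
    intro z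
    have h1 := Complex.re_le_norm (WW θ 1 z m₁ m₂)
    exact h1.trans (norm_WW_le _ _ _ _ _)
  set Z : ℝ → ℝ := fun z => (1 / (M * S)) * (Y z - (c₁ / 4 * L - δ * S)) with hZ
  have hMS : 0 < M * S := by positivity
  have hZ1 : ∀ z, Z z ≤ 1 := by
    intro z
    rw [hZ]
    simp only
    rw [one_div, inv_mul_le_iff₀ hMS, mul_one]
    have h1 := hYL z
    have h2 : 0 ≤ c₁ / 4 * L := by positivity
    have : M * S = (A + 1) * S + δ * S := by rw [hM]; ring
    linarith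
  -- average of the objective
  have havgY : c₁ / 2 * L - 2 * (k₀ + L₀) ≤ avg θ N₁ L Y x₀ := by
    have hYeq : Y = fun z => ∑ m ∈ Finset.Ico m₁ m₂, Real.cos (2 * Real.pi * (θ ^ m * z)) := by
      funext z; rw [hY]; exact WW_re _ _ _ _
    rw [hYeq, avg_sum]
    have hterm : ∀ m ∈ Finset.Ico m₁ m₂,
        c₁ / 2 - (if m < N₁ + L₀ then 2 else 0)
          ≤ avg θ N₁ L (fun z => Real.cos (2 * Real.pi * (θ ^ m * z))) x₀ := by
      intro m _
      rw [avg_cos]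
      have h1 := hc₁ N₁ (N₁ + L) m
      have h2 := Phi_le_one θ N₁ (N₁ + L) (θ ^ m)
      split_ifs with hc
      · have h3 := Real.neg_one_le_cos (2 * Real.pi * (θ ^ m * x₀))
        nlinarith
      · have h4 : θ ^ m * x₀ = θ ^ (m - N₁) * y := by
          rw [hx₀]
          have : θ ^ m = θ ^ (m - N₁) * θ ^ N₁ := by
            rw [← pow_add]; congr 1; omega
          rw [this]; field_simp
        have h5 : nn (θ ^ m * x₀) ≤ 1 / 6 := by
          rw [h4]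
          exact (hy2 (m - N₁)).trans (hL₀ (m - N₁) (by omega) N₁)
        have h6 := half_le_cos h5
        nlinarith
    refine le_trans ?_ (Finset.sum_le_sum hterm)
    rw [Finset.sum_sub_distrib, Finset.sum_const, Nat.card_Ico, nsmul_eq_mul, ← hL,
      ← Finset.sum_filter, Finset.sum_const, nsmul_eq_mul]
    have hcard : (Finset.filter (fun m => m < N₁ + L₀) (Finset.Ico m₁ m₂)).card ≤ k₀ + L₀ := by
      have hsub : (Finset.filter (fun m => m < N₁ + L₀) (Finset.Ico m₁ m₂)) ⊆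
          Finset.Ico m₁ (m₁ + (k₀ + L₀)) := by
        intro m hm
        rw [Finset.mem_filter, Finset.mem_Ico] at hm
        rw [Finset.mem_Ico]
        omega
      have := Finset.card_le_card hsub
      rw [Nat.card_Ico] at this
      omega
    have hcard' : ((Finset.filter (fun m => m < N₁ + L₀) (Finset.Ico m₁ m₂)).card : ℝ)
        ≤ k₀ + L₀ := by exact_mod_cast hcard
    nlinarith
  have havgZ : δ / (2 * M) ≤ avg θ N₁ L Z x₀ := by
    rw [hZ, avg_smul, avg_sub, avg_const]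
    have h1 : 4 * (k₀ + L₀) ≤ δ * S := by
      rw [div_le_iff₀ hδ] at hS2
      linarith
    rw [one_div, inv_mul_eq_div, div_le_div_iff₀ (by positivity) hMS]
    have h2 : 0 ≤ c₁ / 4 * (L:ℝ) := by positivity
    have h3 : δ * S / 2 ≤ avg θ N₁ L Y x₀ - (c₁ / 4 * L - δ * S) := by linarith
    have h4 := mul_le_mul_of_nonneg_right h3 (by positivity : 0 ≤ 2 * M)
    calc δ * (M * S) = δ * S / 2 * (2 * M) := by ring
      _ ≤ _ := h4
  obtain ⟨x', h1, h2, h3⟩ := hS T hST hT2 N₁ L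
    (by rw [hN₁]; push_cast; linarith)
    (by
      have : N₁ + L = m₂ + k₀ := by omega
      rw [this]; push_cast
      have : (0:ℝ) ≤ k₀ := Nat.cast_nonneg _
      linarith) x₀ Z hZ1 havgZ
  refine ⟨x', ?_, h3, ?_⟩
  · have h4 := one_div_pow_ceil_le hθ S
    rw [← hm₁] at h4
    calc |x' - x| = |(x' - x₀) + (x₀ - x)| := by congr 1; ring
      _ ≤ |x' - x₀| + |x₀ - x| := abs_add_le _ _
      _ ≤ 1 / θ ^ N₁ / (θ - 1) + (1 / 2) / θ ^ N₁ := add_le_add h1 hx₀x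
      _ = (1 / θ ^ m₁) * ((1 / (θ - 1) + 1 / 2) / θ ^ k₀) := by
          rw [hN₁, pow_add]
          have : θ - 1 ≠ 0 := by linarith
          field_simp
      _ ≤ (1 / θ ^ m₁) * 1 := by gcongr
      _ ≤ Real.exp (-S) := by rw [mul_one]; exact h4
  · have h5 : 0 < Z x' := lt_of_lt_of_le (by positivity) h2
    rw [hZ] at h5
    simp only at h5
    have h6 : 0 < Y x' - (c₁ / 4 * L - δ * S) := by
      by_contra hcon
      push Not at hcon
      have : (1 / (M * S)) * (Y x' - (c₁ / 4 * L - δ * S)) ≤ 0 :=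
        mul_nonpos_of_nonneg_of_nonpos (by positivity) hcon
      linarith
    linarith

end Pool.Agent.PisotNormal
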