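import Pool.Agent.PisotNormal.Defs

/-!
Weyl's criterion for uniform distribution modulo one, in a form with an arbitrary index filter.
-/

set_option autoImplicit false

namespace Pool.Agent.PisotNormal

open Filter Topology MeasureTheory

/-- The additive character `x ↦ exp (2 π i x)`. -/
noncomputable def ee (x : ℝ) : ℂ := Complex.exp (2 * Real.pi * x * Complex.I)

lemma ee_eq (x : ℝ) : ee x = Complex.exp (((2 * Real.pi * x : ℝ) : ℂ) * Complex.I) := by
  unfold ee; push_cast; ring_nf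

@[simp] lemma norm_ee (x : ℝ) : ‖ee x‖ = 1 := by
  rw [ee_eq, Complex.norm_exp_ofReal_mul_I]

lemma ee_re (x : ℝ) : (ee x).re = Real.cos (2 * Real.pi * x) := by
  rw [ee_eq, Complex.exp_ofReal_mul_I_re]

lemma ee_im (x : ℝ) : (ee x).im = Real.sin (2 * Real.pi * x) := by
  rw [ee_eq, Complex.exp_ofReal_mul_I_im]

lemma ee_add (x y : ℝ) : ee (x + y) = ee x * ee y := by
  unfold ee; rw [← Complex.exp_add]; push_cast; ring_nf

@[simp] lemma ee_zero : ee 0 = 1 := by simp [ee]

lemma ee_int (n : ℤ) : ee n = 1 := by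
  unfold ee
  rw [Complex.exp_eq_one_iff]
  exact ⟨n, by push_cast; ring⟩

lemma ee_add_int (x : ℝ) (n : ℤ) : ee (x + n) = ee x := by
  rw [ee_add, ee_int, mul_one]

lemma ee_nat_mul (x : ℝ) (n : ℕ) : ee (n * x) = ee x ^ n := by
  unfold ee; rw [← Complex.exp_nat_mul]; push_cast; ring_nf

lemma norm_ee_sub_ee_le (x y : ℝ) : ‖ee x - ee y‖ ≤ 2 * Real.pi * |x - y| := by
  have h1 : ee x - ee y = ee y * (ee (x - y) - 1) := by
    rw [mul_sub, ← ee_add]; simp
  rw [h1, norm_mul, norm_ee, one_mul]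
  rw [ee_eq]
  have := Real.norm_exp_I_mul_ofReal_sub_one_le (x := 2 * Real.pi * (x - y))
  rw [mul_comm Complex.I] at this
  refine this.trans ?_
  rw [Real.norm_eq_abs, abs_mul, abs_of_pos (by positivity)]

lemma continuous_ee : Continuous ee := by
  unfold ee; fun_prop

lemma ee_eq_one_iff (x : ℝ) : ee x = 1 ↔ ∃ n : ℤ, x = n := by
  constructor
  · intro h
    unfold ee at h
    rw [Complex.exp_eq_one_iff] at h
    obtain ⟨n, hn⟩ := h
    refine ⟨n, ?_⟩
    have h2 : (2 * Real.pi * Complex.I : ℂ) ≠ 0 := Complex.two_pi_I_ne_zero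
    have h3 : (2 * Real.pi * Complex.I : ℂ) * (x : ℂ) = (2 * Real.pi * Complex.I) * (n : ℂ) := by
      rw [mul_comm (2 * Real.pi * Complex.I : ℂ) (n : ℂ), ← hn]; ring
    have h4 := mul_left_cancel₀ h2 h3
    exact_mod_cast h4
  · rintro ⟨n, rfl⟩
    exact ee_int n

lemma fourier_one_coe (k : ℤ) (x : ℝ) : fourier (T := (1:ℝ)) k (x : AddCircle (1:ℝ)) = ee (k * x) := by
  rw [fourier_coe_apply]
  unfold ee
  congr 1
  push_cast
  ring

/-- General form of the sufficiency half of Weyl's criterion. -/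
theorem tendsto_avg_continuous {ι : Type*} {l : Filter ι} (N : ι → ℕ) (u : ι → ℕ → ℝ)
    (hN : ∀ᶠ i in l, 0 < N i)
    (h : ∀ k : ℤ, k ≠ 0 →
      Tendsto (fun i => (∑ m ∈ Finset.range (N i), ee (k * u i m)) / (N i : ℂ)) l (𝓝 0))
    (f : C(AddCircle (1:ℝ), ℂ)) :
    Tendsto (fun i => (∑ m ∈ Finset.range (N i), f (u i m : AddCircle (1:ℝ))) / (N i : ℂ)) l
      (𝓝 (∫ x, f x ∂(AddCircle.haarAddCircle (T := (1:ℝ))))) := by
  -- the property for trigonometric polynomials
  have key : ∀ g ∈ Submodule.span ℂ (Set.range (fourier (T := (1:ℝ)))),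
      Tendsto (fun i => (∑ m ∈ Finset.range (N i), g (u i m : AddCircle (1:ℝ))) / (N i : ℂ)) l
      (𝓝 (∫ x, g x ∂(AddCircle.haarAddCircle (T := (1:ℝ))))) := by
    intro g hg
    induction hg using Submodule.span_induction with
    | mem x hx =>
      obtain ⟨k, rfl⟩ := hx
      by_cases hk : k = 0
      · subst hk
        have : (∫ x, (fourier (T := (1:ℝ)) 0) x ∂(AddCircle.haarAddCircle (T := (1:ℝ)))) = 1 := by
          simp
        rw [this]
        refine (tendsto_congr' ?_).mpr tendsto_const_nhds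
        filter_upwards [hN] with i hi
        have : (N i : ℂ) ≠ 0 := by exact_mod_cast hi.ne'
        simp [this]
      · have h0 : (∫ x, (fourier (T := (1:ℝ)) k) x ∂(AddCircle.haarAddCircle (T := (1:ℝ)))) = 0 := by
          exact integral_eq_zero_of_add_right_eq_neg (μ := AddCircle.haarAddCircle)
            (fourier_add_half_inv_index hk one_pos)
        rw [h0]
        refine (h k hk).congr (fun i => ?_)
        simp only [fourier_one_coe]
    | zero =>
      simp only [ContinuousMap.zero_apply, Finset.sum_const_zero, zero_div, integral_zero]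
      exact tendsto_const_nhds
    | add x y hx hy hx' hy' =>
      have h1 : (∫ z, (x + y) z ∂(AddCircle.haarAddCircle (T := (1:ℝ))))
          = (∫ z, x z ∂(AddCircle.haarAddCircle (T := (1:ℝ))))
            + ∫ z, y z ∂(AddCircle.haarAddCircle (T := (1:ℝ))) := by
        simp only [ContinuousMap.add_apply]
        exact integral_add (x.continuous.integrable_of_hasCompactSupport
            (HasCompactSupport.of_compactSpace _))
          (y.continuous.integrable_of_hasCompactSupport (HasCompactSupport.of_compactSpace _))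
      rw [h1]
      refine (hx'.add hy').congr (fun i => ?_)
      simp only [ContinuousMap.add_apply, Finset.sum_add_distrib, add_div]
    | smul a x hx hx' =>
      have h1 : (∫ z, (a • x) z ∂(AddCircle.haarAddCircle (T := (1:ℝ))))
          = a * (∫ z, x z ∂(AddCircle.haarAddCircle (T := (1:ℝ)))) := by
        simp only [ContinuousMap.smul_apply, smul_eq_mul]
        exact integral_const_mul _ _
      rw [h1]
      refine (hx'.const_mul a).congr (fun i => ?_)
      simp only [ContinuousMap.smul_apply, smul_eq_mul, ← Finset.mul_sum, mul_div_assoc]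
  -- approximate
  rw [Metric.tendsto_nhds]
  intro ε hε
  have hf : f ∈ (Submodule.span ℂ (Set.range (fourier (T := (1:ℝ))))).topologicalClosure := by
    rw [span_fourier_closure_eq_top]; trivial
  rw [← SetLike.mem_coe, Submodule.topologicalClosure_coe, Metric.mem_closure_iff] at hf
  obtain ⟨g, hg, hfg⟩ := hf (ε / 3) (by positivity)
  have hk := (Metric.tendsto_nhds.mp (key g hg)) (ε / 3) (by positivity)
  filter_upwards [hk, hN] with i hi hNi
  have hNi' : (0 : ℝ) < N i := by exact_mod_cast hNi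
  have e1 : dist ((∑ m ∈ Finset.range (N i), f (u i m : AddCircle (1:ℝ))) / (N i : ℂ))
      ((∑ m ∈ Finset.range (N i), g (u i m : AddCircle (1:ℝ))) / (N i : ℂ)) ≤ dist f g := by
    rw [dist_eq_norm, ← sub_div, ← Finset.sum_sub_distrib, norm_div, Complex.norm_natCast,
      div_le_iff₀ hNi']
    calc ‖∑ m ∈ Finset.range (N i), (f (u i m : AddCircle (1:ℝ)) - g (u i m : AddCircle (1:ℝ)))‖
        ≤ ∑ m ∈ Finset.range (N i), ‖f (u i m : AddCircle (1:ℝ)) - g (u i m : AddCircle (1:ℝ))‖ :=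
          norm_sum_le _ _
      _ ≤ ∑ m ∈ Finset.range (N i), dist f g := by
          refine Finset.sum_le_sum (fun m _ => ?_)
          rw [← dist_eq_norm]
          exact ContinuousMap.dist_apply_le_dist _
      _ = dist f g * N i := by simp [mul_comm]
  have e2 : dist (∫ x, g x ∂(AddCircle.haarAddCircle (T := (1:ℝ))))
      (∫ x, f x ∂(AddCircle.haarAddCircle (T := (1:ℝ)))) ≤ dist f g := by
    rw [dist_eq_norm, ← integral_sub
      (g.continuous.integrable_of_hasCompactSupport (HasCompactSupport.of_compactSpace _))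
      (f.continuous.integrable_of_hasCompactSupport (HasCompactSupport.of_compactSpace _))]
    have := norm_integral_le_of_norm_le_const (μ := AddCircle.haarAddCircle (T := (1:ℝ)))
      (f := fun x => g x - f x) (C := dist f g) (Filter.Eventually.of_forall (fun x => by
        rw [← dist_eq_norm, dist_comm]; exact ContinuousMap.dist_apply_le_dist _))
    simpa using this
  calc dist ((∑ m ∈ Finset.range (N i), f (u i m : AddCircle (1:ℝ))) / (N i : ℂ))
        (∫ x, f x ∂(AddCircle.haarAddCircle (T := (1:ℝ))))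
      ≤ dist f g + (ε / 3) + dist f g := by
        have h4 := dist_triangle4
          ((∑ m ∈ Finset.range (N i), f (u i m : AddCircle (1:ℝ))) / (N i : ℂ))
          ((∑ m ∈ Finset.range (N i), g (u i m : AddCircle (1:ℝ))) / (N i : ℂ))
          (∫ x, g x ∂(AddCircle.haarAddCircle (T := (1:ℝ))))
          (∫ x, f x ∂(AddCircle.haarAddCircle (T := (1:ℝ))))
        linarith [e1, e2, hi.le, h4]
    _ < ε := by linarith

lemma coe_fract_addCircle (x : ℝ) :
    ((Int.fract x : ℝ) : AddCircle (1:ℝ)) = (x : AddCircle (1:ℝ)) := by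
  have : (((x : ℝ) - Int.fract x : ℝ) : AddCircle (1:ℝ)) = 0 := by
    rw [AddCircle.coe_eq_zero_iff]
    refine ⟨⌊x⌋, ?_⟩
    simp [Int.self_sub_fract]
  rw [AddCircle.coe_sub, sub_eq_zero] at this
  exact this.symm

/-- Weyl sums small implies convergence of averages of `f (fract u)` for `f` continuous on
`[0,1]` with `f 0 = f 1`. -/
theorem tendsto_avg_fract {ι : Type*} {l : Filter ι} (N : ι → ℕ) (u : ι → ℕ → ℝ)
    (hN : ∀ᶠ i in l, 0 < N i)
    (h : ∀ k : ℤ, k ≠ 0 →
      Tendsto (fun i => (∑ m ∈ Finset.range (N i), ee (k * u i m)) / (N i : ℂ)) l (𝓝 0))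
    (f : ℝ → ℝ) (hf : ContinuousOn f (Set.Icc 0 1)) (h01 : f 0 = f 1) :
    Tendsto (fun i => (∑ m ∈ Finset.range (N i), f (Int.fract (u i m))) / (N i : ℝ)) l
      (𝓝 (∫ x in (0:ℝ)..1, f x)) := by
  have hcont : Continuous (AddCircle.liftIco (1:ℝ) 0 f) :=
    AddCircle.liftIco_zero_continuous h01 hf
  let F : C(AddCircle (1:ℝ), ℂ) := ⟨fun x => ((AddCircle.liftIco (1:ℝ) 0 f x : ℝ) : ℂ),
    Complex.continuous_ofReal.comp hcont⟩
  have hF : ∀ x : ℝ, F (x : AddCircle (1:ℝ)) = ((f (Int.fract x) : ℝ) : ℂ) := by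
    intro x
    show ((AddCircle.liftIco (1:ℝ) 0 f (x : AddCircle (1:ℝ)) : ℝ) : ℂ) = _
    rw [← coe_fract_addCircle, AddCircle.liftIco_zero_coe_apply]
    exact ⟨Int.fract_nonneg x, Int.fract_lt_one x⟩
  have hint : (∫ x, F x ∂(AddCircle.haarAddCircle (T := (1:ℝ))))
      = ((∫ x in (0:ℝ)..1, f x : ℝ) : ℂ) := by
    have h1 : (∫ x, F x ∂(AddCircle.haarAddCircle (T := (1:ℝ)))) = ∫ x : AddCircle (1:ℝ), F x := by
      rw [AddCircle.volume_eq_smul_haarAddCircle]; simp
    rw [h1]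
    have h2 := (AddCircle.intervalIntegral_preimage (1:ℝ) 0 (fun x => F x)).symm
    rw [h2, ← intervalIntegral.integral_ofReal, zero_add]
    refine intervalIntegral.integral_congr_ae ?_
    have h3 : ∀ᵐ x : ℝ, x ≠ 1 := by
      have : (volume : Measure ℝ) {(1:ℝ)} = 0 := by simp
      exact Filter.mem_of_superset (compl_mem_ae_iff.mpr this) (fun x hx => hx)
    filter_upwards [h3] with x hx hx2
    rw [Set.uIoc_of_le zero_le_one] at hx2
    have hx3 : Int.fract x = x := by
      rw [Int.fract_eq_self]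
      exact ⟨hx2.1.le, lt_of_le_of_ne hx2.2 hx⟩
    rw [hF x, hx3]
  have hmain := tendsto_avg_continuous N u hN h F
  rw [hint] at hmain
  have h5 : Tendsto (fun i => (((∑ m ∈ Finset.range (N i), f (Int.fract (u i m))) / (N i : ℝ) : ℝ) : ℂ)) l
      (𝓝 ((∫ x in (0:ℝ)..1, f x : ℝ) : ℂ)) := by
    refine hmain.congr (fun i => ?_)
    push_cast
    congr 1
    refine Finset.sum_congr rfl (fun m _ => ?_)
    exact hF _
  have := (Complex.continuous_re.tendsto _).comp h5
  simpa [Function.comp_def, Complex.ofReal_re] using this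

/-- proportion of `n < N` with `fract (u n) ∈ [a, b)` -/
noncomputable def freq (u : ℕ → ℝ) (a b : ℝ) (N : ℕ) : ℝ :=
  ((((Finset.range N).filter
        (fun n => a ≤ Int.fract (u n) ∧ Int.fract (u n) < b)).card : ℕ) : ℝ) / (N : ℝ)

/-- trapezoid function -/
noncomputable def trap (a b δ : ℝ) (x : ℝ) : ℝ :=
  max 0 (min 1 (min ((x - a) / δ) ((b - x) / δ)))

lemma continuous_trap (a b δ : ℝ) : Continuous (trap a b δ) := by
  unfold trap
  fun_prop

lemma trap_nonneg (a b δ x : ℝ) : 0 ≤ trap a b δ x := le_max_left _ _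

lemma trap_le_one (a b δ x : ℝ) : trap a b δ x ≤ 1 := max_le zero_le_one (min_le_left _ _)

lemma trap_eq_zero {a b δ x : ℝ} (hδ : 0 < δ) (h : x ≤ a ∨ b ≤ x) : trap a b δ x = 0 := by
  unfold trap
  apply max_eq_left
  rcases h with h | h
  · refine (min_le_right _ _).trans ((min_le_left _ _).trans ?_)
    exact div_nonpos_of_nonpos_of_nonneg (by linarith) hδ.le
  · refine (min_le_right _ _).trans ((min_le_right _ _).trans ?_)
    exact div_nonpos_of_nonpos_of_nonneg (by linarith) hδ.le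

lemma trap_eq_one {a b δ x : ℝ} (hδ : 0 < δ) (h1 : a + δ ≤ x) (h2 : x ≤ b - δ) :
    trap a b δ x = 1 := by
  unfold trap
  have e1 : 1 ≤ (x - a) / δ := by rw [le_div_iff₀ hδ]; linarith
  have e2 : 1 ≤ (b - x) / δ := by rw [le_div_iff₀ hδ]; linarith
  rw [min_eq_left (le_min e1 e2)]
  norm_num

lemma integral_trap_ge {a b δ : ℝ} (ha : 0 ≤ a) (hb : b ≤ 1) (hδ : 0 < δ) (hab : a + δ ≤ b - δ) :
    b - a - 2 * δ ≤ ∫ x in (0:ℝ)..1, trap a b δ x := by
  have h0 : (0:ℝ) ≤ a + δ := by linarith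
  have h1 : b - δ ≤ 1 := by linarith
  have i : ∀ x y : ℝ, IntervalIntegrable (trap a b δ) volume x y := fun x y =>
    (continuous_trap a b δ).intervalIntegrable x y
  rw [← intervalIntegral.integral_add_adjacent_intervals (i 0 (a + δ)) (i (a + δ) 1),
    ← intervalIntegral.integral_add_adjacent_intervals (i (a + δ) (b - δ)) (i (b - δ) 1)]
  have e1 : 0 ≤ ∫ x in (0:ℝ)..(a + δ), trap a b δ x :=
    intervalIntegral.integral_nonneg h0 (fun x _ => trap_nonneg _ _ _ _)
  have e2 : 0 ≤ ∫ x in (b - δ)..1, trap a b δ x :=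
    intervalIntegral.integral_nonneg h1 (fun x _ => trap_nonneg _ _ _ _)
  have e3 : ∫ x in (a + δ)..(b - δ), trap a b δ x = b - a - 2 * δ := by
    have : ∫ x in (a + δ)..(b - δ), trap a b δ x = ∫ x in (a + δ)..(b - δ), (1:ℝ) := by
      refine intervalIntegral.integral_congr (fun x hx => ?_)
      rw [Set.uIcc_of_le hab] at hx
      exact trap_eq_one hδ hx.1 hx.2
    rw [this]; simp; ring
  linarith

lemma freq_nonneg (u : ℕ → ℝ) (a b : ℝ) (N : ℕ) : 0 ≤ freq u a b N := by
  unfold freq; positivity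

lemma freq_ge (u : ℕ → ℝ)
    (h : ∀ k : ℤ, k ≠ 0 →
      Tendsto (fun N : ℕ => (∑ m ∈ Finset.range N, ee (k * u m)) / (N : ℂ)) atTop (𝓝 0))
    {a b η : ℝ} (ha : 0 ≤ a) (hb : b ≤ 1) (hη : 0 < η) :
    ∀ᶠ N in atTop, b - a - η ≤ freq u a b N := by
  by_cases hab : b - a ≤ η
  · filter_upwards with N
    have := freq_nonneg u a b N
    linarith
  push Not at hab
  set δ := η / 4 with hδ
  have hδ0 : 0 < δ := by positivity
  have h1 := tendsto_avg_fract (l := atTop) (fun N : ℕ => N) (fun _ => u)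
    (eventually_gt_atTop 0) h (trap a b δ) (continuous_trap a b δ).continuousOn
    (by rw [trap_eq_zero hδ0 (Or.inl ha), trap_eq_zero hδ0 (Or.inr hb)])
  have h2 := integral_trap_ge (a := a) (b := b) (δ := δ) ha hb hδ0 (by linarith)
  have h3 : ∀ᶠ N : ℕ in atTop, b - a - η <
      (∑ m ∈ Finset.range N, trap a b δ (Int.fract (u m))) / (N : ℝ) :=
    h1.eventually (lt_mem_nhds (by linarith))
  filter_upwards [h3] with N hN
  refine hN.le.trans ?_
  unfold freq
  refine div_le_div_of_nonneg_right ?_ (Nat.cast_nonneg N)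
  rw [Finset.card_filter]
  push_cast
  refine Finset.sum_le_sum (fun m _ => ?_)
  split_ifs with hm
  · exact trap_le_one _ _ _ _
  · refine le_of_eq (trap_eq_zero hδ0 ?_)
    by_contra hc
    push Not at hc
    exact hm ⟨hc.1.le, hc.2⟩

lemma freq_add (u : ℕ → ℝ) {a b : ℝ} (hab : a ≤ b) {N : ℕ}
    (hN : 0 < N) :
    freq u 0 a N + freq u a b N + freq u b 1 N = 1 := by
  unfold freq
  have hN' : (0:ℝ) < N := by exact_mod_cast hN
  rw [← add_div, ← add_div, div_eq_one_iff_eq hN'.ne']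
  rw [Finset.card_filter, Finset.card_filter, Finset.card_filter]
  push_cast
  rw [← Finset.sum_add_distrib, ← Finset.sum_add_distrib]
  have : ∀ m ∈ Finset.range N,
      ((if 0 ≤ Int.fract (u m) ∧ Int.fract (u m) < a then (1:ℝ) else 0)
      + (if a ≤ Int.fract (u m) ∧ Int.fract (u m) < b then (1:ℝ) else 0)
      + (if b ≤ Int.fract (u m) ∧ Int.fract (u m) < 1 then (1:ℝ) else 0)) = 1 := by
    intro m _
    have h0 := Int.fract_nonneg (u m)
    have h1 := Int.fract_lt_one (u m)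
    by_cases c1 : Int.fract (u m) < a
    · have c2 : ¬ (a ≤ Int.fract (u m)) := not_le.mpr c1
      have c3 : ¬ (b ≤ Int.fract (u m)) := not_le.mpr (lt_of_lt_of_le c1 hab)
      simp [h0, c1, c2, c3]
    · have c1' : a ≤ Int.fract (u m) := not_lt.mp c1
      by_cases c2 : Int.fract (u m) < b
      · have c3 : ¬ (b ≤ Int.fract (u m)) := not_le.mpr c2
        simp [c1, c1', c2, c3]
      · have c2' : b ≤ Int.fract (u m) := not_lt.mp c2
        simp [c1, c2, c2', h1]
  rw [Finset.sum_congr rfl this]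
  simp

/-- Sufficiency half of Weyl's criterion. -/
theorem udModOne_of_weyl (u : ℕ → ℝ)
    (h : ∀ k : ℤ, k ≠ 0 →
      Tendsto (fun N : ℕ => (∑ m ∈ Finset.range N, ee (k * u m)) / (N : ℂ)) atTop (𝓝 0)) :
    UDModOne u := by
  intro a b ha hab hb
  show Tendsto (freq u a b) atTop (𝓝 (b - a))
  rw [Metric.tendsto_nhds]
  intro ε hε
  filter_upwards [freq_ge u h ha hb (η := ε / 3) (by positivity),
    freq_ge u h (le_refl 0) (hab.le.trans hb) (η := ε / 3) (by positivity),
    freq_ge u h (ha.trans hab.le) (le_refl 1) (η := ε / 3) (by positivity),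
    eventually_gt_atTop 0] with N h1 h2 h3 h4
  have h5 := freq_add u hab.le h4
  rw [Real.dist_eq, abs_lt]
  constructor <;> linarith

lemma sum_cells {q : ℕ} (hq : 0 < q) (c : ℕ → ℂ) {x : ℝ} (h0 : 0 ≤ x) (h1 : x < 1) :
    ∑ j ∈ Finset.range q, (if (j : ℝ) / q ≤ x ∧ x < ((j : ℝ) + 1) / q then c j else 0)
      = c ⌊(q : ℝ) * x⌋₊ := by
  have hq' : (0:ℝ) < q := by exact_mod_cast hq
  have hx : 0 ≤ (q : ℝ) * x := by positivity
  rw [Finset.sum_eq_single ⌊(q : ℝ) * x⌋₊]
  · rw [if_pos]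
    constructor
    · rw [div_le_iff₀ hq', mul_comm x]; exact Nat.floor_le hx
    · rw [lt_div_iff₀ hq', mul_comm x]; exact Nat.lt_floor_add_one _
  · intro j _ hj
    rw [if_neg]
    rintro ⟨h2, h3⟩
    apply hj
    rw [div_le_iff₀ hq', mul_comm x] at h2
    rw [lt_div_iff₀ hq', mul_comm x] at h3
    exact ((Nat.floor_eq_iff hx).mpr ⟨h2, h3⟩).symm
  · intro h
    exfalso
    apply h
    rw [Finset.mem_range, Nat.floor_lt hx]
    calc (q : ℝ) * x < q * 1 := by gcongr
      _ = q := mul_one _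

lemma ee_int_mul_fract (k : ℤ) (x : ℝ) : ee (k * Int.fract x) = ee (k * x) := by
  have : (k : ℝ) * x = k * Int.fract x + ((k * ⌊x⌋ : ℤ) : ℝ) := by
    push_cast
    rw [← mul_add, Int.fract_add_floor]
  rw [this, ee_add_int]

/-- Necessity half of Weyl's criterion. -/
theorem weyl_of_udModOne (u : ℕ → ℝ) (h : UDModOne u) (k : ℤ) (hk : k ≠ 0) :
    Tendsto (fun N : ℕ => (∑ m ∈ Finset.range N, ee (k * u m)) / (N : ℂ)) atTop (𝓝 0) := by
  rw [Metric.tendsto_nhds]
  intro ε hε
  -- choose q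
  obtain ⟨q, hq⟩ := exists_nat_gt (max (|k| : ℝ) (2 * Real.pi * |(k:ℝ)| / (ε / 2)))
  have hq1 : (|k| : ℝ) < q := lt_of_le_of_lt (le_max_left _ _) hq
  have hq2 : 2 * Real.pi * |(k:ℝ)| / (ε / 2) < q := lt_of_le_of_lt (le_max_right _ _) hq
  have hq0 : (0:ℝ) < q := lt_of_le_of_lt (by positivity) hq1
  have hq0' : 0 < q := by exact_mod_cast hq0
  -- the step function limit
  have hroot : ∑ j ∈ Finset.range q, ee (k * ((j:ℝ) / q)) = 0 := by
    have e1 : ∀ j ∈ Finset.range q, ee (k * ((j:ℝ) / q)) = ee ((k:ℝ) / q) ^ j := by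
      intro j _
      rw [← ee_nat_mul]; congr 1; ring
    rw [Finset.sum_congr rfl e1]
    have hne : ee ((k:ℝ) / q) ≠ 1 := by
      intro hc
      rw [ee_eq_one_iff] at hc
      obtain ⟨n, hn⟩ := hc
      rw [div_eq_iff hq0.ne'] at hn
      have h3 : |(k:ℝ)| = |(n:ℝ)| * q := by rw [hn, abs_mul, abs_of_pos hq0]
      have hn0 : n ≠ 0 := by
        rintro rfl
        simp at hn
        exact hk hn
      have h4 : (1:ℝ) ≤ |(n:ℝ)| := by exact_mod_cast Int.one_le_abs hn0
      nlinarith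
    rw [geom_sum_eq hne, ← ee_nat_mul]
    have : (q:ℝ) * ((k:ℝ) / q) = (k : ℝ) := by field_simp
    rw [this, ee_int]; simp
  have hstep : Tendsto (fun N : ℕ => ∑ j ∈ Finset.range q,
      ((freq u ((j:ℝ) / q) (((j:ℝ) + 1) / q) N : ℝ) : ℂ) * ee (k * ((j:ℝ) / q))) atTop (𝓝 0) := by
    have e2 : Tendsto (fun N : ℕ => ∑ j ∈ Finset.range q,
      ((freq u ((j:ℝ) / q) (((j:ℝ) + 1) / q) N : ℝ) : ℂ) * ee (k * ((j:ℝ) / q))) atTop
        (𝓝 (∑ j ∈ Finset.range q, ((1 / q : ℝ) : ℂ) * ee (k * ((j:ℝ) / q)))) := by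
      refine tendsto_finsetSum _ (fun j hj => ?_)
      refine Tendsto.mul_const _ ?_
      refine (Complex.continuous_ofReal.tendsto _).comp ?_
      have hj' : (j:ℝ) + 1 ≤ q := by exact_mod_cast Finset.mem_range.mp hj
      have := h ((j:ℝ) / q) (((j:ℝ) + 1) / q) (by positivity)
        (by rw [div_lt_div_iff_of_pos_right hq0]; linarith)
        (by rw [div_le_one hq0]; exact hj')
      have e3 : ((j:ℝ) + 1) / q - (j:ℝ) / q = 1 / q := by ring
      rw [e3] at this
      exact this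
    rw [← Finset.mul_sum, hroot, mul_zero] at e2
    exact e2
  have hstep' := (Metric.tendsto_nhds.mp hstep) (ε / 2) (by positivity)
  filter_upwards [hstep', eventually_gt_atTop 0] with N hN hN0
  have hN0' : (0:ℝ) < N := by exact_mod_cast hN0
  rw [dist_zero_right] at hN ⊢
  have hdiff : ‖(∑ m ∈ Finset.range N, ee (k * u m)) / (N : ℂ) - ∑ j ∈ Finset.range q,
      ((freq u ((j:ℝ) / q) (((j:ℝ) + 1) / q) N : ℝ) : ℂ) * ee (k * ((j:ℝ) / q))‖
      ≤ 2 * Real.pi * |(k:ℝ)| / q := by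
    have e4 : ∑ j ∈ Finset.range q,
      ((freq u ((j:ℝ) / q) (((j:ℝ) + 1) / q) N : ℝ) : ℂ) * ee (k * ((j:ℝ) / q))
      = (∑ m ∈ Finset.range N, ∑ j ∈ Finset.range q,
        (if (j : ℝ) / q ≤ Int.fract (u m) ∧ Int.fract (u m) < ((j : ℝ) + 1) / q
          then ee (k * ((j:ℝ) / q)) else 0)) / (N : ℂ) := by
      rw [Finset.sum_comm, Finset.sum_div]
      refine Finset.sum_congr rfl (fun j _ => ?_)
      unfold freq
      rw [Finset.card_filter]
      push_cast
      rw [div_mul_eq_mul_div, Finset.sum_mul]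
      congr 1
      refine Finset.sum_congr rfl (fun m _ => ?_)
      split_ifs <;> simp
    rw [e4, ← sub_div, ← Finset.sum_sub_distrib, norm_div, Complex.norm_natCast,
      div_le_iff₀ hN0']
    calc ‖∑ m ∈ Finset.range N, (ee (k * u m) - ∑ j ∈ Finset.range q,
        (if (j : ℝ) / q ≤ Int.fract (u m) ∧ Int.fract (u m) < ((j : ℝ) + 1) / q
          then ee (k * ((j:ℝ) / q)) else 0))‖
        ≤ ∑ m ∈ Finset.range N, ‖ee (k * u m) - ∑ j ∈ Finset.range q,
        (if (j : ℝ) / q ≤ Int.fract (u m) ∧ Int.fract (u m) < ((j : ℝ) + 1) / q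
          then ee (k * ((j:ℝ) / q)) else 0)‖ := norm_sum_le _ _
      _ ≤ ∑ m ∈ Finset.range N, 2 * Real.pi * |(k:ℝ)| / q := by
          refine Finset.sum_le_sum (fun m _ => ?_)
          have h0 := Int.fract_nonneg (u m)
          have h1 := Int.fract_lt_one (u m)
          rw [sum_cells hq0' (fun j => ee (k * ((j:ℝ) / q))) h0 h1, ← ee_int_mul_fract]
          refine (norm_ee_sub_ee_le _ _).trans ?_
          rw [← mul_sub, abs_mul, mul_div_assoc, ← mul_assoc]
          have h2 : |Int.fract (u m) - (⌊(q:ℝ) * Int.fract (u m)⌋₊ : ℝ) / q| ≤ 1 / q := by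
            have hx : 0 ≤ (q : ℝ) * Int.fract (u m) := by positivity
            have f1 := Nat.floor_le hx
            have f2 := Nat.lt_floor_add_one ((q : ℝ) * Int.fract (u m))
            rw [abs_le]
            constructor
            · have : (⌊(q:ℝ) * Int.fract (u m)⌋₊ : ℝ) / q ≤ Int.fract (u m) := by
                rw [div_le_iff₀ hq0]; linarith
              have : 0 ≤ 1 / (q:ℝ) := by positivity
              linarith
            · rw [sub_le_iff_le_add, ← add_div, le_div_iff₀ hq0]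
              linarith
          calc 2 * Real.pi * |(k:ℝ)| * |Int.fract (u m) - (⌊(q:ℝ) * Int.fract (u m)⌋₊ : ℝ) / q|
              ≤ 2 * Real.pi * |(k:ℝ)| * (1 / q) := by gcongr
            _ = 2 * Real.pi * (|(k:ℝ)| / q) := by ring
      _ = 2 * Real.pi * |(k:ℝ)| / q * N := by simp [mul_comm]
  have hq3 : 2 * Real.pi * |(k:ℝ)| / q < ε / 2 := by
    rw [div_lt_iff₀ (by positivity)] at hq2
    rw [div_lt_iff₀ hq0]; linarith
  calc ‖(∑ m ∈ Finset.range N, ee (k * u m)) / (N : ℂ)‖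
      ≤ ‖(∑ m ∈ Finset.range N, ee (k * u m)) / (N : ℂ) - ∑ j ∈ Finset.range q,
      ((freq u ((j:ℝ) / q) (((j:ℝ) + 1) / q) N : ℝ) : ℂ) * ee (k * ((j:ℝ) / q))‖
        + ‖∑ j ∈ Finset.range q,
      ((freq u ((j:ℝ) / q) (((j:ℝ) + 1) / q) N : ℝ) : ℂ) * ee (k * ((j:ℝ) / q))‖ := by
        have := norm_add_le ((∑ m ∈ Finset.range N, ee (k * u m)) / (N : ℂ) -
          ∑ j ∈ Finset.range q,
          ((freq u ((j:ℝ) / q) (((j:ℝ) + 1) / q) N : ℝ) : ℂ) * ee (k * ((j:ℝ) / q)))
          (∑ j ∈ Finset.range q,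
          ((freq u ((j:ℝ) / q) (((j:ℝ) + 1) / q) N : ℝ) : ℂ) * ee (k * ((j:ℝ) / q)))
        simpa using this
    _ < ε := by linarith

/-- Weyl's criterion. -/
theorem udModOne_iff_weyl (u : ℕ → ℝ) : UDModOne u ↔ ∀ k : ℤ, k ≠ 0 →
      Tendsto (fun N : ℕ => (∑ m ∈ Finset.range N, ee (k * u m)) / (N : ℂ)) atTop (𝓝 0) :=
  ⟨fun h k hk => weyl_of_udModOne u h k hk, udModOne_of_weyl u⟩

/-- Uniform Weyl sums for an irrational rotation. -/
lemma tendsto_rotation {a : ℝ} (ha : Irrational a) (k : ℤ) (hk : k ≠ 0) :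
    Tendsto (fun i : ℕ × ℝ => (∑ m ∈ Finset.range i.1, ee (k * (a * m + i.2))) / (i.1 : ℂ))
      (atTop ×ˢ ⊤) (𝓝 0) := by
  have hne : ee (k * a) ≠ 1 := by
    intro hc
    rw [ee_eq_one_iff] at hc
    obtain ⟨n, hn⟩ := hc
    exact (ha.intCast_mul hk).ne_int n hn
  set C : ℝ := 2 / ‖ee (k * a) - 1‖ with hC
  have hpos : 0 < ‖ee (k * a) - 1‖ := norm_pos_iff.mpr (sub_ne_zero.mpr hne)
  have hbound : ∀ i : ℕ × ℝ,
      ‖(∑ m ∈ Finset.range i.1, ee (k * (a * m + i.2))) / (i.1 : ℂ)‖ ≤ C / i.1 := by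
    intro i
    rw [norm_div, Complex.norm_natCast]
    refine div_le_div_of_nonneg_right ?_ (Nat.cast_nonneg _)
    have e1 : ∀ m ∈ Finset.range i.1, ee (k * (a * m + i.2)) = ee (k * i.2) * ee (k * a) ^ m := by
      intro m _
      rw [← ee_nat_mul, ← ee_add]; congr 1; ring
    rw [Finset.sum_congr rfl e1, ← Finset.mul_sum, norm_mul, norm_ee, one_mul,
      geom_sum_eq hne, norm_div, hC]
    refine div_le_div_of_nonneg_right ?_ hpos.le
    refine (norm_sub_le _ _).trans ?_
    rw [norm_pow, norm_ee]; norm_num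
  refine squeeze_zero_norm hbound ?_
  have h1 : Tendsto (fun n : ℕ => C / (n:ℝ)) atTop (𝓝 0) := tendsto_const_div_atTop_nhds_zero_nat C
  exact h1.comp tendsto_fst

/-- Uniform equidistribution of an irrational rotation, upper bound form. -/
theorem rotation_uniform {a : ℝ} (ha : Irrational a) (f : ℝ → ℝ)
    (hf : ContinuousOn f (Set.Icc 0 1)) (h01 : f 0 = f 1) {η : ℝ} (hη : 0 < η) :
    ∃ n0 : ℕ, ∀ n, n0 ≤ n → ∀ b : ℝ,
      ∑ m ∈ Finset.range n, f (Int.fract (a * m + b)) ≤ n * ((∫ x in (0:ℝ)..1, f x) + η) := by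
  have h0 : ∀ᶠ i : ℕ × ℝ in (atTop ×ˢ ⊤), 0 < i.1 :=
    tendsto_fst.eventually (eventually_gt_atTop 0)
  have h1 := tendsto_avg_fract (l := (atTop ×ˢ (⊤ : Filter ℝ))) (fun i : ℕ × ℝ => i.1)
    (fun i m => a * m + i.2) h0 (fun k hk => tendsto_rotation ha k hk) f hf h01
  have h2 := (h1.eventually (gt_mem_nhds (lt_add_of_pos_right _ hη))).and h0
  rw [Filter.eventually_prod_iff] at h2
  obtain ⟨pa, hpa, pb, hpb, hab⟩ := h2
  obtain ⟨n0, hn0⟩ := Filter.eventually_atTop.mp hpa
  rw [Filter.eventually_top] at hpb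
  refine ⟨n0, fun n hn b => ?_⟩
  obtain ⟨h3, h4⟩ := hab (hn0 n hn) (hpb b)
  have h4' : (0:ℝ) < n := by exact_mod_cast h4
  rw [div_lt_iff₀ h4'] at h3
  linarith

end Pool.Agent.PisotNormal
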