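import Pool.Agent.PisotNormal.Avg

/-!
The core window lemma: in one time window `[S, T]`, digits in base `θ` can be chosen such that
Weyl sums in all bases with irrational logarithmic ratio stay small.
-/

set_option autoImplicit false

namespace Pool.Agent.PisotNormal

open Filter Topology MeasureTheory

/-- Weyl sum of `h x α^m` over `m₁ ≤ m < m'`. -/
noncomputable def WW (α : ℝ) (h : ℤ) (x : ℝ) (m₁ m' : ℕ) : ℂ :=
  ∑ m ∈ Finset.Ico m₁ m', ee (h * (x * α ^ m))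

lemma WW_self (α : ℝ) (h : ℤ) (x : ℝ) (m₁ : ℕ) : WW α h x m₁ m₁ = 0 := by
  simp [WW]

lemma WW_add (α : ℝ) (h : ℤ) (x : ℝ) {m₁ m₂ m₃ : ℕ} (h12 : m₁ ≤ m₂) (h23 : m₂ ≤ m₃) :
    WW α h x m₁ m₂ + WW α h x m₂ m₃ = WW α h x m₁ m₃ := by
  unfold WW
  exact Finset.sum_Ico_consecutive _ h12 h23

lemma norm_WW_le (α : ℝ) (h : ℤ) (x : ℝ) (m₁ m' : ℕ) :
    ‖WW α h x m₁ m'‖ ≤ ((m' - m₁ : ℕ) : ℝ) := by
  unfold WW
  refine (norm_sum_le _ _).trans (le_of_eq ?_)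
  simp

lemma norm_lt_of_sum_sq_lt (W : ℕ → ℂ) (m₁ m₂ K : ℕ) (h0 : W m₁ = 0)
    (hstep : ∀ m, m₁ ≤ m → ‖W (m + 1) - W m‖ ≤ 1)
    (hsum : ∑ m ∈ Finset.Icc m₁ m₂, ‖W m‖ ^ 2 < (K : ℝ) ^ 3) :
    ∀ m ∈ Finset.Icc m₁ m₂, ‖W m‖ < 2 * K := by
  intro m hm
  by_contra hcon
  push Not at hcon
  have hlip : ∀ (i k : ℕ), m₁ ≤ k → ‖W (k + i)‖ ≤ ‖W k‖ + i := by
    intro i k hk
    induction i with
    | zero => simp
    | succ i ih =>
      have h1 : ‖W (k + (i + 1))‖ ≤ ‖W (k + i)‖ + ‖W (k + i + 1) - W (k + i)‖ := by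
        have := norm_add_le (W (k + i)) (W (k + i + 1) - W (k + i))
        rw [add_sub_cancel] at this
        exact this
      have h2 := hstep (k + i) (by omega)
      push_cast
      linarith
  rw [Finset.mem_Icc] at hm
  have h1 := hlip (m - m₁) m₁ (le_refl _)
  rw [h0, norm_zero, zero_add, show m₁ + (m - m₁) = m by omega] at h1
  have h2 : 2 * K ≤ m - m₁ := by exact_mod_cast hcon.trans h1
  have h3 : ∑ k ∈ Finset.Ioc (m - K) m, (K : ℝ) ^ 2 ≤ ∑ k ∈ Finset.Icc m₁ m₂, ‖W k‖ ^ 2 := by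
    have hsub : Finset.Ioc (m - K) m ⊆ Finset.Icc m₁ m₂ := by
      intro k hk
      rw [Finset.mem_Ioc] at hk
      rw [Finset.mem_Icc]
      omega
    refine le_trans (Finset.sum_le_sum (fun k hk => ?_))
      (Finset.sum_le_sum_of_subset_of_nonneg hsub (fun _ _ _ => by positivity))
    rw [Finset.mem_Ioc] at hk
    have h4 := hlip (m - k) k (by omega)
    rw [show k + (m - k) = m by omega] at h4
    have h5 : ((m - k : ℕ) : ℝ) ≤ K := by exact_mod_cast (by omega : m - k ≤ K)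
    have h6 : (K : ℝ) ≤ ‖W k‖ := by linarith
    exact pow_le_pow_left₀ (Nat.cast_nonneg _) h6 2
  rw [Finset.sum_const, Nat.card_Ioc, show m - (m - K) = K by omega, nsmul_eq_mul] at h3
  have : (K : ℝ) ^ 3 = K * (K : ℝ) ^ 2 := by ring
  linarith

/-- Penalty function. -/
noncomputable def pen (α : ℝ) (h : ℤ) (m₁ m₂ : ℕ) (x : ℝ) : ℝ :=
  ∑ m' ∈ Finset.Icc m₁ m₂, ‖WW α h x m₁ m'‖ ^ 2

lemma pen_nonneg (α : ℝ) (h : ℤ) (m₁ m₂ : ℕ) (x : ℝ) : 0 ≤ pen α h m₁ m₂ x :=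
  Finset.sum_nonneg (fun _ _ => by positivity)

lemma norm_WW_lt_of_pen {α : ℝ} {h : ℤ} {m₁ m₂ K : ℕ} {x : ℝ}
    (hp : pen α h m₁ m₂ x < (K : ℝ) ^ 3) : ∀ m ∈ Finset.Icc m₁ m₂, ‖WW α h x m₁ m‖ < 2 * K := by
  refine norm_lt_of_sum_sq_lt (fun m => WW α h x m₁ m) m₁ m₂ K (WW_self _ _ _ _) ?_ hp
  intro m hm
  have h1 : WW α h x m₁ (m + 1) - WW α h x m₁ m = ee (h * (x * α ^ m)) := by
    unfold WW
    rw [Finset.sum_Ico_succ_top hm]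
    ring
  simp only [h1, norm_ee, le_refl]

lemma avg_pen_small {θ α : ℝ} (hθ : 1 < θ) (hα : 1 < |α|)
    (hirr : Irrational (Real.log |α| / Real.log θ)) {h : ℤ} (hh : h ≠ 0) (κ : ℝ)
    {ε : ℝ} (hε : 0 < ε) :
    ∀ᶠ S : ℝ in atTop, ∀ T : ℝ, S ≤ T → T ≤ 2 * S → ∀ N₁ n : ℕ,
      (N₁ : ℝ) ≤ S / Real.log θ + κ → T / Real.log θ ≤ ((N₁ + n : ℕ) : ℝ) + κ → ∀ x₀ : ℝ,
      avg θ N₁ n (pen α h ⌈S / Real.log |α|⌉₊ ⌈T / Real.log |α|⌉₊) x₀ ≤ ε * S ^ 3 := by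
  have hlogθ : 0 < Real.log θ := Real.log_pos hθ
  have hlogα : 0 < Real.log |α| := Real.log_pos hα
  set lam := Real.log |α| with hlam
  set A := 1 / lam with hA
  have hA0 : 0 < A := by positivity
  set a := lam / Real.log θ with ha
  have ha0 : 0 < a := div_pos hlogα hlogθ
  set η := ε / (2 * (A + 2) ^ 3) with hη
  have hη0 : 0 < η := by positivity
  obtain ⟨C, hC0, hC⟩ := exists_pairs_bound hθ hα hirr hh hη0 (|κ| + a)
  filter_upwards [eventually_ge_atTop 1, eventually_ge_atTop (2 * C * (A + 2) ^ 2 / ε)]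
    with S hS1 hS2 T hST hT2 N₁ n hN₁ hN₂ x₀
  have hS0 : 0 < S := by linarith
  set m₁ := ⌈S / lam⌉₊ with hm₁
  set m₂ := ⌈T / lam⌉₊ with hm₂
  have e1 : S / lam ≤ m₁ := Nat.le_ceil _
  have hT0 : 0 < T := by linarith
  have e2 : (m₂ : ℝ) < T / lam + 1 := Nat.ceil_lt_add_one (by positivity)
  have hm12 : m₁ ≤ m₂ := Nat.ceil_le_ceil (by gcongr)
  have hL : ((m₂ - m₁ : ℕ) : ℝ) ≤ A * S + 1 := by
    rw [Nat.cast_sub hm12]
    have : T / lam ≤ 2 * S / lam := by gcongr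
    have h3 : 2 * S / lam = S / lam + A * S := by rw [hA]; ring
    linarith
  have hL2 : ((m₂ - m₁ : ℕ) : ℝ) + 1 ≤ (A + 2) * S := by nlinarith
  have hκ := le_abs_self κ
  -- bound of each term
  have hterm : ∀ m' ∈ Finset.Icc m₁ m₂,
      avg θ N₁ n (fun y => ‖WW α h y m₁ m'‖ ^ 2) x₀
        ≤ η * ((A + 2) * S) ^ 2 + C * ((A + 2) * S) := by
    intro m' hm'
    rw [Finset.mem_Icc] at hm'
    have h1 := avg_norm_sq_le θ N₁ n α h (Finset.Ico m₁ m') x₀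
    have h2 := hC N₁ (N₁ + n) m₁ m' hm'.1
      (by
        have : S / Real.log θ = a * (S / lam) := by rw [ha]; field_simp
        have h4 : a * (S / lam) ≤ a * m₁ := mul_le_mul_of_nonneg_left e1 ha0.le
        linarith)
      (by
        have h5 : (m' : ℝ) ≤ m₂ := by exact_mod_cast hm'.2
        have h6 : a * (m' : ℝ) ≤ a * (T / lam + 1) :=
          mul_le_mul_of_nonneg_left (h5.trans e2.le) ha0.le
        have h7 : a * (T / lam + 1) = T / Real.log θ + a := by rw [ha]; field_simp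
        linarith)
    have h8 : ((m' - m₁ : ℕ) : ℝ) ≤ (A + 2) * S := by
      have : ((m' - m₁ : ℕ) : ℝ) ≤ ((m₂ - m₁ : ℕ) : ℝ) := by exact_mod_cast (by omega : m' - m₁ ≤ m₂ - m₁)
      linarith
    have h9 : η * ((m' - m₁ : ℕ) : ℝ) ^ 2 ≤ η * ((A + 2) * S) ^ 2 := by gcongr
    have h10 : C * ((m' - m₁ : ℕ) : ℝ) ≤ C * ((A + 2) * S) := by gcongr
    unfold WW
    linarith
  have hsum : avg θ N₁ n (pen α h m₁ m₂) x₀
      ≤ ((m₂ - m₁ : ℕ) + 1) * (η * ((A + 2) * S) ^ 2 + C * ((A + 2) * S)) := by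
    unfold pen
    rw [avg_sum]
    refine (Finset.sum_le_sum hterm).trans (le_of_eq ?_)
    rw [Finset.sum_const, Nat.card_Icc, nsmul_eq_mul]
    congr 1
    have : m₂ + 1 - m₁ = (m₂ - m₁) + 1 := by omega
    rw [this]; push_cast; ring
  refine hsum.trans ?_
  have h11 : ((m₂ - m₁ : ℕ) + 1) * (η * ((A + 2) * S) ^ 2 + C * ((A + 2) * S))
      ≤ ((A + 2) * S) * (η * ((A + 2) * S) ^ 2 + C * ((A + 2) * S)) := by
    apply mul_le_mul_of_nonneg_right hL2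
    positivity
  refine h11.trans ?_
  have h12 : η * (A + 2) ^ 3 = ε / 2 := by
    rw [hη]; field_simp
  have h13 : C * (A + 2) ^ 2 ≤ ε / 2 * S := by
    rw [div_le_iff₀ hε] at hS2
    linarith
  calc ((A + 2) * S) * (η * ((A + 2) * S) ^ 2 + C * ((A + 2) * S))
      = (η * (A + 2) ^ 3) * S ^ 3 + (C * (A + 2) ^ 2) * S ^ 2 := by ring
    _ ≤ (ε / 2) * S ^ 3 + (ε / 2 * S) * S ^ 2 := by
        rw [h12]
        have : (C * (A + 2) ^ 2) * S ^ 2 ≤ (ε / 2 * S) * S ^ 2 := by gcongr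
        linarith
    _ = ε * S ^ 3 := by ring

/-- The core window lemma. -/
theorem core_window {θ : ℝ} (hθ : 1 < θ) (F : Finset (ℝ × ℤ))
    (hF : ∀ p ∈ F, 1 < |p.1| ∧ p.2 ≠ 0 ∧ Irrational (Real.log |p.1| / Real.log θ))
    (κ : ℝ) {δ c : ℝ} (hδ : 0 < δ) (hc : 0 < c) :
    ∀ᶠ S : ℝ in atTop, ∀ T : ℝ, S ≤ T → T ≤ 2 * S → ∀ N₁ n : ℕ,
      (N₁ : ℝ) ≤ S / Real.log θ + κ → T / Real.log θ ≤ ((N₁ + n : ℕ) : ℝ) + κ →
      ∀ (x₀ : ℝ) (Z : ℝ → ℝ), (∀ x, Z x ≤ 1) → c ≤ avg θ N₁ n Z x₀ →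
      ∃ x' : ℝ, |x' - x₀| ≤ 1 / θ ^ N₁ / (θ - 1) ∧ c / 2 ≤ Z x' ∧
        ∀ p ∈ F, ∀ m' ∈ Finset.Icc ⌈S / Real.log |p.1|⌉₊ ⌈T / Real.log |p.1|⌉₊,
          ‖WW p.1 p.2 x' ⌈S / Real.log |p.1|⌉₊ m'‖ ≤ δ * S := by
  set r : ℝ := (F.card : ℝ) with hr
  have hr0 : 0 ≤ r := Nat.cast_nonneg _
  set ε : ℝ := c * δ ^ 3 / (128 * (r + 1)) with hε
  have hε0 : 0 < ε := by positivity
  have hall : ∀ᶠ S : ℝ in atTop, ∀ p ∈ F, ∀ T : ℝ, S ≤ T → T ≤ 2 * S → ∀ N₁ n : ℕ,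
      (N₁ : ℝ) ≤ S / Real.log θ + κ → T / Real.log θ ≤ ((N₁ + n : ℕ) : ℝ) + κ → ∀ x₀ : ℝ,
      avg θ N₁ n (pen p.1 p.2 ⌈S / Real.log |p.1|⌉₊ ⌈T / Real.log |p.1|⌉₊) x₀ ≤ ε * S ^ 3 := by
    rw [Filter.eventually_all_finset]
    intro p hp
    obtain ⟨h1, h2, h3⟩ := hF p hp
    exact avg_pen_small hθ h1 h3 h2 κ hε0
  filter_upwards [hall, eventually_ge_atTop (4 / δ), eventually_gt_atTop 0] with S hS hS4 hS0 T hST
    hT2 N₁ n hN₁ hN₂ x₀ Z hZ hcZ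
  set K := ⌊δ * S / 2⌋₊ with hK
  have hK1 : (K : ℝ) ≤ δ * S / 2 := Nat.floor_le (by positivity)
  have hδS : 4 ≤ δ * S := by
    rw [div_le_iff₀ hδ] at hS4
    linarith
  have hK2 : δ * S / 4 ≤ K := by
    have := Nat.lt_floor_add_one (δ * S / 2)
    rw [← hK] at this
    linarith
  have hK0 : (0:ℝ) < K := by linarith
  have hK3 : 0 < (K : ℝ) ^ 3 := by positivity
  have hK4 : (δ * S) ^ 3 / 64 ≤ (K : ℝ) ^ 3 := by
    have : (δ * S / 4) ^ 3 ≤ (K : ℝ) ^ 3 := pow_le_pow_left₀ (by positivity) hK2 3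
    calc (δ * S) ^ 3 / 64 = (δ * S / 4) ^ 3 := by ring
      _ ≤ _ := this
  set f : ℝ → ℝ := fun y => Z y - ∑ p ∈ F, (1 / (K : ℝ) ^ 3) *
    pen p.1 p.2 ⌈S / Real.log |p.1|⌉₊ ⌈T / Real.log |p.1|⌉₊ y with hf
  have havg : c / 2 ≤ avg θ N₁ n f x₀ := by
    rw [hf, avg_sub, avg_sum]
    have h1 : ∀ p ∈ F, avg θ N₁ n (fun y => (1 / (K : ℝ) ^ 3) *
        pen p.1 p.2 ⌈S / Real.log |p.1|⌉₊ ⌈T / Real.log |p.1|⌉₊ y) x₀ ≤ c / (2 * (r + 1)) := by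
      intro p hp
      rw [avg_smul]
      have h2 := hS p hp T hST hT2 N₁ n hN₁ hN₂ x₀
      have h3 : ε * S ^ 3 ≤ (K : ℝ) ^ 3 * (c / (2 * (r + 1))) := by
        calc ε * S ^ 3 = ((δ * S) ^ 3 / 64) * (c / (2 * (r + 1))) := by
              rw [hε]; field_simp; norm_num
          _ ≤ _ := by gcongr
      rw [one_div, inv_mul_le_iff₀ hK3]
      exact h2.trans h3
    have h4 := Finset.sum_le_sum h1
    rw [Finset.sum_const, nsmul_eq_mul, ← hr] at h4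
    have h5 : r * (c / (2 * (r + 1))) ≤ c / 2 := by
      rw [mul_div_assoc', div_le_div_iff₀ (by positivity) (by norm_num)]
      nlinarith
    linarith
  obtain ⟨x', hx1, hx2⟩ := exists_ge_avg hθ N₁ n f x₀
  have hfx : c / 2 ≤ f x' := havg.trans hx2
  have hnn : ∀ p ∈ F, 0 ≤ (1 / (K : ℝ) ^ 3) *
    pen p.1 p.2 ⌈S / Real.log |p.1|⌉₊ ⌈T / Real.log |p.1|⌉₊ x' := fun p _ =>
      mul_nonneg (by positivity) (pen_nonneg _ _ _ _ _)
  refine ⟨x', hx1, ?_, ?_⟩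
  · have := Finset.sum_nonneg hnn
    simp only [hf] at hfx
    linarith
  · intro p hp m' hm'
    have h6 := Finset.single_le_sum hnn hp
    have h7 : (1 / (K : ℝ) ^ 3) *
        pen p.1 p.2 ⌈S / Real.log |p.1|⌉₊ ⌈T / Real.log |p.1|⌉₊ x' < 1 := by
      simp only [hf] at hfx
      have := hZ x'
      linarith
    rw [one_div, inv_mul_lt_iff₀ hK3, mul_one] at h7
    have h8 := norm_WW_lt_of_pen h7 m' hm'
    linarith

end Pool.Agent.PisotNormal
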